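import Mathlib

/-!
Random permutations of `Fin n`, prefixes, and the two-level counts.
-/

namespace Pool.Agent.Lib_MP_b87ef1_x77

open Finset Equiv

/-- A family `F` of subsets of an `n`-element ground set is admissible if there are no three
pairwise distinct members `A, B, C` of `F` with `A ∪ B = C` or `A ∩ B = C`. -/
def Admissible {n : ℕ} (F : Finset (Finset (Fin n))) : Prop :=
  ∀ A ∈ F, ∀ B ∈ F, ∀ C ∈ F, A ≠ B → A ≠ C → B ≠ C → A ∪ B ≠ C ∧ A ∩ B ≠ C

/-- `f n` is the largest size of an admissible family of subsets of an `n`-element set. -/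
noncomputable def f (n : ℕ) : ℕ :=
  sSup {k : ℕ | ∃ F : Finset (Finset (Fin n)), Admissible F ∧ F.card = k}

variable {n : ℕ}

/-- The set of the first `i` elements in the order given by `σ`. -/
def pre (σ : Perm (Fin n)) (i : ℕ) : Finset (Fin n) := univ.filter (fun x => (σ x : ℕ) < i)

lemma mem_pre {σ : Perm (Fin n)} {i : ℕ} {x : Fin n} : x ∈ pre σ i ↔ (σ x : ℕ) < i := by
  simp [pre]

lemma pre_mono (σ : Perm (Fin n)) {i j : ℕ} (h : i ≤ j) : pre σ i ⊆ pre σ j := by
  intro x hx
  rw [mem_pre] at *
  omega

lemma card_pre (σ : Perm (Fin n)) {i : ℕ} (h : i ≤ n) : (pre σ i).card = i := by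
  have : (pre σ i).map σ.toEmbedding = univ.filter (fun j : Fin n => (j : ℕ) < i) := by
    ext j
    simp only [mem_map, mem_filter, mem_univ, true_and, Equiv.toEmbedding_apply, mem_pre]
    constructor
    · rintro ⟨x, hx, rfl⟩; exact hx
    · intro hj; exact ⟨σ.symm j, by simpa using hj, by simp⟩
  rw [← card_map σ.toEmbedding, this, Fin.card_filter_val_lt, min_eq_right h]

/-- Real-valued (here rational-valued) indicator. -/
noncomputable def ind (p : Prop) : ℚ := by classical exact if p then 1 else 0

lemma ind_of {p : Prop} (h : p) : ind p = 1 := by simp [ind, h]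
lemma ind_not {p : Prop} (h : ¬ p) : ind p = 0 := by simp [ind, h]
lemma ind_nonneg (p : Prop) : 0 ≤ ind p := by
  by_cases h : p
  · simp [ind_of h]
  · simp [ind_not h]
lemma ind_le_one (p : Prop) : ind p ≤ 1 := by
  by_cases h : p
  · simp [ind_of h]
  · simp [ind_not h]
lemma ind_mono {p q : Prop} (h : p → q) : ind p ≤ ind q := by
  by_cases hp : p
  · rw [ind_of hp, ind_of (h hp)]
  · rw [ind_not hp]; exact ind_nonneg q
lemma ind_congr {p q : Prop} (h : p ↔ q) : ind p = ind q := by
  by_cases hp : p
  · rw [ind_of hp, ind_of (h.1 hp)]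
  · rw [ind_not hp, ind_not (fun hq => hp (h.2 hq))]

/-- Expectation over a uniform random permutation. -/
noncomputable def Ex (g : Perm (Fin n) → ℚ) : ℚ := (∑ σ, g σ) / (n.factorial : ℚ)

lemma fact_pos : (0 : ℚ) < (n.factorial : ℚ) := by exact_mod_cast Nat.factorial_pos n

lemma Ex_mono {g h : Perm (Fin n) → ℚ} (H : ∀ σ, g σ ≤ h σ) : Ex g ≤ Ex h := by
  unfold Ex
  exact div_le_div_of_nonneg_right (sum_le_sum fun σ _ => H σ) fact_pos.le

lemma Ex_nonneg {g : Perm (Fin n) → ℚ} (H : ∀ σ, 0 ≤ g σ) : 0 ≤ Ex g := by
  unfold Ex
  exact div_nonneg (sum_nonneg fun σ _ => H σ) fact_pos.le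

lemma Ex_add (g h : Perm (Fin n) → ℚ) : Ex (fun σ => g σ + h σ) = Ex g + Ex h := by
  unfold Ex
  rw [sum_add_distrib, add_div]

lemma Ex_sub (g h : Perm (Fin n) → ℚ) : Ex (fun σ => g σ - h σ) = Ex g - Ex h := by
  unfold Ex
  rw [sum_sub_distrib, sub_div]

lemma Ex_mul (c : ℚ) (g : Perm (Fin n) → ℚ) : Ex (fun σ => c * g σ) = c * Ex g := by
  unfold Ex
  rw [← mul_sum, mul_div_assoc]

lemma Ex_sum {ι : Type*} (s : Finset ι) (g : ι → Perm (Fin n) → ℚ) :
    Ex (fun σ => ∑ i ∈ s, g i σ) = ∑ i ∈ s, Ex (g i) := by
  unfold Ex
  rw [sum_comm, sum_div]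

lemma Ex_const (c : ℚ) : Ex (fun _ : Perm (Fin n) => c) = c := by
  unfold Ex
  rw [sum_const, card_univ, Fintype.card_perm, Fintype.card_fin, nsmul_eq_mul]
  have := (fact_pos (n := n)).ne'
  field_simp

lemma Ex_congr {g h : Perm (Fin n) → ℚ} (H : ∀ σ, g σ = h σ) : Ex g = Ex h := by
  rw [funext H]

/-- The number of permutations matching two colourings with equal fibres. -/
lemma card_color {ι : Type*} [DecidableEq ι] [Fintype ι] (g p : Fin n → ι)
    (h : ∀ c, Fintype.card {a // g a = c} = Fintype.card {b // p b = c}) :
    Fintype.card {σ : Perm (Fin n) // p ∘ σ = g} = ∏ c, (Fintype.card {a // p a = c}).factorial := by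
  classical
  let σ₀ : Perm (Fin n) := Equiv.ofFiberEquiv (fun c => Fintype.equivOfCardEq (h c))
  have h₀ : ∀ a, p (σ₀ a) = g a := fun a => Equiv.ofFiberEquiv_map _ a
  rw [← DomMulAct.stabilizer_card p]
  refine Fintype.card_congr (Equiv.subtypeEquiv (Equiv.mulRight σ₀⁻¹) ?_)
  intro σ
  simp only [Equiv.coe_mulRight, Equiv.Perm.coe_mul]
  constructor
  · intro hσ
    rw [← Function.comp_assoc, hσ]
    funext a
    simp only [Function.comp_apply]
    rw [← h₀]
    simp
  · intro hσ
    funext a
    have h1 := congrFun hσ (σ₀ a)
    have h2 : σ₀⁻¹ (σ₀ a) = a := by simp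
    rw [Function.comp_apply, Function.comp_apply, h2, h₀] at h1
    exact h1

lemma two_level (A C : Finset (Fin n)) (hAC : A ⊆ C) :
    Ex (fun σ => ind (pre σ A.card = A ∧ pre σ C.card = C)) =
      1 / ((n.choose A.card : ℚ) * ((n - A.card).choose (C.card - A.card) : ℚ)) := by
  classical
  set a := A.card with ha
  set c := C.card with hc
  have hac : a ≤ c := card_le_card hAC
  have hcn : c ≤ n := by simpa using card_le_univ C
  let g : Fin n → Bool × Bool := fun x => (decide (x ∈ A), decide (x ∈ C))
  let p : Fin n → Bool × Bool := fun j => (decide ((j : ℕ) < a), decide ((j : ℕ) < c))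
  have hiff : ∀ σ : Perm (Fin n), (pre σ a = A ∧ pre σ c = C) ↔ p ∘ σ = g := by
    intro σ
    constructor
    · rintro ⟨h1, h2⟩
      funext x
      simp only [p, g, Function.comp_apply]
      rw [← h1, ← h2]
      simp [mem_pre]
    · intro h
      constructor
      · ext x
        have := congrArg Prod.fst (congrFun h x)
        simp only [p, g, Function.comp_apply, decide_eq_decide] at this
        rw [mem_pre]; exact this
      · ext x
        have := congrArg Prod.snd (congrFun h x)
        simp only [p, g, Function.comp_apply, decide_eq_decide] at this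
        rw [mem_pre]; exact this
  -- fibres
  have fg : ∀ b : Bool × Bool, Fintype.card {x // g x = b} =
      if b = (true, true) then a else if b = (false, true) then c - a else
        if b = (false, false) then n - c else 0 := by
    intro b
    rw [Fintype.card_subtype]
    rcases b with ⟨b1, b2⟩
    cases b1 <;> cases b2
    · have : (univ.filter fun x => g x = (false, false)) = Cᶜ := by
        ext x
        simp only [g, mem_filter, mem_univ, true_and, Prod.mk.injEq, decide_eq_false_iff_not,
          mem_compl]
        exact ⟨fun h => h.2, fun h => ⟨fun h' => h (hAC h'), h⟩⟩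
      rw [this, card_compl, Fintype.card_fin]
      simp [hc]
    · have : (univ.filter fun x => g x = (false, true)) = C \ A := by
        ext x
        simp only [g, mem_filter, mem_univ, true_and, Prod.mk.injEq, decide_eq_false_iff_not,
          decide_eq_true_eq, mem_sdiff]
        tauto
      rw [this, card_sdiff_of_subset hAC]
      simp [hc, ha]
    · have : (univ.filter fun x => g x = (true, false)) = ∅ := by
        ext x
        simp only [g, mem_filter, mem_univ, true_and, Prod.mk.injEq, decide_eq_false_iff_not,
          decide_eq_true_eq, notMem_empty, iff_false, not_and, not_not]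
        exact fun h => hAC h
      rw [this]
      simp
    · have : (univ.filter fun x => g x = (true, true)) = A := by
        ext x
        simp only [g, mem_filter, mem_univ, true_and, Prod.mk.injEq, decide_eq_true_eq]
        exact ⟨fun h => h.1, fun h => ⟨h, hAC h⟩⟩
      rw [this]
      simp [ha]
  have fp : ∀ b : Bool × Bool, Fintype.card {x // p x = b} =
      if b = (true, true) then a else if b = (false, true) then c - a else
        if b = (false, false) then n - c else 0 := by
    have cl : ∀ i ≤ n, (univ.filter fun j : Fin n => (j : ℕ) < i).card = i := by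
      intro i hi
      rw [Fin.card_filter_val_lt, min_eq_right hi]
    have hsub : (univ.filter fun j : Fin n => (j : ℕ) < a) ⊆ (univ.filter fun j : Fin n => (j : ℕ) < c) := by
      intro j hj
      simp only [mem_filter, mem_univ, true_and] at *
      omega
    intro b
    rw [Fintype.card_subtype]
    rcases b with ⟨b1, b2⟩
    cases b1 <;> cases b2
    · have : (univ.filter fun x => p x = (false, false)) = (univ.filter fun j : Fin n => (j : ℕ) < c)ᶜ := by
        ext x
        simp only [p, mem_filter, mem_univ, true_and, Prod.mk.injEq, decide_eq_false_iff_not,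
          mem_compl]
        omega
      rw [this, card_compl, Fintype.card_fin, cl c hcn]
      simp
    · have : (univ.filter fun x => p x = (false, true)) =
        (univ.filter fun j : Fin n => (j : ℕ) < c) \ (univ.filter fun j : Fin n => (j : ℕ) < a) := by
        ext x
        simp only [p, mem_filter, mem_univ, true_and, Prod.mk.injEq, decide_eq_false_iff_not,
          decide_eq_true_eq, mem_sdiff]
        tauto
      rw [this, card_sdiff_of_subset hsub, cl c hcn, cl a (hac.trans hcn)]
      simp
    · have : (univ.filter fun x => p x = (true, false)) = ∅ := by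
        ext x
        simp only [p, mem_filter, mem_univ, true_and, Prod.mk.injEq, decide_eq_false_iff_not,
          decide_eq_true_eq, notMem_empty, iff_false, not_and, not_not]
        omega
      rw [this]
      simp
    · have : (univ.filter fun x => p x = (true, true)) = (univ.filter fun j : Fin n => (j : ℕ) < a) := by
        ext x
        simp only [p, mem_filter, mem_univ, true_and, Prod.mk.injEq, decide_eq_true_eq]
        omega
      rw [this, cl a (hac.trans hcn)]
      simp
  have hcount := card_color g p (fun b => by rw [fg, fp])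
  have hprod : ∏ b : Bool × Bool, (Fintype.card {x // p x = b}).factorial =
      a.factorial * (c - a).factorial * (n - c).factorial := by
    rw [Fintype.prod_prod_type]
    simp only [fp, Fintype.prod_bool]
    simp
    ring
  rw [hprod] at hcount
  have hsum : (∑ σ : Perm (Fin n), ind (pre σ a = A ∧ pre σ c = C)) =
      ((a.factorial * (c - a).factorial * (n - c).factorial : ℕ) : ℚ) := by
    rw [← hcount, Fintype.card_subtype]
    rw [card_filter]
    push_cast
    refine sum_congr rfl fun σ _ => ?_
    by_cases h : p ∘ σ = g
    · rw [ind_of ((hiff σ).2 h), if_pos h]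
    · rw [ind_not (fun h' => h ((hiff σ).1 h')), if_neg h]
  unfold Ex
  rw [hsum]
  have e1 : n.choose a * a.factorial * (n - a).factorial = n.factorial :=
    Nat.choose_mul_factorial_mul_factorial (hac.trans hcn)
  have e2 : (n - a).choose (c - a) * (c - a).factorial * ((n - a) - (c - a)).factorial =
      (n - a).factorial := Nat.choose_mul_factorial_mul_factorial (by omega)
  have e3 : (n - a) - (c - a) = n - c := by omega
  rw [e3] at e2
  have p1 : (0 : ℚ) < (n.choose a : ℚ) := by exact_mod_cast Nat.choose_pos (hac.trans hcn)
  have p2 : (0 : ℚ) < ((n - a).choose (c - a) : ℚ) := by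
    exact_mod_cast Nat.choose_pos (by omega)
  rw [div_eq_div_iff fact_pos.ne' (mul_pos p1 p2).ne', one_mul, ← e1, ← e2]
  push_cast
  ring

lemma one_level (A : Finset (Fin n)) :
    Ex (fun σ => ind (pre σ A.card = A)) = 1 / (n.choose A.card : ℚ) := by
  have := two_level A A (Subset.refl A)
  rw [Nat.sub_self, Nat.choose_zero_right] at this
  simpa using this

end Pool.Agent.Lib_MP_b87ef1_x77
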