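import Pool.Agent.Lib_MP_b87ef1_x77.Main

/-!
Bounds common to both parities.
-/

namespace Pool.Agent.Lib_MP_b87ef1_x77

open Finset Equiv

variable {n : ℕ}

lemma lowW_le {F : Finset (Finset (Fin n))} (hF : Admissible F) {i : ℕ} (h3 : n ≤ 3 * i)
    (h2 : 2 * i < n) :
    lowW F i ≤ xl F i * ((2 * ((n : ℚ) - 2 * i) - 1) / (2 * ((n : ℚ) - i))) := by
  unfold lowW
  have hpos : (0 : ℚ) < (n : ℚ) - i := by
    have : (i : ℚ) < n := by exact_mod_cast (by omega : i < n)
    linarith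
  have key : ∀ A ∈ lev F i, H F A (n - 2 * i - 1) + H F A (n - 2 * i) ≤
      1 / (n.choose i : ℚ) * ((2 * ((n : ℚ) - 2 * i) - 1) / ((n : ℚ) - i)) := by
    intro A hA
    obtain ⟨hA, hc⟩ := mem_lev.1 hA
    have e1 := H_le hF hA (D := n - 2 * i - 1) (by omega)
    have e2 := H_le hF hA (D := n - 2 * i) (by omega)
    rw [hc] at e1 e2
    have c1 : ((n - 2 * i - 1 : ℕ) : ℚ) = (n : ℚ) - 2 * i - 1 := by
      have : n = (n - 2 * i - 1) + 2 * i + 1 := by omega
      have h : (n : ℚ) = ((n - 2 * i - 1 : ℕ) : ℚ) + 2 * i + 1 := by exact_mod_cast this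
      linarith
    have c2 : ((n - 2 * i : ℕ) : ℚ) = (n : ℚ) - 2 * i := by
      have : n = (n - 2 * i) + 2 * i := by omega
      have h : (n : ℚ) = ((n - 2 * i : ℕ) : ℚ) + 2 * i := by exact_mod_cast this
      linarith
    have c3 : ((n - i : ℕ) : ℚ) = (n : ℚ) - i := by
      have : n = (n - i) + i := by omega
      have h : (n : ℚ) = ((n - i : ℕ) : ℚ) + i := by exact_mod_cast this
      linarith
    rw [c1, c3] at e1
    rw [c2, c3] at e2
    have : 1 / (n.choose i : ℚ) * ((2 * ((n : ℚ) - 2 * i) - 1) / ((n : ℚ) - i)) =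
        1 / (n.choose i : ℚ) * (((n : ℚ) - 2 * i - 1) / ((n : ℚ) - i)) +
        1 / (n.choose i : ℚ) * (((n : ℚ) - 2 * i) / ((n : ℚ) - i)) := by
      rw [← mul_add, ← add_div]
      congr 2
      ring
    rw [this]
    exact add_le_add e1 e2
  have hs := sum_le_sum key
  rw [sum_const, nsmul_eq_mul] at hs
  rw [xl_eq F (by omega)]
  have p1 : (0 : ℚ) < (n.choose i : ℚ) := by exact_mod_cast Nat.choose_pos (by omega : i ≤ n)
  calc 1 / 2 * ∑ A ∈ lev F i, (H F A (n - 2 * i - 1) + H F A (n - 2 * i))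
      ≤ 1 / 2 * ((lev F i).card * (1 / (n.choose i : ℚ) *
          ((2 * ((n : ℚ) - 2 * i) - 1) / ((n : ℚ) - i)))) := by
        apply mul_le_mul_of_nonneg_left hs; norm_num
    _ = _ := by
        field_simp

lemma choose_mono_half {n a b : ℕ} (hab : a ≤ b) (hb : b ≤ n / 2) : n.choose a ≤ n.choose b := by
  induction b, hab using Nat.le_induction with
  | base => exact le_refl _
  | succ b _ ih =>
    exact (ih (by omega)).trans (Nat.choose_le_succ_of_lt_half_left (by omega))

/-- Ratio of consecutive binomial coefficients. -/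
lemma choose_step {n i : ℕ} (hi : i < n) :
    (n.choose i : ℚ) * ((n : ℚ) - i) = (n.choose (i + 1) : ℚ) * ((i : ℚ) + 1) := by
  have h := Nat.choose_succ_right_eq n i
  have c3 : ((n - i : ℕ) : ℚ) = (n : ℚ) - i := by
    have : n = (n - i) + i := by omega
    have h : (n : ℚ) = ((n - i : ℕ) : ℚ) + i := by exact_mod_cast this
    linarith
  rw [← c3]
  have h' : (n.choose (i + 1) : ℚ) * ((i : ℚ) + 1) = (n.choose i : ℚ) * ((n - i : ℕ) : ℚ) := by
    exact_mod_cast h
  exact h'.symm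

/-- The event that no member occurs at levels in `(a, m]`. -/
lemma far_bound {F : Finset (Finset (Fin n))} (hF : Admissible F) {a m : ℕ} (ha : a ≤ m) (hm : m ≤ n)
    (h2 : 2 * (m - a) ≤ n - a) :
    xl F a ≤ 2 * Ex (fun σ => ind (¬ ∃ c, a < c ∧ c ≤ m ∧ pre σ c ∈ F)) := by
  have han : a ≤ n := ha.trans hm
  have h1 : xl F a = ∑ A ∈ lev F a, 1 / (n.choose a : ℚ) := by
    rw [xl_eq F han, sum_const, nsmul_eq_mul]; ring
  have h3 : ∑ A ∈ lev F a, Ex (fun σ => ind (pre σ a = A ∧ ¬ ∃ c, a < c ∧ c ≤ m ∧ pre σ c ∈ F)) ≤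
      Ex (fun σ => ind (¬ ∃ c, a < c ∧ c ≤ m ∧ pre σ c ∈ F)) := by
    rw [← Ex_split F han]
    exact Ex_mono fun σ => ind_mono fun h => h.2
  refine le_trans ?_ (mul_le_mul_of_nonneg_left h3 (by norm_num))
  rw [h1, mul_sum]
  apply sum_le_sum
  intro A hAl
  obtain ⟨hA, hc⟩ := mem_lev.1 hAl
  subst hc
  have e1 := H_le hF hA (D := m - A.card) h2
  have e2 : Ex (fun σ => ind (pre σ A.card = A ∧ ¬ ∃ c, A.card < c ∧ c ≤ m ∧ pre σ c ∈ F)) =
      1 / (n.choose A.card : ℚ) - H F A (m - A.card) := by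
    rw [← one_level A, H, ← Ex_sub]
    apply Ex_congr
    intro σ
    have hmm : A.card + (m - A.card) = m := by omega
    rw [hmm]
    by_cases h1 : pre σ A.card = A
    · by_cases h2 : ∃ c, A.card < c ∧ c ≤ m ∧ pre σ c ∈ F
      · rw [ind_not (fun h => h.2 h2), ind_of h1, ind_of ⟨h1, h2⟩, sub_self]
      · rw [ind_of ⟨h1, h2⟩, ind_of h1, ind_not (fun h => h2 h.2), sub_zero]
    · rw [ind_not (fun h => h1 h.1), ind_not h1, ind_not (fun h => h1 h.1), sub_zero]
  rw [e2]
  have p1 : (0 : ℚ) < (n.choose A.card : ℚ) := by exact_mod_cast Nat.choose_pos (card_le_n A)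
  have p2 : (((m - A.card : ℕ) : ℚ) / ((n - A.card : ℕ) : ℚ)) ≤ 1 / 2 := by
    rcases Nat.eq_zero_or_pos (n - A.card) with h | h
    · rw [h]; simp
    · have hp : (0 : ℚ) < ((n - A.card : ℕ) : ℚ) := by exact_mod_cast h
      rw [div_le_div_iff₀ hp (by norm_num)]
      have : (2 : ℚ) * ((m - A.card : ℕ) : ℚ) ≤ ((n - A.card : ℕ) : ℚ) := by exact_mod_cast h2
      linarith
  have p3 : 1 / (n.choose A.card : ℚ) * (((m - A.card : ℕ) : ℚ) / ((n - A.card : ℕ) : ℚ)) ≤
      1 / (n.choose A.card : ℚ) * (1 / 2) := mul_le_mul_of_nonneg_left p2 (by positivity)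
  linarith

/-- The probability that the prefix of size `k` is `B` and `y ∈ B` is not among the first `a`. -/
lemma late_prob (B : Finset (Fin n)) {y : Fin n} (hy : y ∈ B) {a : ℕ} (ha : a ≤ B.card) :
    Ex (fun σ => ind (pre σ B.card = B ∧ y ∉ pre σ a)) =
      ((B.card : ℚ) - a) / B.card * (1 / (n.choose B.card : ℚ)) := by
  classical
  have hBn := card_le_n B
  have hB0 : 0 < B.card := card_pos.2 ⟨y, hy⟩
  have h1 : ∀ σ : Perm (Fin n), ind (pre σ B.card = B ∧ y ∉ pre σ a) =
      ∑ S ∈ powersetCard a (B.erase y), ind (pre σ a = S ∧ pre σ B.card = B) := by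
    intro σ
    by_cases h : pre σ B.card = B ∧ y ∉ pre σ a
    · have hm : pre σ a ∈ powersetCard a (B.erase y) := by
        rw [mem_powersetCard]
        refine ⟨fun z hz => ?_, card_pre σ (ha.trans hBn)⟩
        rw [mem_erase]
        refine ⟨fun hzy => h.2 (hzy ▸ hz), ?_⟩
        rw [← h.1]
        exact pre_mono σ ha hz
      rw [ind_of h, sum_eq_single_of_mem _ hm, ind_of ⟨rfl, h.1⟩]
      intro S _ hS
      exact ind_not fun h' => hS h'.1.symm
    · rw [ind_not h]
      symm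
      apply sum_eq_zero
      intro S hS
      rw [mem_powersetCard] at hS
      refine ind_not fun h' => h ⟨h'.2, ?_⟩
      rw [h'.1]
      exact fun hyS => by simpa using hS.1 hyS
  rw [Ex_congr h1, Ex_sum]
  have h2 : ∀ S ∈ powersetCard a (B.erase y),
      Ex (fun σ : Perm (Fin n) => ind (pre σ a = S ∧ pre σ B.card = B)) =
      1 / ((n.choose a : ℚ) * ((n - a).choose (B.card - a) : ℚ)) := by
    intro S hS
    rw [mem_powersetCard] at hS
    have := two_level S B (hS.1.trans (erase_subset _ _))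
    rw [hS.2] at this
    exact this
  rw [sum_congr rfl h2, sum_const, card_powersetCard, card_erase_of_mem hy, nsmul_eq_mul]
  have h3 : n.choose B.card * B.card.choose a = n.choose a * (n - a).choose (B.card - a) :=
    Nat.choose_mul ha
  have h3' : (n.choose a : ℚ) * ((n - a).choose (B.card - a) : ℚ) =
      (n.choose B.card : ℚ) * (B.card.choose a : ℚ) := by exact_mod_cast h3.symm
  rw [h3']
  have p1 : (0 : ℚ) < (n.choose B.card : ℚ) := by exact_mod_cast Nat.choose_pos hBn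
  have p2 : (0 : ℚ) < (B.card.choose a : ℚ) := by exact_mod_cast Nat.choose_pos ha
  have p3 : (0 : ℚ) < (B.card : ℚ) := by exact_mod_cast hB0
  have h4 : ((B.card - 1).choose a : ℚ) * B.card = (B.card.choose a : ℚ) * (B.card - a) := by
    obtain ⟨b, hb⟩ : ∃ b, B.card = b + 1 := ⟨B.card - 1, by omega⟩
    rw [hb]
    rw [hb] at ha
    have h := Nat.choose_mul_succ_eq b a
    have c : ((b + 1 - a : ℕ) : ℚ) = (b : ℚ) + 1 - a := by
      have : b + 1 = (b + 1 - a) + a := by omega
      have h : (b : ℚ) + 1 = ((b + 1 - a : ℕ) : ℚ) + a := by exact_mod_cast this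
      linarith
    have h' : (b.choose a : ℚ) * ((b : ℚ) + 1) = ((b + 1).choose a : ℚ) * ((b + 1 - a : ℕ) : ℚ) := by
      exact_mod_cast h
    simp only [Nat.add_sub_cancel]
    push_cast
    rw [h', c]
  field_simp
  linarith

/-- The dual statement: `x ∉ B` is among the first `b`. -/
lemma early_prob (B : Finset (Fin n)) {x : Fin n} (hx : x ∉ B) {b : ℕ} (hb : B.card ≤ b) (hbn : b ≤ n) :
    Ex (fun σ => ind (pre σ B.card = B ∧ x ∈ pre σ b)) =
      ((b : ℚ) - B.card) / ((n : ℚ) - B.card) * (1 / (n.choose B.card : ℚ)) := by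
  have hBn := card_le_n B
  have hc : Bᶜ.card = n - B.card := by rw [card_compl, Fintype.card_fin]
  have hxc : x ∈ Bᶜ := by rwa [mem_compl]
  have h := late_prob Bᶜ hxc (a := n - b) (by omega)
  rw [hc] at h
  rw [← Ex_rev]
  have e : ∀ σ : Perm (Fin n), ind (pre (rev σ) B.card = B ∧ x ∈ pre (rev σ) b) =
      ind (pre σ (n - B.card) = Bᶜ ∧ x ∉ pre σ (n - b)) := by
    intro σ
    apply ind_congr
    rw [pre_rev σ hBn, pre_rev σ hbn, mem_compl]
    constructor
    · rintro ⟨h1, h2⟩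
      have h3 := congrArg compl h1
      rw [compl_compl] at h3
      exact ⟨h3, h2⟩
    · rintro ⟨h1, h2⟩
      exact ⟨by rw [h1, compl_compl], h2⟩
  rw [Ex_congr e, h]
  have c1 : ((n - B.card : ℕ) : ℚ) = (n : ℚ) - B.card := by
    have : n = (n - B.card) + B.card := by omega
    have h : (n : ℚ) = ((n - B.card : ℕ) : ℚ) + B.card := by exact_mod_cast this
    linarith
  have c2 : ((n - b : ℕ) : ℚ) = (n : ℚ) - b := by
    have : n = (n - b) + b := by omega
    have h : (n : ℚ) = ((n - b : ℕ) : ℚ) + b := by exact_mod_cast this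
    linarith
  rw [c1, c2, Nat.choose_symm hBn]
  congr 2
  ring

/-- Disjoint events. -/
lemma sum_ind_le (S : Finset (Finset (Fin n))) (k : ℕ) (R : Perm (Fin n) → Prop) :
    ∑ B ∈ S, Ex (fun σ => ind (pre σ k = B ∧ R σ)) ≤ Ex (fun σ => ind (R σ)) := by
  rw [← Ex_sum]
  apply Ex_mono
  intro σ
  by_cases hR : R σ
  · rw [ind_of hR]
    by_cases hS : pre σ k ∈ S
    · rw [sum_eq_single_of_mem _ hS]
      · exact ind_le_one _
      · intro B _ hB
        exact ind_not fun h => hB h.1.symm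
    · rw [sum_eq_zero]
      · norm_num
      · intro B hB
        exact ind_not fun h => hS (h.1 ▸ hB)
  · rw [ind_not hR]
    apply le_of_eq
    apply sum_eq_zero
    intro B _
    exact ind_not fun h => hR h.2

/-- The probability of missing the family on the near levels. -/
noncomputable def P0 (F : Finset (Finset (Fin n))) : ℚ := Ex (fun σ => ind (¬ (lvs F σ).Nonempty))

lemma P0_nonneg (F : Finset (Finset (Fin n))) : 0 ≤ P0 F := Ex_nonneg fun _ => ind_nonneg _

lemma Ex_nonempty (F : Finset (Finset (Fin n))) :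
    Ex (fun σ => ind (lvs F σ).Nonempty) = 1 - P0 F := by
  have : Ex (fun σ => ind (lvs F σ).Nonempty) + P0 F = 1 := by
    unfold P0
    rw [← Ex_add, ← Ex_const (n := n) 1]
    apply Ex_congr
    intro σ
    by_cases h : (lvs F σ).Nonempty
    · rw [ind_of h, ind_not (not_not.2 h), add_zero]
    · rw [ind_not h, ind_of h, zero_add]
  linarith

lemma lvs_rev_nonempty (F : Finset (Finset (Fin n))) (σ : Perm (Fin n)) :
    (lvs F (rev σ)).Nonempty ↔ (lvs (dual F) σ).Nonempty := by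
  constructor
  · rintro ⟨c, hc⟩
    rw [mem_lvs_rev] at hc
    exact ⟨_, hc.2⟩
  · rintro ⟨c, hc⟩
    have hcn : c ≤ n := by
      rw [mem_lvs] at hc
      omega
    exact ⟨n - c, mem_lvs_rev.2 ⟨by omega, by rwa [Nat.sub_sub_self hcn]⟩⟩

lemma P0_dual (F : Finset (Finset (Fin n))) : P0 (dual F) = P0 F := by
  unfold P0
  rw [← Ex_rev (fun σ => ind (¬ (lvs F σ).Nonempty))]
  apply Ex_congr
  intro σ
  rw [ind_congr (not_congr (lvs_rev_nonempty F σ))]

end Pool.Agent.Lib_MP_b87ef1_x77
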