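import Pool.Agent.Lib_MP_b87ef1_x77.Basic

/-!
Duality and the Erdos-Ko-Rado step.
-/

namespace Pool.Agent.Lib_MP_b87ef1_x77

open Finset Equiv

variable {n : ℕ}

/-- Reversal of an order. -/
def rev (σ : Perm (Fin n)) : Perm (Fin n) := σ.trans Fin.revPerm

lemma pre_rev (σ : Perm (Fin n)) {i : ℕ} (h : i ≤ n) : pre (rev σ) i = (pre σ (n - i))ᶜ := by
  ext x
  rw [mem_compl, mem_pre, mem_pre]
  have h1 : ((rev σ x : Fin n) : ℕ) = n - ((σ x : ℕ) + 1) := by
    simp [rev, Fin.rev]
  have h2 : (σ x : ℕ) < n := (σ x).2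
  rw [h1]
  omega

lemma rev_rev (σ : Perm (Fin n)) : rev (rev σ) = σ := by
  ext x
  simp [rev]

lemma Ex_rev (g : Perm (Fin n) → ℚ) : Ex (fun σ => g (rev σ)) = Ex g := by
  unfold Ex
  congr 1
  exact Equiv.sum_comp (⟨rev, rev, rev_rev, rev_rev⟩ : Perm (Fin n) ≃ Perm (Fin n)) g

/-- The family of complements. -/
def dual (F : Finset (Finset (Fin n))) : Finset (Finset (Fin n)) := univ.filter (fun A => Aᶜ ∈ F)

lemma mem_dual {F : Finset (Finset (Fin n))} {A : Finset (Fin n)} : A ∈ dual F ↔ Aᶜ ∈ F := by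
  simp [dual]

lemma dual_dual (F : Finset (Finset (Fin n))) : dual (dual F) = F := by
  ext A
  rw [mem_dual, mem_dual, compl_compl]

lemma card_dual (F : Finset (Finset (Fin n))) : (dual F).card = F.card := by
  apply card_bij (fun A _ => Aᶜ)
  · intro A hA; exact mem_dual.1 hA
  · intro A _ B _ h; exact compl_injective h
  · intro B hB; exact ⟨Bᶜ, by rw [mem_dual, compl_compl]; exact hB, compl_compl B⟩

lemma Admissible.dual {F : Finset (Finset (Fin n))} (hF : Admissible F) : Admissible (dual F) := by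
  intro A hA B hB C hC hAB hAC hBC
  rw [mem_dual] at hA hB hC
  have := hF _ hA _ hB _ hC (fun h => hAB (compl_injective h)) (fun h => hAC (compl_injective h))
    (fun h => hBC (compl_injective h))
  refine ⟨fun h => this.2 ?_, fun h => this.1 ?_⟩
  · rw [← compl_union, h]
  · rw [← compl_inter, h]

/-- The members of size `i`. -/
def lev (F : Finset (Finset (Fin n))) (i : ℕ) : Finset (Finset (Fin n)) :=
  F.filter (fun A => A.card = i)

lemma mem_lev {F : Finset (Finset (Fin n))} {i : ℕ} {A : Finset (Fin n)} :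
    A ∈ lev F i ↔ A ∈ F ∧ A.card = i := by simp [lev]

lemma card_le_n (A : Finset (Fin n)) : A.card ≤ n := by simpa using card_le_univ A

/-- The probability that the `i`-th prefix is a member. -/
noncomputable def xl (F : Finset (Finset (Fin n))) (i : ℕ) : ℚ := Ex (fun σ => ind (pre σ i ∈ F))

lemma xl_nonneg (F : Finset (Finset (Fin n))) (i : ℕ) : 0 ≤ xl F i :=
  Ex_nonneg fun _ => ind_nonneg _

/-- Splitting an event over the members of a level. -/
lemma ind_split (F : Finset (Finset (Fin n))) {i : ℕ} (hi : i ≤ n) (σ : Perm (Fin n)) (R : Prop) :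
    ind (pre σ i ∈ F ∧ R) = ∑ A ∈ lev F i, ind (pre σ i = A ∧ R) := by
  by_cases hR : R
  · by_cases hF : pre σ i ∈ F
    · have hm : pre σ i ∈ lev F i := mem_lev.2 ⟨hF, card_pre σ hi⟩
      rw [ind_of ⟨hF, hR⟩, sum_eq_single_of_mem _ hm, ind_of ⟨rfl, hR⟩]
      intro B _ hB
      exact ind_not fun h => hB h.1.symm
    · rw [ind_not fun h => hF h.1]
      symm
      apply sum_eq_zero
      intro A hA
      exact ind_not fun h => hF (h.1 ▸ (mem_lev.1 hA).1)
  · rw [ind_not fun h => hR h.2]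
    symm
    apply sum_eq_zero
    intro A hA
    exact ind_not fun h => hR h.2

lemma Ex_split (F : Finset (Finset (Fin n))) {i : ℕ} (hi : i ≤ n) (R : Perm (Fin n) → Prop) :
    Ex (fun σ => ind (pre σ i ∈ F ∧ R σ)) = ∑ A ∈ lev F i, Ex (fun σ => ind (pre σ i = A ∧ R σ)) := by
  rw [← Ex_sum]
  exact Ex_congr fun σ => ind_split F hi σ (R σ)

lemma xl_eq (F : Finset (Finset (Fin n))) {i : ℕ} (hi : i ≤ n) :
    xl F i = (lev F i).card / (n.choose i : ℚ) := by
  have h1 : xl F i = Ex (fun σ => ind (pre σ i ∈ F ∧ True)) :=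
    Ex_congr fun σ => ind_congr (by simp)
  rw [h1, Ex_split F hi]
  have : ∀ A ∈ lev F i, Ex (fun σ : Perm (Fin n) => ind (pre σ i = A ∧ True)) = 1 / (n.choose i : ℚ) := by
    intro A hA
    have hc := (mem_lev.1 hA).2
    rw [← hc, ← one_level A]
    exact Ex_congr fun σ => ind_congr (by simp)
  rw [sum_congr rfl this, sum_const, nsmul_eq_mul]
  ring

lemma card_lev (F : Finset (Finset (Fin n))) {i : ℕ} (hi : i ≤ n) :
    ((lev F i).card : ℚ) = (n.choose i : ℚ) * xl F i := by
  have p1 : (0 : ℚ) < (n.choose i : ℚ) := by exact_mod_cast Nat.choose_pos hi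
  rw [xl_eq F hi]
  field_simp

lemma pre_rev_mem {F : Finset (Finset (Fin n))} {σ : Perm (Fin n)} {i : ℕ} (hi : i ≤ n) :
    pre (rev σ) i ∈ dual F ↔ pre σ (n - i) ∈ F := by
  rw [mem_dual, pre_rev σ hi, compl_compl]

lemma xl_dual (F : Finset (Finset (Fin n))) {i : ℕ} (hi : i ≤ n) :
    xl (dual F) i = xl F (n - i) := by
  unfold xl
  rw [← Ex_rev]
  exact Ex_congr fun σ => ind_congr (pre_rev_mem hi)

/-- Erdos-Ko-Rado for sets containing `A`. -/
lemma ekr_mod (A : Finset (Fin n)) (G : Finset (Finset (Fin n))) (D : ℕ)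
    (h2 : 2 * D ≤ n - A.card) (hsub : ∀ C ∈ G, A ⊆ C ∧ C.card = A.card + D)
    (hint : ∀ C ∈ G, ∀ C' ∈ G, ∃ x, x ∈ C ∧ x ∈ C' ∧ x ∉ A) :
    G.card ≤ (n - A.card - 1).choose (D - 1) := by
  classical
  have hcard : Fintype.card {x : Fin n // x ∉ A} = n - A.card := by
    rw [Fintype.card_subtype]
    have : (univ.filter fun x => x ∉ A) = Aᶜ := by ext x; simp
    rw [this, card_compl, Fintype.card_fin]
  let e : {x : Fin n // x ∉ A} ≃ Fin (n - A.card) := Fintype.equivFinOfCardEq hcard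
  let φ : Finset (Fin n) → Finset (Fin (n - A.card)) :=
    fun C => univ.filter (fun j => ((e.symm j : {x : Fin n // x ∉ A}) : Fin n) ∈ C)
  have hφ : ∀ (C : Finset (Fin n)) (x : Fin n) (hx : x ∉ A), (e ⟨x, hx⟩ ∈ φ C ↔ x ∈ C) := by
    intro C x hx
    simp [φ]
  have hinj : Set.InjOn φ (G : Set (Finset (Fin n))) := by
    intro C hC C' hC' h
    ext x
    by_cases hx : x ∈ A
    · exact ⟨fun _ => (hsub C' hC').1 hx, fun _ => (hsub C hC).1 hx⟩
    · rw [← hφ C x hx, ← hφ C' x hx, h]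
  rw [← card_image_of_injOn hinj]
  apply erdos_ko_rado
  · intro s hs t ht hst
    rw [mem_coe, mem_image] at hs ht
    obtain ⟨C, hC, rfl⟩ := hs
    obtain ⟨C', hC', rfl⟩ := ht
    obtain ⟨x, h1, h2, h3⟩ := hint C hC C' hC'
    exact Finset.disjoint_left.1 hst ((hφ C x h3).2 h1) ((hφ C' x h3).2 h2)
  · intro s hs
    rw [mem_coe, mem_image] at hs
    obtain ⟨C, hC, rfl⟩ := hs
    have h3 : (C \ A).card = D := by
      rw [card_sdiff_of_subset (hsub C hC).1, (hsub C hC).2]; omega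
    rw [← h3]
    apply card_bij (fun j _ => ((e.symm j : {x : Fin n // x ∉ A}) : Fin n))
    · intro j hj
      simp only [φ, mem_filter, mem_univ, true_and] at hj
      rw [mem_sdiff]
      exact ⟨hj, (e.symm j).2⟩
    · intro j _ j' _ h
      exact e.symm.injective (Subtype.ext h)
    · intro x hx
      rw [mem_sdiff] at hx
      exact ⟨e ⟨x, hx.2⟩, (hφ C x hx.2).2 hx.1, by simp⟩
  · omega

/-- The probability that the prefix is `A` and some later prefix of size at most `#A + D` is a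
member. -/
noncomputable def H (F : Finset (Finset (Fin n))) (A : Finset (Fin n)) (D : ℕ) : ℚ :=
  Ex (fun σ => ind (pre σ A.card = A ∧ ∃ c, A.card < c ∧ c ≤ A.card + D ∧ pre σ c ∈ F))

lemma H_nonneg (F : Finset (Finset (Fin n))) (A : Finset (Fin n)) (D : ℕ) : 0 ≤ H F A D :=
  Ex_nonneg fun _ => ind_nonneg _

lemma H_zero (F : Finset (Finset (Fin n))) (A : Finset (Fin n)) : H F A 0 = 0 := by
  unfold H
  have : ∀ σ : Perm (Fin n), ind (pre σ A.card = A ∧ ∃ c, A.card < c ∧ c ≤ A.card + 0 ∧ pre σ c ∈ F) = 0 := by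
    intro σ
    apply ind_not
    rintro ⟨_, c, h1, h2, _⟩
    omega
  rw [Ex_congr this, Ex_const]

lemma choose_ratio {m D : ℕ} (hD : 1 ≤ D) (hm : D ≤ m) :
    ((m - 1).choose (D - 1) : ℚ) / (m.choose D : ℚ) = (D : ℚ) / m := by
  obtain ⟨m, rfl⟩ : ∃ m', m = m' + 1 := ⟨m - 1, by omega⟩
  obtain ⟨D, rfl⟩ : ∃ D', D = D' + 1 := ⟨D - 1, by omega⟩
  have h := Nat.add_one_mul_choose_eq m D
  have p1 : (0 : ℚ) < ((m + 1).choose (D + 1) : ℚ) := by exact_mod_cast Nat.choose_pos hm
  have h' : ((m : ℚ) + 1) * (m.choose D : ℚ) = ((m + 1).choose (D + 1) : ℚ) * (D + 1) := by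
    exact_mod_cast h
  simp only [Nat.add_sub_cancel]
  rw [div_eq_div_iff p1.ne' (by positivity)]
  push_cast
  linarith

/-- Union bound: the probability that the prefix is `A` and a later prefix lies in `G`. -/
lemma prob_family (A : Finset (Fin n)) (G : Finset (Finset (Fin n))) (D : ℕ)
    (hsub : ∀ C ∈ G, A ⊆ C ∧ C.card = A.card + D) :
    Ex (fun σ => ind (pre σ A.card = A ∧ pre σ (A.card + D) ∈ G)) =
      G.card / ((n.choose A.card : ℚ) * ((n - A.card).choose D : ℚ)) := by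
  by_cases hG : G = ∅
  · subst hG
    have : ∀ σ : Perm (Fin n), ind (pre σ A.card = A ∧ pre σ (A.card + D) ∈ (∅ : Finset (Finset (Fin n)))) = 0 := by
      intro σ
      exact ind_not (by simp)
    rw [Ex_congr this, Ex_const]
    simp
  · obtain ⟨C₀, hC₀⟩ := nonempty_iff_ne_empty.2 hG
    have hn : A.card + D ≤ n := by rw [← (hsub C₀ hC₀).2]; exact card_le_n C₀
    have h1 : ∀ σ : Perm (Fin n), ind (pre σ A.card = A ∧ pre σ (A.card + D) ∈ G) =
        ∑ C ∈ lev G (A.card + D), ind (pre σ (A.card + D) = C ∧ pre σ A.card = A) := by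
      intro σ
      rw [← ind_split G hn σ]
      exact ind_congr and_comm
    rw [Ex_congr h1, Ex_sum]
    have h2 : lev G (A.card + D) = G := by
      ext C
      rw [mem_lev]
      exact ⟨fun h => h.1, fun h => ⟨h, (hsub C h).2⟩⟩
    rw [h2]
    have h3 : ∀ C ∈ G, Ex (fun σ : Perm (Fin n) => ind (pre σ (A.card + D) = C ∧ pre σ A.card = A)) =
        1 / ((n.choose A.card : ℚ) * ((n - A.card).choose D : ℚ)) := by
      intro C hC
      have h4 := two_level A C (hsub C hC).1
      have h5 : C.card - A.card = D := by rw [(hsub C hC).2]; omega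
      rw [h5] at h4
      rw [← h4, (hsub C hC).2]
      exact Ex_congr fun σ => ind_congr and_comm
    rw [sum_congr rfl h3, sum_const, nsmul_eq_mul]
    ring

/-- The Erdos-Ko-Rado step. -/
lemma H_le {F : Finset (Finset (Fin n))} (hF : Admissible F) {A : Finset (Fin n)} (hA : A ∈ F)
    {D : ℕ} (h2 : 2 * D ≤ n - A.card) :
    H F A D ≤ 1 / (n.choose A.card : ℚ) * ((D : ℚ) / ((n - A.card : ℕ) : ℚ)) := by
  classical
  rcases Nat.eq_zero_or_pos D with rfl | hD
  · rw [H_zero]; simp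
  set G : Finset (Finset (Fin n)) := univ.filter
    (fun C => (A ⊆ C ∧ C.card = A.card + D) ∧ ∃ U ∈ F, A ⊂ U ∧ U ⊆ C) with hG
  have hsub : ∀ C ∈ G, A ⊆ C ∧ C.card = A.card + D := by
    intro C hC
    rw [hG, mem_filter] at hC
    exact hC.2.1
  have hn : A.card + D ≤ n := by omega
  have hcard : G.card ≤ (n - A.card - 1).choose (D - 1) := by
    apply ekr_mod A G D h2 hsub
    intro C hC C' hC'
    rw [hG, mem_filter] at hC hC'
    obtain ⟨-, ⟨h1, -⟩, U, hU, hAU, hUC⟩ := hC
    obtain ⟨-, ⟨h1', -⟩, U', hU', hAU', hUC'⟩ := hC'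
    by_contra hcon
    push Not at hcon
    have hint : U ∩ U' = A := by
      apply Finset.Subset.antisymm
      · intro x hx
        rw [mem_inter] at hx
        exact hcon x (hUC hx.1) (hUC' hx.2)
      · exact subset_inter hAU.1 hAU'.1
    by_cases hUU : U = U'
    · subst hUU
      rw [inter_self] at hint
      exact hAU.2 (by rw [hint])
    · exact (hF U hU U' hU' A hA hUU hAU.ne' hAU'.ne').2 hint
  have step : H F A D ≤ Ex (fun σ => ind (pre σ A.card = A ∧ pre σ (A.card + D) ∈ G)) := by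
    apply Ex_mono
    intro σ
    apply ind_mono
    rintro ⟨h1, c, hc1, hc2, hc3⟩
    refine ⟨h1, ?_⟩
    rw [hG, mem_filter]
    refine ⟨mem_univ _, ⟨?_, card_pre σ hn⟩, pre σ c, hc3, ?_, pre_mono σ hc2⟩
    · conv_lhs => rw [← h1]
      exact pre_mono σ (by omega)
    · rw [Finset.ssubset_iff_subset_ne]
      constructor
      · conv_lhs => rw [← h1]
        exact pre_mono σ hc1.le
      · intro h
        have := congrArg Finset.card h
        rw [card_pre σ (by omega)] at this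
        omega
  refine step.trans ?_
  rw [prob_family A G D hsub, ← choose_ratio hD (by omega)]
  have p1 : (0 : ℚ) < (n.choose A.card : ℚ) := by exact_mod_cast Nat.choose_pos (card_le_n A)
  have p2 : (0 : ℚ) < ((n - A.card).choose D : ℚ) := by exact_mod_cast Nat.choose_pos (by omega)
  rw [← mul_div_assoc, one_div_mul_eq_div, div_div]
  apply div_le_div_of_nonneg_right
  · exact_mod_cast hcard
  · positivity

end Pool.Agent.Lib_MP_b87ef1_x77
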