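import Pool.Agent.Lib_MP_b87ef1_x77.Common

/-!
The even case: near levels.
-/

namespace Pool.Agent.Lib_MP_b87ef1_x77

open Finset Equiv

variable {k : ℕ}

lemma v_km1 (hk : 1 ≤ k) : ((2 * k).choose (k - 1) : ℚ) =
    ((2 * k).choose k : ℚ) * (k / ((k : ℚ) + 1)) := by
  obtain ⟨j, rfl⟩ : ∃ j, k = j + 1 := ⟨k - 1, by omega⟩
  have h := choose_step (n := 2 * (j + 1)) (i := j) (by omega)
  rw [Nat.add_sub_cancel]
  push_cast at *
  have p : (0 : ℚ) < (j : ℚ) + 1 + 1 := by positivity
  rw [← mul_div_assoc, eq_div_iff p.ne']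
  rw [← h]
  ring

lemma half_two_mul : 2 * k / 2 = k := by omega

lemma Phi_low {F : Finset (Finset (Fin (2 * k)))} (hF : Admissible F) {i : ℕ}
    (h3 : 2 * k ≤ 3 * i) (hi : i + 2 ≤ k) :
    Phi F i ≤ - (xl F i / (8 * k)) := by
  unfold Phi
  have e1 := lowW_le hF h3 (by omega)
  have hk : (0 : ℚ) < k := by exact_mod_cast (by omega : 0 < k)
  have hik : (i : ℚ) + 2 ≤ k := by exact_mod_cast hi
  have hi3 : (2 : ℚ) * k ≤ 3 * i := by exact_mod_cast h3
  have hst := choose_step (n := 2 * k) (i := i) (by omega)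
  have hmono : (2 * k).choose (i + 1) ≤ (2 * k).choose (k - 1) :=
    choose_mono_half (by omega) (by omega)
  have hN := N_pos (n := 2 * k)
  rw [half_two_mul] at hN
  have hv : ((2 * k).choose (i + 1) : ℚ) / ((2 * k).choose k : ℚ) ≤ k / ((k : ℚ) + 1) := by
    rw [div_le_iff₀ hN, mul_comm (_ / _), ← v_km1 (by omega)]
    exact_mod_cast hmono
  set v := ((2 * k).choose (i + 1) : ℚ) / ((2 * k).choose k : ℚ) with hvdef
  have hpos : (0 : ℚ) < 2 * (k : ℚ) - i := by linarith
  have hcost : cost (2 * k) i = 1 - v * ((i : ℚ) + 1) / (2 * (k : ℚ) - i) := by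
    unfold cost
    rw [half_two_mul, hvdef]
    congr 1
    push_cast at hst
    rw [div_mul_eq_mul_div, ← hst]
    field_simp
  have hx := xl_nonneg F i
  push_cast at e1
  have hmain : (2 * (2 * (k : ℚ) - 2 * i) - 1) / (2 * (2 * (k : ℚ) - i)) - cost (2 * k) i ≤ - (1 / (8 * k)) := by
    rw [hcost]
    have hv2 : v * ((i : ℚ) + 1) ≤ (i : ℚ) + 1 / 3 := by
      have h1 : v * ((i : ℚ) + 1) ≤ k / ((k : ℚ) + 1) * ((i : ℚ) + 1) :=
        mul_le_mul_of_nonneg_right hv (by positivity)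
      have h2 : k / ((k : ℚ) + 1) * ((i : ℚ) + 1) ≤ (i : ℚ) + 1 / 3 := by
        rw [div_mul_eq_mul_div, div_le_iff₀ (by positivity)]
        nlinarith
      exact h1.trans h2
    have e : (2 * (2 * (k : ℚ) - 2 * i) - 1) / (2 * (2 * (k : ℚ) - i)) -
        (1 - v * ((i : ℚ) + 1) / (2 * (k : ℚ) - i)) =
        (v * ((i : ℚ) + 1) - i - 1 / 2) / (2 * (k : ℚ) - i) := by
      field_simp
      ring
    rw [e, div_le_iff₀ hpos]
    have h4 : (2 * (k : ℚ) - i) / (8 * k) ≤ 1 / 6 := by
      rw [div_le_div_iff₀ (by positivity) (by norm_num)]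
      linarith
    have h5 : -(1 / (8 * (k : ℚ))) * (2 * (k : ℚ) - i) = - ((2 * (k : ℚ) - i) / (8 * k)) := by ring
    rw [h5]
    linarith
  have h6 := mul_le_mul_of_nonneg_left hmain hx
  have h7 : xl F i / (8 * k) = xl F i * (1 / (8 * k)) := by ring
  rw [h7]
  linarith

/-- The lower ends of the consecutive triples. -/
def TT (F : Finset (Finset (Fin (2 * k)))) : Finset (Finset (Fin (2 * k))) :=
  (lev F (k - 1)).filter (fun A => ∃ x y, x ∉ A ∧ y ∉ A ∧ x ≠ y ∧ insert x A ∈ F ∧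
    insert y (insert x A) ∈ F)

lemma card_insert_eq {n : ℕ} {A C : Finset (Fin n)} (h : A ⊆ C) (hc : C.card = A.card + 1) :
    ∃ x, x ∉ A ∧ C = insert x A := by
  have h1 : (C \ A).card = 1 := by rw [card_sdiff_of_subset h, hc]; omega
  obtain ⟨x, hx⟩ := card_eq_one.1 h1
  have hx' : x ∈ C \ A := by rw [hx]; simp
  rw [mem_sdiff] at hx'
  refine ⟨x, hx'.2, ?_⟩
  have := sdiff_union_of_subset h
  rw [hx] at this
  rw [← this]
  rfl

/-- Extra members two above `A`. -/
lemma H_two {n : ℕ} (F : Finset (Finset (Fin n))) (A : Finset (Fin n)) (hn : A.card + 2 ≤ n) :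
    H F A 2 ≤ H F A 1 +
      ((F.filter (fun C => A ⊆ C ∧ C.card = A.card + 2)).card : ℚ) /
        ((n.choose A.card : ℚ) * ((n - A.card).choose 2 : ℚ)) := by
  rw [← prob_family A (F.filter (fun C => A ⊆ C ∧ C.card = A.card + 2)) 2
    (fun C hC => (mem_filter.1 hC).2)]
  unfold H
  rw [← Ex_add]
  apply Ex_mono
  intro σ
  by_cases h : pre σ A.card = A ∧ ∃ c, A.card < c ∧ c ≤ A.card + 2 ∧ pre σ c ∈ F
  · rw [ind_of h]
    obtain ⟨h1, c, h2, h3, h4⟩ := h
    have n1 := ind_nonneg (pre σ A.card = A ∧ ∃ c, A.card < c ∧ c ≤ A.card + 1 ∧ pre σ c ∈ F)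
    have n2 := ind_nonneg (pre σ A.card = A ∧ pre σ (A.card + 2) ∈ F.filter (fun C => A ⊆ C ∧ C.card = A.card + 2))
    rcases (by omega : c = A.card + 1 ∨ c = A.card + 2) with h5 | h5
    · have : ind (pre σ A.card = A ∧ ∃ c, A.card < c ∧ c ≤ A.card + 1 ∧ pre σ c ∈ F) = 1 :=
        ind_of ⟨h1, c, h2, by omega, h4⟩
      linarith
    · have : ind (pre σ A.card = A ∧ pre σ (A.card + 2) ∈ F.filter (fun C => A ⊆ C ∧ C.card = A.card + 2)) = 1 := by
        apply ind_of
        refine ⟨h1, ?_⟩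
        rw [mem_filter]
        subst h5
        refine ⟨h4, ?_, card_pre σ hn⟩
        conv_lhs => rw [← h1]
        exact pre_mono σ (by omega)
      linarith
  · rw [ind_not h]
    exact add_nonneg (ind_nonneg _) (ind_nonneg _)

/-- No member one above `A`. -/
lemma H_one_zero {n : ℕ} (F : Finset (Finset (Fin n))) (A : Finset (Fin n)) (hn : A.card + 1 ≤ n)
    (h : ∀ x, x ∉ A → insert x A ∉ F) : H F A 1 = 0 := by
  unfold H
  rw [← Ex_const (n := n) 0]
  apply Ex_congr
  intro σ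
  apply ind_not
  rintro ⟨h1, c, h2, h3, h4⟩
  have hc : c = A.card + 1 := by omega
  subst hc
  have hsub : A ⊆ pre σ (A.card + 1) := by
    conv_lhs => rw [← h1]
    exact pre_mono σ (by omega)
  obtain ⟨x, hx, hx'⟩ := card_insert_eq hsub (card_pre σ hn)
  exact h x hx (hx' ▸ h4)

lemma level_one {F : Finset (Finset (Fin (2 * k)))} (hF : Admissible F) (hk : 3 ≤ k)
    {A : Finset (Fin (2 * k))} (hA : A ∈ lev F (k - 1)) :
    1 / 2 * (H F A 1 + H F A 2) ≤ 1 / ((2 * k).choose (k - 1) : ℚ) *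
      (1 / ((k : ℚ) + 1) + if A ∈ TT F then 1 / ((k : ℚ) * (k + 1)) else 0) := by
  obtain ⟨hAF, hc⟩ := mem_lev.1 hA
  have hk0 : (0 : ℚ) < k := by exact_mod_cast (by omega : 0 < k)
  have p1 : (0 : ℚ) < ((2 * k).choose (k - 1) : ℚ) := by
    exact_mod_cast Nat.choose_pos (by omega : k - 1 ≤ 2 * k)
  have hsub : 2 * k - A.card = k + 1 := by omega
  have hT : 0 ≤ (if A ∈ TT F then 1 / ((k : ℚ) * (k + 1)) else 0) := by
    split_ifs <;> positivity
  have e1 := H_le hF hAF (D := 1) (by omega)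
  have e2 := H_le hF hAF (D := 2) (by omega)
  rw [hsub, hc] at e1 e2
  push_cast at e1 e2
  by_cases h : ∃ x, x ∉ A ∧ insert x A ∈ F
  · obtain ⟨x, hx, hxF⟩ := h
    have e3 := H_two F A (by omega)
    set G := F.filter (fun C => A ⊆ C ∧ C.card = A.card + 2) with hG
    rw [hsub, hc] at e3
    have hcB : (insert x A).card = A.card + 1 := card_insert_of_notMem hx
    have hmem : ∀ C ∈ G, insert x A ⊆ C := by
      intro C hC
      rw [hG, mem_filter] at hC
      by_contra hcon
      have hxC : x ∉ C := by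
        intro hxC
        exact hcon (insert_subset hxC hC.2.1)
      have hne : insert x A ≠ C := fun h => by rw [← h] at hC; omega
      apply (hF (insert x A) hxF C hC.1 A hAF hne
        (fun h => by rw [h] at hcB; omega) (fun h => by have := hC.2.2; rw [h] at this; omega)).2
      ext z
      rw [mem_inter, mem_insert]
      constructor
      · rintro ⟨h1 | h1, h2⟩
        · subst h1; exact absurd h2 hxC
        · exact h1
      · intro h1; exact ⟨Or.inr h1, hC.2.1 h1⟩
    have hG1 : G.card ≤ 1 := by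
      rw [card_le_one]
      intro C hC C' hC'
      by_contra hne
      have m1 := hmem C hC
      have m2 := hmem C' hC'
      rw [hG, mem_filter] at hC hC'
      apply (hF C hC.1 C' hC'.1 (insert x A) hxF hne
        (fun h => by rw [h] at hC; omega) (fun h => by rw [h] at hC'; omega)).2
      symm
      apply eq_of_subset_of_card_le (subset_inter m1 m2)
      have h1 : (C ∩ C').card < C.card := by
        apply card_lt_card
        refine ⟨inter_subset_left, fun h => hne ?_⟩
        apply eq_of_subset_of_card_le (h.trans inter_subset_right)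
        omega
      omega
    have hGT : (G.card : ℚ) ≤ if A ∈ TT F then 1 else 0 := by
      split_ifs with hT
      · exact_mod_cast hG1
      · have : G.card = 0 := by
          rw [card_eq_zero, eq_empty_iff_forall_notMem]
          intro C hC
          apply hT
          have m1 := hmem C hC
          rw [hG, mem_filter] at hC
          obtain ⟨y, hy, hy'⟩ := card_insert_eq m1 (by omega)
          rw [TT, mem_filter]
          rw [mem_insert, not_or] at hy
          exact ⟨hA, x, y, hx, hy.2, fun h => hy.1 h.symm, hxF, hy' ▸ hC.1⟩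
        rw [this]; simp
    have hch : ((k + 1).choose 2 : ℚ) = (k : ℚ) * (k + 1) / 2 := by
      rw [Nat.cast_choose_two]
      push_cast
      ring
    rw [hch] at e3
    have e4 : (G.card : ℚ) / (((2 * k).choose (k - 1) : ℚ) * ((k : ℚ) * (k + 1) / 2)) ≤
        2 * (1 / ((2 * k).choose (k - 1) : ℚ) * (if A ∈ TT F then 1 / ((k : ℚ) * (k + 1)) else 0)) := by
      have : (2 : ℚ) * (1 / ((2 * k).choose (k - 1) : ℚ) * (if A ∈ TT F then 1 / ((k : ℚ) * (k + 1)) else 0)) =
          (if A ∈ TT F then 1 else 0) / (((2 * k).choose (k - 1) : ℚ) * ((k : ℚ) * (k + 1) / 2)) := by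
        split_ifs
        · field_simp
        · simp
      rw [this]
      apply div_le_div_of_nonneg_right hGT
      positivity
    have e5 := mul_add (1 / ((2 * k).choose (k - 1) : ℚ)) (1 / ((k : ℚ) + 1))
      (if A ∈ TT F then 1 / ((k : ℚ) * (k + 1)) else 0)
    rw [e5]
    linarith
  · push Not at h
    have e3 := H_one_zero F A (by omega) h
    rw [e3]
    have : 0 ≤ 1 / ((2 * k).choose (k - 1) : ℚ) * (if A ∈ TT F then 1 / ((k : ℚ) * (k + 1)) else 0) := by
      positivity
    have e5 := mul_add (1 / ((2 * k).choose (k - 1) : ℚ)) (1 / ((k : ℚ) + 1))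
      (if A ∈ TT F then 1 / ((k : ℚ) * (k + 1)) else 0)
    rw [e5]
    have e4 : 1 / ((2 * k).choose (k - 1) : ℚ) * (2 / ((k : ℚ) + 1)) = 2 * (1 / ((2 * k).choose (k - 1) : ℚ) * (1 / ((k : ℚ) + 1))) := by
      ring
    linarith

lemma Phi_one {F : Finset (Finset (Fin (2 * k)))} (hF : Admissible F) (hk : 3 ≤ k) :
    Phi F (k - 1) ≤ (TT F).card / ((k : ℚ) ^ 2 * ((2 * k).choose k : ℚ)) := by
  have hk0 : (0 : ℚ) < k := by exact_mod_cast (by omega : 0 < k)
  have hN : (0 : ℚ) < ((2 * k).choose k : ℚ) := by exact_mod_cast Nat.choose_pos (by omega)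
  have p1 : (0 : ℚ) < ((2 * k).choose (k - 1) : ℚ) := by
    exact_mod_cast Nat.choose_pos (by omega : k - 1 ≤ 2 * k)
  have hcost : cost (2 * k) (k - 1) = 1 / ((k : ℚ) + 1) := by
    unfold cost
    rw [half_two_mul, v_km1 (by omega)]
    field_simp
    ring
  have hW : lowW F (k - 1) ≤ ∑ A ∈ lev F (k - 1), (1 / ((2 * k).choose (k - 1) : ℚ) *
      (1 / ((k : ℚ) + 1) + if A ∈ TT F then 1 / ((k : ℚ) * (k + 1)) else 0)) := by
    unfold lowW
    have a1 : 2 * k - 2 * (k - 1) - 1 = 1 := by omega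
    have a2 : 2 * k - 2 * (k - 1) = 2 := by omega
    rw [a1, a2, mul_sum]
    exact sum_le_sum fun A hA => level_one hF hk hA
  have hfil : (lev F (k - 1)).filter (fun A => A ∈ TT F) = TT F := by
    ext A
    rw [mem_filter]
    exact ⟨fun h => h.2, fun h => ⟨(mem_filter.1 h).1, h⟩⟩
  have hS : ∑ A ∈ lev F (k - 1), (1 / ((2 * k).choose (k - 1) : ℚ) *
      (1 / ((k : ℚ) + 1) + if A ∈ TT F then 1 / ((k : ℚ) * (k + 1)) else 0)) =
      1 / ((k : ℚ) + 1) * xl F (k - 1) + (TT F).card / ((k : ℚ) ^ 2 * ((2 * k).choose k : ℚ)) := by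
    rw [← mul_sum, sum_add_distrib, ← sum_filter, hfil, sum_const, sum_const, nsmul_eq_mul,
      nsmul_eq_mul, mul_add, xl_eq F (by omega)]
    congr 1
    · field_simp
    · rw [v_km1 (by omega)]
      field_simp
  unfold Phi
  rw [hcost]
  linarith

end Pool.Agent.Lib_MP_b87ef1_x77
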