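import Pool.Agent.Lib_MP_b87ef1_x77.Even

/-!
The even case: compensation, far levels.
-/

namespace Pool.Agent.Lib_MP_b87ef1_x77

open Finset Equiv

variable {k : ℕ}

lemma TT_card_le {F : Finset (Finset (Fin (2 * k)))} (hF : Admissible F) (hk : 3 ≤ k) :
    ((TT F).card : ℚ) * (1 / (3 * ((2 * k).choose k : ℚ))) ≤ P0 F := by
  classical
  have hk0 : (0 : ℚ) < k := by exact_mod_cast (by omega : 0 < k)
  have hN : (0 : ℚ) < ((2 * k).choose k : ℚ) := by exact_mod_cast Nat.choose_pos (by omega)
  -- the relation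
  let r : Finset (Fin (2 * k)) → Finset (Fin (2 * k)) → Prop := fun A B' =>
    A ∈ F ∧ A.card = k - 1 ∧ ∃ x y, x ∉ A ∧ y ∉ A ∧ x ≠ y ∧ insert x A ∈ F ∧
      insert y (insert x A) ∈ F ∧ B' = insert y A
  have r1 : ∀ A B', r A B' → B'.card = k := by
    rintro A B' ⟨hA, hc, x, y, hx, hy, hxy, hB, hC, rfl⟩
    rw [card_insert_of_notMem hy]; omega
  have r2 : ∀ A B', r A B' → B' ∉ F := by
    rintro A B' ⟨hA, hc, x, y, hx, hy, hxy, hB, hC, rfl⟩ hB'
    have hc1 := card_insert_of_notMem hx
    have hc2 := card_insert_of_notMem hy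
    apply (hF _ hB _ hB' A hA ?_ ?_ ?_).2
    · ext z
      rw [mem_inter, mem_insert, mem_insert]
      constructor
      · rintro ⟨h1 | h1, h2 | h2⟩
        · exact absurd (h1.symm.trans h2) hxy
        · exact h2
        · exact h1
        · exact h1
      · intro h; exact ⟨Or.inr h, Or.inr h⟩
    · intro h
      have : x ∈ insert y A := by rw [← h]; exact mem_insert_self _ _
      rw [mem_insert] at this
      exact this.elim hxy hx
    · intro h; rw [h] at hc1; omega
    · intro h; rw [h] at hc2; omega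
  -- members below
  have r3 : ∀ A x y, A ∈ F → x ∉ A → y ∉ A → x ≠ y → insert x A ∈ F →
      insert y (insert x A) ∈ F → ∀ G ∈ F, G ⊂ insert y A → y ∉ G := by
    intro A x y hA hx hy hxy hB hC G hG hGs hyG
    have hc1 := card_insert_of_notMem hx
    have hc2 := card_insert_of_notMem hy
    have hyx : y ∉ insert x A := by
      rw [mem_insert, not_or]; exact ⟨fun h => hxy h.symm, hy⟩
    have hc3 := card_insert_of_notMem hyx
    have hc4 := card_lt_card hGs
    apply (hF G hG _ hB _ hC ?_ ?_ ?_).1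
    · ext z
      rw [mem_union, mem_insert, mem_insert, mem_insert]
      constructor
      · rintro (h | h | h)
        · have := hGs.1 h
          rw [mem_insert] at this
          rcases this with h | h
          · exact Or.inl h
          · exact Or.inr (Or.inr h)
        · exact Or.inr (Or.inl h)
        · exact Or.inr (Or.inr h)
      · rintro (h | h | h)
        · left; rw [h]; exact hyG
        · exact Or.inr (Or.inl h)
        · exact Or.inr (Or.inr h)
    · intro h; rw [h] at hyG; exact hyx hyG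
    · intro h; rw [h] at hc4; omega
    · intro h; rw [← h] at hc3; omega
  have r4 : ∀ A x y, A ∈ F → x ∉ A → y ∉ A → x ≠ y → insert x A ∈ F →
      insert y (insert x A) ∈ F → ∀ G ∈ F, insert y A ⊂ G → x ∈ G := by
    intro A x y hA hx hy hxy hB hC G hG hGs
    by_contra hxG
    have hc1 := card_insert_of_notMem hx
    have hc2 := card_insert_of_notMem hy
    have hc4 := card_lt_card hGs
    apply (hF G hG _ hB A hA ?_ ?_ ?_).2
    · ext z
      rw [mem_inter, mem_insert]
      constructor
      · rintro ⟨h1, h2 | h2⟩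
        · rw [h2] at h1; exact absurd h1 hxG
        · exact h2
      · intro h; exact ⟨hGs.1 (mem_insert_of_mem h), Or.inr h⟩
    · intro h; rw [h] at hxG; exact hxG (mem_insert_self _ _)
    · intro h; rw [h] at hc4; omega
    · intro h; rw [h] at hc1; omega
  set S : Finset (Finset (Fin (2 * k))) := univ.filter (fun B' => ∃ A, r A B') with hS
  have hcard : (TT F).card ≤ S.card := by
    apply Finset.card_le_card_of_forall_subsingleton r
    · intro A hA
      rw [TT, mem_filter, mem_lev] at hA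
      obtain ⟨⟨hA, hc⟩, x, y, hx, hy, hxy, hB, hC⟩ := hA
      have hr : r A (insert y A) := ⟨hA, hc, x, y, hx, hy, hxy, hB, hC, rfl⟩
      exact ⟨insert y A, by rw [hS, mem_filter]; exact ⟨mem_univ _, A, hr⟩, hr⟩
    · intro B' _ A hA A2 hA2
      obtain ⟨-, hA, hc, x, y, hx, hy, hxy, hB, hC, hBA⟩ := hA
      obtain ⟨-, hA2, hc2, x2, y2, hx2, hy2, hxy2, hB2, hC2, hBA2⟩ := hA2
      have hss : A2 ⊂ insert y A := by
        rw [← hBA, hBA2]
        exact ssubset_insert hy2
      have hy' := r3 A x y hA hx hy hxy hB hC A2 hA2 hss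
      symm
      apply eq_of_subset_of_card_le
      · intro z hz
        have := hss.1 hz
        rw [mem_insert] at this
        rcases this with h | h
        · rw [h] at hz; exact absurd hz hy'
        · exact h
      · omega
  have hprob : ∀ B' ∈ S, 1 / (3 * ((2 * k).choose k : ℚ)) ≤
      Ex (fun σ => ind (pre σ k = B' ∧ ¬ (lvs F σ).Nonempty)) := by
    intro B' hB'
    rw [hS, mem_filter] at hB'
    obtain ⟨-, A, hr⟩ := hB'
    have hBc := r1 A B' hr
    have hBF := r2 A B' hr
    obtain ⟨hA, hc, x, y, hx, hy, hxy, hB, hC, hBA⟩ := hr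
    have below := r3 A x y hA hx hy hxy hB hC
    have above := r4 A x y hA hx hy hxy hB hC
    rw [← hBA] at below above
    have hyB : y ∈ B' := by rw [hBA]; exact mem_insert_self _ _
    have hxB : x ∉ B' := by
      rw [hBA, mem_insert, not_or]; exact ⟨hxy, hx⟩
    obtain ⟨a, ha1, ha2⟩ : ∃ a, 2 * k ≤ 3 * a ∧ 3 * a ≤ 2 * k + 2 := ⟨(2 * k + 2) / 3, by omega, by omega⟩
    have e1 := late_prob B' hyB (a := a) (by omega)
    have e2 := early_prob B' hxB (b := 2 * k - a) (by omega) (by omega)
    have e3 := one_level B'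
    rw [hBc] at e1 e2 e3
    have hpt : Ex (fun σ => ind (pre σ k = B')) - Ex (fun σ => ind (pre σ k = B' ∧ y ∉ pre σ a)) -
        Ex (fun σ => ind (pre σ k = B' ∧ x ∈ pre σ (2 * k - a))) ≤
        Ex (fun σ => ind (pre σ k = B' ∧ ¬ (lvs F σ).Nonempty)) := by
      rw [← Ex_sub, ← Ex_sub]
      apply Ex_mono
      intro σ
      have n1 := ind_nonneg (pre σ k = B' ∧ y ∉ pre σ a)
      have n2 := ind_nonneg (pre σ k = B' ∧ x ∈ pre σ (2 * k - a))
      have n3 := ind_nonneg (pre σ k = B' ∧ ¬ (lvs F σ).Nonempty)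
      by_cases h1 : pre σ k = B'
      · by_cases h2 : y ∈ pre σ a
        · by_cases h3 : x ∈ pre σ (2 * k - a)
          · rw [ind_of h1, ind_of (⟨h1, h3⟩ : pre σ k = B' ∧ x ∈ pre σ (2 * k - a))]
            linarith
          · have h4 : ¬ (lvs F σ).Nonempty := by
              rintro ⟨c, hc'⟩
              rw [mem_lvs] at hc'
              obtain ⟨⟨c1, c2⟩, c3⟩ := hc'
              have hcc := card_pre σ (by omega : c ≤ 2 * k)
              rcases lt_trichotomy c k with h | h | h
              · have hss : pre σ c ⊂ B' := by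
                  rw [Finset.ssubset_iff_subset_ne]
                  refine ⟨by rw [← h1]; exact pre_mono σ h.le, fun h' => ?_⟩
                  rw [h', hBc] at hcc; omega
                exact below _ c3 hss (pre_mono σ (by omega) h2)
              · rw [h, h1] at c3; exact hBF c3
              · have hss : B' ⊂ pre σ c := by
                  rw [Finset.ssubset_iff_subset_ne]
                  refine ⟨by rw [← h1]; exact pre_mono σ h.le, fun h' => ?_⟩
                  rw [← h', hBc] at hcc; omega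
                exact h3 (pre_mono σ (by omega) (above _ c3 hss))
            rw [ind_of h1, ind_of (⟨h1, h4⟩ : pre σ k = B' ∧ ¬ (lvs F σ).Nonempty)]
            linarith
        · rw [ind_of h1, ind_of (⟨h1, h2⟩ : pre σ k = B' ∧ y ∉ pre σ a)]
          linarith
      · rw [ind_not h1]
        linarith
    refine le_trans ?_ hpt
    rw [e1, e2, e3]
    have ca : (2 : ℚ) * k ≤ 3 * a := by exact_mod_cast ha1
    have c1 : ((2 * k - a : ℕ) : ℚ) = 2 * (k : ℚ) - a := by
      have : 2 * k = (2 * k - a) + a := by omega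
      have h : (2 : ℚ) * k = ((2 * k - a : ℕ) : ℚ) + a := by exact_mod_cast this
      linarith
    rw [c1]
    have e : (1 : ℚ) / ((2 * k).choose k : ℚ) - ((k : ℚ) - a) / k * (1 / ((2 * k).choose k : ℚ)) -
        (2 * (k : ℚ) - a - k) / (((2 * k : ℕ) : ℚ) - k) * (1 / ((2 * k).choose k : ℚ)) -
        1 / (3 * ((2 * k).choose k : ℚ)) = (2 * a - 4 / 3 * k) / (k * ((2 * k).choose k : ℚ)) := by
      push_cast
      have : (2 * (k : ℚ) - k) = k := by ring
      rw [this]
      field_simp
      ring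
    have e' : (0 : ℚ) ≤ (2 * a - 4 / 3 * k) / (k * ((2 * k).choose k : ℚ)) := by
      apply div_nonneg
      · linarith
      · positivity
    linarith
  calc ((TT F).card : ℚ) * (1 / (3 * ((2 * k).choose k : ℚ)))
      ≤ (S.card : ℚ) * (1 / (3 * ((2 * k).choose k : ℚ))) := by
        apply mul_le_mul_of_nonneg_right _ (by positivity)
        exact_mod_cast hcard
    _ = ∑ B' ∈ S, 1 / (3 * ((2 * k).choose k : ℚ)) := by rw [sum_const, nsmul_eq_mul]
    _ ≤ ∑ B' ∈ S, Ex (fun σ => ind (pre σ k = B' ∧ ¬ (lvs F σ).Nonempty)) := sum_le_sum hprob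
    _ ≤ P0 F := sum_ind_le S k (fun σ => ¬ (lvs F σ).Nonempty)

/-- The levels at distance at least two below the middle. -/
def NK (k : ℕ) : Finset ℕ := (NL (2 * k)).filter (fun i => i + 2 ≤ k)

lemma mem_NK {i : ℕ} : i ∈ NK k ↔ 2 * k ≤ 3 * i ∧ i + 2 ≤ k := by
  rw [NK, mem_filter, mem_NL]
  omega

/-- The defect quantity. -/
noncomputable def Q (F : Finset (Finset (Fin (2 * k)))) : ℚ :=
  P0 F + ∑ i ∈ NK k, (xl F i + xl (dual F) i)

lemma Q_nonneg (F : Finset (Finset (Fin (2 * k)))) : 0 ≤ Q F := by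
  unfold Q
  exact add_nonneg (P0_nonneg F) (sum_nonneg fun i _ => add_nonneg (xl_nonneg F i) (xl_nonneg _ i))

lemma Q_dual (F : Finset (Finset (Fin (2 * k)))) : Q (dual F) = Q F := by
  unfold Q
  rw [P0_dual, dual_dual]
  congr 1
  exact sum_congr rfl fun i _ => add_comm _ _

lemma P0_le_Q (F : Finset (Finset (Fin (2 * k)))) : P0 F ≤ Q F := by
  unfold Q
  have : 0 ≤ ∑ i ∈ NK k, (xl F i + xl (dual F) i) :=
    sum_nonneg fun i _ => add_nonneg (xl_nonneg F i) (xl_nonneg _ i)
  linarith

lemma near_bound {F : Finset (Finset (Fin (2 * k)))} (hF : Admissible F) (hk : 3 ≤ k) :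
    ((∑ i ∈ NS (2 * k), (lev F i).card : ℕ) : ℚ) ≤
      ((2 * k).choose k : ℚ) * (1 - Q F / (8 * k)) := by
  have hk0 : (0 : ℚ) < k := by exact_mod_cast (by omega : 0 < k)
  have hk3 : (3 : ℚ) ≤ k := by exact_mod_cast hk
  have hN : (0 : ℚ) < ((2 * k).choose k : ℚ) := by exact_mod_cast Nat.choose_pos (by omega)
  have h := main2 F
  rw [half_two_mul, Ex_nonempty] at h
  refine h.trans (mul_le_mul_of_nonneg_left ?_ hN.le)
  have hsplit : NL (2 * k) = insert (k - 1) (NK k) := by
    ext i
    rw [mem_insert, mem_NL, mem_NK]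
    omega
  have hnot : k - 1 ∉ NK k := by rw [mem_NK]; omega
  rw [hsplit, sum_insert hnot]
  have h1 : ∑ i ∈ NK k, (Phi F i + Phi (dual F) i) ≤
      - ((∑ i ∈ NK k, (xl F i + xl (dual F) i)) / (8 * k)) := by
    rw [sum_div, ← sum_neg_distrib]
    apply sum_le_sum
    intro i hi
    rw [mem_NK] at hi
    have a1 := Phi_low hF hi.1 hi.2
    have a2 := Phi_low hF.dual hi.1 hi.2
    rw [add_div]
    linarith
  have h2 : ∀ G : Finset (Finset (Fin (2 * k))), Admissible G → P0 G = P0 F →
      Phi G (k - 1) ≤ 3 * P0 F / (k : ℚ) ^ 2 := by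
    intro G hG hGP
    refine (Phi_one hG hk).trans ?_
    have := TT_card_le hG hk
    rw [hGP] at this
    have e : ((TT G).card : ℚ) / ((k : ℚ) ^ 2 * ((2 * k).choose k : ℚ)) =
        3 / (k : ℚ) ^ 2 * (((TT G).card : ℚ) * (1 / (3 * ((2 * k).choose k : ℚ)))) := by
      field_simp
    rw [e]
    have e' : 3 * P0 F / (k : ℚ) ^ 2 = 3 / (k : ℚ) ^ 2 * P0 F := by ring
    rw [e']
    exact mul_le_mul_of_nonneg_left this (by positivity)
  have h3 := h2 F hF rfl
  have h4 := h2 (dual F) hF.dual (P0_dual F)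
  have h5 : 3 * P0 F / (k : ℚ) ^ 2 ≤ P0 F / 3 := by
    rw [div_le_div_iff₀ (by positivity) (by norm_num)]
    have hk9 : (9 : ℚ) ≤ (k : ℚ) ^ 2 := by nlinarith
    have := mul_le_mul_of_nonneg_left hk9 (P0_nonneg F)
    linarith
  have h6 : P0 F / (8 * k) ≤ P0 F / 3 := by
    apply div_le_div_of_nonneg_left (P0_nonneg F) (by norm_num)
    linarith
  unfold Q
  rw [add_div]
  linarith

/-- Events without near members on levels up to `k + 1`. -/
lemma le_Q (F : Finset (Finset (Fin (2 * k)))) (R : Perm (Fin (2 * k)) → Prop)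
    (hR : ∀ σ, R σ → ∀ c, 2 * k ≤ 3 * c → c ≤ k + 1 → pre σ c ∉ F) :
    Ex (fun σ => ind (R σ)) ≤ Q F := by
  have h1 : Ex (fun σ => ind (R σ)) ≤ P0 F + ∑ i ∈ NK k, xl (dual F) i := by
    have : ∑ i ∈ NK k, xl (dual F) i = ∑ i ∈ NK k, xl F (2 * k - i) :=
      sum_congr rfl fun i hi => xl_dual F (by rw [mem_NK] at hi; omega)
    rw [this]
    unfold P0 xl
    rw [← Ex_sum, ← Ex_add]
    apply Ex_mono
    intro σ
    have hs : 0 ≤ ∑ i ∈ NK k, ind (pre σ (2 * k - i) ∈ F) := sum_nonneg fun i _ => ind_nonneg _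
    by_cases hRσ : R σ
    · by_cases hne : (lvs F σ).Nonempty
      · obtain ⟨c, hc⟩ := hne
        rw [mem_lvs] at hc
        have hck : k + 2 ≤ c := by
          by_contra hcon
          exact hR σ hRσ c hc.1.1 (by omega) hc.2
        have hm : 2 * k - c ∈ NK k := by rw [mem_NK]; omega
        have h2 := single_le_sum (f := fun i => ind (pre σ (2 * k - i) ∈ F))
          (fun i _ => ind_nonneg _) hm
        rw [Nat.sub_sub_self (by omega : c ≤ 2 * k), ind_of hc.2] at h2
        have := ind_nonneg (¬ (lvs F σ).Nonempty)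
        have := ind_le_one (R σ)
        linarith
      · rw [ind_of hne]
        have := ind_le_one (R σ)
        linarith
    · rw [ind_not hRσ]
      have := ind_nonneg (¬ (lvs F σ).Nonempty)
      linarith
  refine h1.trans ?_
  unfold Q
  have : ∑ i ∈ NK k, xl (dual F) i ≤ ∑ i ∈ NK k, (xl F i + xl (dual F) i) :=
    sum_le_sum fun i _ => by have := xl_nonneg F i; linarith
  linarith

lemma far_even {F : Finset (Finset (Fin (2 * k)))} (hF : Admissible F) {a : ℕ} (ha : 2 ≤ a)
    (h3 : 3 * a < 2 * k) : xl F a ≤ 2 * Q F := by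
  refine (far_bound hF (a := a) (m := k + 1) (by omega) (by omega) (by omega)).trans ?_
  apply mul_le_mul_of_nonneg_left _ (by norm_num)
  apply le_Q
  intro σ h c h1 h2 h4
  exact h ⟨c, by omega, h2, h4⟩

end Pool.Agent.Lib_MP_b87ef1_x77
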