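import Pool.Agent.Lib_MP_b87ef1_x77.Even2

/-!
The even case: families containing two singletons.
-/

namespace Pool.Agent.Lib_MP_b87ef1_x77

open Finset Equiv

variable {k : ℕ}

lemma two_choose_half (hk : 1 ≤ k) : 2 * ((2 * k - 1).choose k : ℚ) = ((2 * k).choose k : ℚ) := by
  have h := Nat.choose_mul_succ_eq (2 * k - 1) k
  have e : 2 * k - 1 + 1 = 2 * k := by omega
  have e2 : 2 * k - k = k := by omega
  rw [e, e2] at h
  have h' : ((2 * k - 1).choose k : ℚ) * (2 * k) = ((2 * k).choose k : ℚ) * k := by exact_mod_cast h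
  have hk0 : (0 : ℚ) < k := by exact_mod_cast (by omega : 0 < k)
  have : (k : ℚ) * (2 * ((2 * k - 1).choose k : ℚ)) = k * ((2 * k).choose k : ℚ) := by linarith
  exact mul_left_cancel₀ hk0.ne' this

lemma two_choose_half' (hk : 1 ≤ k) :
    2 * ((2 * k - 1).choose (k - 1) : ℚ) = ((2 * k).choose k : ℚ) := by
  rw [← two_choose_half hk]
  congr 2
  rw [← Nat.choose_symm (by omega : k ≤ 2 * k - 1)]
  congr 1
  omega

lemma choose_km2 (hk : 3 ≤ k) :
    ((2 * k).choose k : ℚ) ≤ 4 * ((2 * k - 1).choose (k - 2) : ℚ) := by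
  have h := choose_step (n := 2 * k - 1) (i := k - 2) (by omega)
  have e : k - 2 + 1 = k - 1 := by omega
  rw [e] at h
  have c1 : ((2 * k - 1 : ℕ) : ℚ) = 2 * (k : ℚ) - 1 := by
    have : 2 * k = (2 * k - 1) + 1 := by omega
    have h : (2 : ℚ) * k = ((2 * k - 1 : ℕ) : ℚ) + 1 := by exact_mod_cast this
    linarith
  have c2 : ((k - 2 : ℕ) : ℚ) = (k : ℚ) - 2 := by
    have : k = (k - 2) + 2 := by omega
    have h : (k : ℚ) = ((k - 2 : ℕ) : ℚ) + 2 := by exact_mod_cast this
    linarith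
  rw [c1, c2] at h
  have hN := two_choose_half' (k := k) (by omega)
  have hk3 : (3 : ℚ) ≤ k := by exact_mod_cast hk
  have p : (0 : ℚ) ≤ ((2 * k - 1).choose (k - 1) : ℚ) := by positivity
  rw [← hN]
  have h1 : ((2 * k - 1).choose (k - 2) : ℚ) * ((k : ℚ) + 1) =
      ((2 * k - 1).choose (k - 1) : ℚ) * ((k : ℚ) - 1) := by linarith
  have h2 : 2 * ((2 * k - 1).choose (k - 1) : ℚ) * ((k : ℚ) + 1) ≤
      4 * ((2 * k - 1).choose (k - 2) : ℚ) * ((k : ℚ) + 1) := by
    have : 4 * ((2 * k - 1).choose (k - 2) : ℚ) * ((k : ℚ) + 1) =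
      4 * (((2 * k - 1).choose (k - 1) : ℚ) * ((k : ℚ) - 1)) := by rw [← h1]; ring
    rw [this]
    nlinarith
  exact le_of_mul_le_mul_right h2 (by linarith)

/-- If every nonempty member contains `x` then many chains miss the family. -/
lemma P0_point {F : Finset (Finset (Fin (2 * k)))} (hk : 1 ≤ k) {x : Fin (2 * k)}
    (h : ∀ A ∈ F, A.Nonempty → x ∈ A) : 1 / (2 * (k : ℚ)) ≤ P0 F := by
  have hc : (univ.erase x).card = 2 * k - 1 := by
    rw [card_erase_of_mem (mem_univ _), card_univ, Fintype.card_fin]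
  have h1 := one_level (univ.erase x)
  rw [hc] at h1
  have h2 : (2 * k).choose (2 * k - 1) = 2 * k := by
    rw [← Nat.choose_symm (by omega : 2 * k - 1 ≤ 2 * k)]
    have : 2 * k - (2 * k - 1) = 1 := by omega
    rw [this, Nat.choose_one_right]
  rw [h2] at h1
  push_cast at h1
  rw [← h1]
  apply Ex_mono
  intro σ
  apply ind_mono
  rintro hσ ⟨c, hc'⟩
  rw [mem_lvs] at hc'
  have hx := h _ hc'.2 (card_pos.1 (by rw [card_pre σ (by omega)]; omega))
  have hx2 := pre_mono σ (by omega : c ≤ 2 * k - 1) hx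
  rw [hσ] at hx2
  simp at hx2

/-- The sets of size `k + 1` through `x` above no near member through `x`. -/
def RR (F : Finset (Finset (Fin (2 * k)))) (x : Fin (2 * k)) : Finset (Finset (Fin (2 * k))) :=
  univ.filter (fun C => (x ∈ C ∧ C.card = k + 1) ∧ ∀ S ∈ F, x ∈ S → S ⊆ C → ¬ (2 * k ≤ 3 * S.card))

/-- The nonmembers of size `k + 1` through `x`. -/
def MM (F : Finset (Finset (Fin (2 * k)))) (x : Fin (2 * k)) : Finset (Finset (Fin (2 * k))) :=
  univ.filter (fun C => (x ∈ C ∧ C.card = k + 1) ∧ C ∉ F)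

lemma point_prob {n : ℕ} (x : Fin n) (G : Finset (Finset (Fin n))) (D : ℕ)
    (hG : ∀ C ∈ G, x ∈ C ∧ C.card = 1 + D) :
    Ex (fun σ => ind (pre σ 1 = {x} ∧ pre σ (1 + D) ∈ G)) =
      G.card / ((n : ℚ) * ((n - 1).choose D : ℚ)) := by
  have h := prob_family {x} G D (fun C hC => by
    rw [card_singleton, singleton_subset_iff]; exact hG C hC)
  rw [card_singleton, Nat.choose_one_right] at h
  exact h

lemma RR_card {F : Finset (Finset (Fin (2 * k)))} (hk : 2 ≤ k) (x : Fin (2 * k)) :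
    ((RR F x).card : ℚ) ≤ k * ((2 * k).choose k : ℚ) * Q F := by
  have hk0 : (0 : ℚ) < k := by exact_mod_cast (by omega : 0 < k)
  have hN : (0 : ℚ) < ((2 * k).choose k : ℚ) := by exact_mod_cast Nat.choose_pos (by omega)
  have h1 := point_prob x (RR F x) k (fun C hC => by
    rw [RR, mem_filter] at hC; exact ⟨hC.2.1.1, by rw [hC.2.1.2]; ring⟩)
  have h2 : Ex (fun σ => ind (pre σ 1 = {x} ∧ pre σ (1 + k) ∈ RR F x)) ≤ Q F := by
    apply le_Q
    rintro σ ⟨hx, hR⟩ c h1 h2 h3
    rw [RR, mem_filter] at hR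
    apply hR.2.2 _ h3
    · apply pre_mono σ (by omega : 1 ≤ c)
      rw [hx]; exact mem_singleton_self x
    · exact pre_mono σ (by omega)
    · rw [card_pre σ (by omega)]; exact h1
  rw [h1] at h2
  have h3 := two_choose_half (k := k) (by omega)
  have e : ((2 * k : ℕ) : ℚ) * ((2 * k - 1).choose k : ℚ) = k * ((2 * k).choose k : ℚ) := by
    rw [← h3]; push_cast; ring
  rw [e, div_le_iff₀ (by positivity)] at h2
  linarith

/-- Sets meeting a member through `x` exactly in `x` belong to `RR`. -/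
lemma mem_RR {F : Finset (Finset (Fin (2 * k)))} (hF : Admissible F) (hk : 2 ≤ k) {x : Fin (2 * k)}
    (hx : {x} ∈ F) {S C : Finset (Fin (2 * k))} (hS : S ∈ F) (hxS : x ∈ S) (hS2 : 2 ≤ S.card)
    (hxC : x ∈ C) (hC : C.card = k + 1) (hCS : ∀ z, z ∈ C → z ∈ S → z = x) : C ∈ RR F x := by
  rw [RR, mem_filter]
  refine ⟨mem_univ _, ⟨hxC, hC⟩, ?_⟩
  intro T hT hxT hTC hT2
  have hTS : T ∩ S = {x} := by
    ext z
    rw [mem_inter, mem_singleton]
    constructor
    · rintro ⟨h1, h2⟩; exact hCS z (hTC h1) h2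
    · rintro rfl; exact ⟨hxT, hxS⟩
  have hcx : ({x} : Finset (Fin (2 * k))).card = 1 := card_singleton x
  apply (hF T hT S hS {x} hx ?_ ?_ ?_).2 hTS
  · intro h
    rw [h, inter_self] at hTS
    rw [hTS] at hS2
    omega
  · intro h; rw [h] at hT2; omega
  · intro h; rw [h] at hS2; omega

lemma Fk_card {F : Finset (Finset (Fin (2 * k)))} (hF : Admissible F) (hk : 2 ≤ k) {x : Fin (2 * k)}
    (hx : {x} ∈ F) : ((lev F k).filter (fun S => x ∈ S)).card ≤ (RR F x).card := by
  apply card_le_card_of_injOn (fun S => insert x Sᶜ)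
  · intro S hS
    rw [mem_coe, mem_filter, mem_lev] at hS
    obtain ⟨⟨hS, hc⟩, hxS⟩ := hS
    rw [mem_coe]
    apply mem_RR hF hk hx hS hxS (by omega) (mem_insert_self _ _)
    · rw [card_insert_of_notMem (by rw [mem_compl]; exact fun h => h hxS), card_compl,
        Fintype.card_fin]
      omega
    · intro z hz hzS
      rw [mem_insert, mem_compl] at hz
      exact hz.elim id (fun h => absurd hzS h)
  · intro S hS S' hS' h
    rw [mem_coe, mem_filter, mem_lev] at hS hS'
    simp only at h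
    have h2 : Sᶜ = S'ᶜ := by
      have e1 : (insert x Sᶜ).erase x = Sᶜ := erase_insert (by rw [mem_compl]; exact fun h => h hS.2)
      have e2 : (insert x S'ᶜ).erase x = S'ᶜ := erase_insert (by rw [mem_compl]; exact fun h => h hS'.2)
      rw [← e1, ← e2, h]
    exact compl_injective h2

lemma Fkm_card {F : Finset (Finset (Fin (2 * k)))} (hF : Admissible F) (hk : 3 ≤ k) {x : Fin (2 * k)}
    (hx : {x} ∈ F) :
    ((lev F (k - 1)).filter (fun S => x ∈ S)).card ≤ (RR F x).card * (2 * k) := by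
  have h1 : (RR F x).card * (2 * k) = (RR F x ×ˢ (univ : Finset (Fin (2 * k)))).card := by
    rw [card_product, card_univ, Fintype.card_fin]
  rw [h1]
  apply Finset.card_le_card_of_forall_subsingleton
    (fun (S : Finset (Fin (2 * k))) (q : Finset (Fin (2 * k)) × Fin (2 * k)) =>
      q.2 ∉ S ∧ q.1 = insert x ((Sᶜ).erase q.2))
  · intro S hS
    rw [mem_filter, mem_lev] at hS
    obtain ⟨⟨hS, hc⟩, hxS⟩ := hS
    have hcc : Sᶜ.card = k + 1 := by rw [card_compl, Fintype.card_fin]; omega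
    obtain ⟨p, hp⟩ := card_pos.1 (by omega : 0 < Sᶜ.card)
    refine ⟨(insert x (Sᶜ.erase p), p), ?_, ?_⟩
    · rw [mem_product]
      refine ⟨?_, mem_univ _⟩
      apply mem_RR hF (by omega) hx hS hxS (by omega) (mem_insert_self _ _)
      · rw [card_insert_of_notMem, card_erase_of_mem hp]
        · omega
        · rw [mem_erase, mem_compl]; exact fun h => h.2 hxS
      · intro z hz hzS
        rw [mem_insert, mem_erase, mem_compl] at hz
        exact hz.elim id (fun h => absurd hzS h.2)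
    · exact ⟨mem_compl.1 hp, rfl⟩
  · rintro ⟨C, p⟩ _ S hS S' hS'
    obtain ⟨hS, hp, hC⟩ := hS
    obtain ⟨hS', hp', hC'⟩ := hS'
    rw [mem_filter, mem_lev] at hS hS'
    simp only at hp hC hp' hC'
    apply compl_injective
    have e1 : ∀ T : Finset (Fin (2 * k)), x ∈ T → p ∉ T → C = insert x (Tᶜ.erase p) →
        Tᶜ = insert p (C.erase x) := by
      intro T hxT hpT hCT
      rw [hCT, erase_insert, insert_erase (mem_compl.2 hpT)]
      rw [mem_erase, mem_compl]; exact fun h => h.2 hxT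
    rw [e1 S hS.2 hp hC, e1 S' hS'.2 hp' hC']

lemma MM_card {F : Finset (Finset (Fin (2 * k)))} (hF : Admissible F) (hk : 3 ≤ k) {x : Fin (2 * k)}
    (hx : {x} ∈ F) :
    ((MM F x).card : ℚ) ≤ k * ((2 * k).choose k : ℚ) * ((4 * k + 3) * Q F) := by
  have hk0 : (0 : ℚ) < k := by exact_mod_cast (by omega : 0 < k)
  have hN : (0 : ℚ) < ((2 * k).choose k : ℚ) := by exact_mod_cast Nat.choose_pos (by omega)
  have hQ := Q_nonneg F
  have hRR := RR_card (F := F) (by omega : 2 ≤ k) x
  have h1 := point_prob x (MM F x) k (fun C hC => by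
    rw [MM, mem_filter] at hC; exact ⟨hC.2.1.1, by rw [hC.2.1.2]; ring⟩)
  have h2 := point_prob x ((lev F k).filter (fun S => x ∈ S)) (k - 1) (fun C hC => by
    rw [mem_filter, mem_lev] at hC; exact ⟨hC.2, by rw [hC.1.2]; omega⟩)
  have h3 := point_prob x ((lev F (k - 1)).filter (fun S => x ∈ S)) (k - 2) (fun C hC => by
    rw [mem_filter, mem_lev] at hC; exact ⟨hC.2, by rw [hC.1.2]; omega⟩)
  have a1 : 1 + (k - 1) = k := by omega
  have a2 : 1 + (k - 2) = k - 1 := by omega
  rw [a1] at h2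
  rw [a2] at h3
  have h4 : Ex (fun σ => ind (pre σ 1 = {x} ∧ pre σ (1 + k) ∈ MM F x)) ≤
      (Ex (fun σ => ind (pre σ 1 = {x} ∧ pre σ (1 + k) ∈ MM F x ∧
          ∀ c, 2 * k ≤ 3 * c → c ≤ k → pre σ c ∉ F)) + ∑ i ∈ NK k, xl F i) +
      (Ex (fun σ => ind (pre σ 1 = {x} ∧ pre σ k ∈ (lev F k).filter (fun S => x ∈ S))) +
      Ex (fun σ => ind (pre σ 1 = {x} ∧ pre σ (k - 1) ∈ (lev F (k - 1)).filter (fun S => x ∈ S)))) := by
    unfold xl
    rw [← Ex_sum, ← Ex_add, ← Ex_add, ← Ex_add]
    apply Ex_mono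
    intro σ
    have n1 := ind_nonneg (pre σ 1 = {x} ∧ pre σ (1 + k) ∈ MM F x ∧
          ∀ c, 2 * k ≤ 3 * c → c ≤ k → pre σ c ∉ F)
    have n2 : 0 ≤ ∑ i ∈ NK k, ind (pre σ i ∈ F) := sum_nonneg fun i _ => ind_nonneg _
    have n3 := ind_nonneg (pre σ 1 = {x} ∧ pre σ k ∈ (lev F k).filter (fun S => x ∈ S))
    have n4 := ind_nonneg (pre σ 1 = {x} ∧ pre σ (k - 1) ∈ (lev F (k - 1)).filter (fun S => x ∈ S))
    by_cases hE : pre σ 1 = {x} ∧ pre σ (1 + k) ∈ MM F x
    · rw [ind_of hE]
      have hxc : ∀ c, 1 ≤ c → x ∈ pre σ c := by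
        intro c hc
        apply pre_mono σ hc
        rw [hE.1]; exact mem_singleton_self x
      by_cases hno : ∀ c, 2 * k ≤ 3 * c → c ≤ k → pre σ c ∉ F
      · have : ind (pre σ 1 = {x} ∧ pre σ (1 + k) ∈ MM F x ∧
          ∀ c, 2 * k ≤ 3 * c → c ≤ k → pre σ c ∉ F) = 1 := ind_of ⟨hE.1, hE.2, hno⟩
        linarith
      · push Not at hno
        obtain ⟨c, c1, c2, c3⟩ := hno
        rcases (by omega : c = k ∨ c = k - 1 ∨ c + 2 ≤ k) with h | h | h
        · have : ind (pre σ 1 = {x} ∧ pre σ k ∈ (lev F k).filter (fun S => x ∈ S)) = 1 := by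
            apply ind_of
            refine ⟨hE.1, ?_⟩
            rw [mem_filter, mem_lev]
            exact ⟨⟨h ▸ c3, card_pre σ (by omega)⟩, hxc k (by omega)⟩
          linarith
        · have : ind (pre σ 1 = {x} ∧ pre σ (k - 1) ∈ (lev F (k - 1)).filter (fun S => x ∈ S)) = 1 := by
            apply ind_of
            refine ⟨hE.1, ?_⟩
            rw [mem_filter, mem_lev]
            exact ⟨⟨h ▸ c3, card_pre σ (by omega)⟩, hxc (k - 1) (by omega)⟩
          linarith
        · have hm : c ∈ NK k := by rw [mem_NK]; omega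
          have h2 := single_le_sum (f := fun i => ind (pre σ i ∈ F))
            (fun i _ => ind_nonneg _) hm
          rw [ind_of c3] at h2
          linarith
    · rw [ind_not hE]
      linarith
  have h5 : Ex (fun σ => ind (pre σ 1 = {x} ∧ pre σ (1 + k) ∈ MM F x ∧
          ∀ c, 2 * k ≤ 3 * c → c ≤ k → pre σ c ∉ F)) ≤ Q F := by
    apply le_Q
    rintro σ ⟨_, hM, hno⟩ c c1 c2
    rcases (by omega : c ≤ k ∨ c = 1 + k) with h | h
    · exact hno c c1 h
    · rw [MM, mem_filter] at hM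
      rw [h]; exact hM.2.2
  have h6 : ∑ i ∈ NK k, xl F i ≤ Q F := by
    unfold Q
    have h1 : ∑ i ∈ NK k, xl F i ≤ ∑ i ∈ NK k, (xl F i + xl (dual F) i) :=
      sum_le_sum fun i _ => by have := xl_nonneg (dual F) i; linarith
    have h2 := P0_nonneg F
    linarith
  have n21 : ((2 * k : ℕ) : ℚ) = 2 * (k : ℚ) := by push_cast; ring
  have b1 : ((2 * k : ℕ) : ℚ) * ((2 * k - 1).choose k : ℚ) = k * ((2 * k).choose k : ℚ) := by
    rw [← two_choose_half (k := k) (by omega)]; push_cast; ring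
  have b2 : ((2 * k : ℕ) : ℚ) * ((2 * k - 1).choose (k - 1) : ℚ) = k * ((2 * k).choose k : ℚ) := by
    rw [← two_choose_half' (k := k) (by omega)]; push_cast; ring
  have b3 : k * ((2 * k).choose k : ℚ) ≤ 2 * (((2 * k : ℕ) : ℚ) * ((2 * k - 1).choose (k - 2) : ℚ)) := by
    have := mul_le_mul_of_nonneg_left (choose_km2 hk) hk0.le
    push_cast
    linarith
  rw [b1] at h1
  rw [b2] at h2
  have f1 : (((lev F k).filter (fun S => x ∈ S)).card : ℚ) ≤ k * ((2 * k).choose k : ℚ) * Q F :=
    le_trans (by exact_mod_cast Fk_card hF (by omega) hx) hRR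
  have f2 : (((lev F (k - 1)).filter (fun S => x ∈ S)).card : ℚ) ≤
      k * ((2 * k).choose k : ℚ) * Q F * (2 * k) := by
    have h7 : (((lev F (k - 1)).filter (fun S => x ∈ S)).card : ℚ) ≤ ((RR F x).card : ℚ) * (2 * k) := by
      exact_mod_cast Fkm_card hF hk hx
    exact h7.trans (mul_le_mul_of_nonneg_right hRR (by positivity))
  have g1 : Ex (fun σ => ind (pre σ 1 = {x} ∧ pre σ k ∈ (lev F k).filter (fun S => x ∈ S))) ≤ Q F := by
    rw [h2, div_le_iff₀ (by positivity)]
    linarith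
  have g2 : Ex (fun σ => ind (pre σ 1 = {x} ∧ pre σ (k - 1) ∈ (lev F (k - 1)).filter (fun S => x ∈ S))) ≤
      4 * k * Q F := by
    rw [h3, div_le_iff₀ (by linarith [mul_pos hk0 hN])]
    have h8 := mul_le_mul_of_nonneg_left b3 (by positivity : (0 : ℚ) ≤ 2 * k * Q F)
    nlinarith
  have h9 : ((MM F x).card : ℚ) / (k * ((2 * k).choose k : ℚ)) ≤ (4 * k + 3) * Q F := by
    rw [← h1]
    linarith
  rw [div_le_iff₀ (by positivity)] at h9
  linarith

lemma levk_card {F : Finset (Finset (Fin (2 * k)))} (hF : Admissible F) (hk : 2 ≤ k) {x : Fin (2 * k)}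
    (hx : {x} ∈ F) :
    (lev F k).card ≤ ((lev F k).filter (fun S => x ∈ S)).card + (MM F x).card := by
  rw [← card_filter_add_card_filter_not (s := lev F k) (fun S => x ∈ S)]
  apply Nat.add_le_add_left
  apply card_le_card_of_injOn (fun S => insert x S)
  · intro S hS
    rw [mem_coe, mem_filter, mem_lev] at hS
    obtain ⟨⟨hS, hc⟩, hxS⟩ := hS
    beta_reduce
    rw [mem_coe, MM, mem_filter]
    have hci := card_insert_of_notMem hxS
    refine ⟨mem_univ _, ⟨mem_insert_self _ _, by omega⟩, ?_⟩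
    intro hI
    have hcx : ({x} : Finset (Fin (2 * k))).card = 1 := card_singleton x
    apply (hF S hS {x} hx _ hI ?_ ?_ ?_).1
    · ext z
      rw [mem_union, mem_singleton, mem_insert]
      tauto
    · intro h; rw [h] at hc; omega
    · intro h; rw [← h] at hci; omega
    · intro h; rw [← h] at hci; omega
  · intro S hS S' hS' h
    rw [mem_coe, mem_filter] at hS hS'
    simp only at h
    rw [← erase_insert hS.2, ← erase_insert hS'.2, h]

lemma pair_count {F : Finset (Finset (Fin (2 * k)))} (hk : 2 ≤ k) (x : Fin (2 * k)) :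
    ((lev F (k - 1)).filter (fun S => x ∉ S ∧ ∃ z, z ∉ S ∧ z ≠ x ∧ insert z (insert x S) ∉ F)).card ≤
      (MM F x).card * (2 * k) := by
  have h1 : (MM F x).card * (2 * k) = (MM F x ×ˢ (univ : Finset (Fin (2 * k)))).card := by
    rw [card_product, card_univ, Fintype.card_fin]
  rw [h1]
  apply Finset.card_le_card_of_forall_subsingleton
    (fun (S : Finset (Fin (2 * k))) (q : Finset (Fin (2 * k)) × Fin (2 * k)) =>
      q.2 ∉ S ∧ q.2 ≠ x ∧ q.1 = insert q.2 (insert x S))
  · intro S hS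
    rw [mem_filter, mem_lev] at hS
    obtain ⟨⟨hS, hc⟩, hxS, z, hz, hzx, hzF⟩ := hS
    refine ⟨(insert z (insert x S), z), ?_, hz, hzx, rfl⟩
    rw [mem_product]
    refine ⟨?_, mem_univ _⟩
    rw [MM, mem_filter]
    refine ⟨mem_univ _, ⟨mem_insert_of_mem (mem_insert_self _ _), ?_⟩, hzF⟩
    simp only
    rw [card_insert_of_notMem (by rw [mem_insert, not_or]; exact ⟨hzx, hz⟩),
      card_insert_of_notMem hxS]
    omega
  · rintro ⟨C, p⟩ _ S hS S' hS'
    obtain ⟨hS, hp, hpx, hC⟩ := hS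
    obtain ⟨hS', hp', hpx', hC'⟩ := hS'
    rw [mem_filter] at hS hS'
    simp only at hp hC hp' hC' hpx hpx'
    have e1 : ∀ T : Finset (Fin (2 * k)), x ∉ T → p ∉ T → C = insert p (insert x T) →
        T = (C.erase p).erase x := by
      intro T hxT hpT hCT
      rw [hCT, erase_insert (by rw [mem_insert, not_or]; exact ⟨hpx, hpT⟩), erase_insert hxT]
    rw [e1 S hS.2.1 hp hC, e1 S' hS'.2.1 hp' hC']

lemma levkm_card {F : Finset (Finset (Fin (2 * k)))} (hF : Admissible F) (hk : 3 ≤ k)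
    {x y : Fin (2 * k)} (hxy : x ≠ y) :
    (lev F (k - 1)).card ≤ ((lev F (k - 1)).filter (fun S => x ∈ S)).card +
      ((lev F (k - 1)).filter (fun S => y ∈ S)).card +
      ((MM F x).card * (2 * k) + (MM F y).card * (2 * k)) := by
  have hsub : lev F (k - 1) ⊆ ((lev F (k - 1)).filter (fun S => x ∈ S) ∪
      (lev F (k - 1)).filter (fun S => y ∈ S)) ∪
      ((lev F (k - 1)).filter (fun S => x ∉ S ∧ ∃ z, z ∉ S ∧ z ≠ x ∧ insert z (insert x S) ∉ F) ∪
       (lev F (k - 1)).filter (fun S => y ∉ S ∧ ∃ z, z ∉ S ∧ z ≠ y ∧ insert z (insert y S) ∉ F)) := by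
    intro S hS
    rw [mem_union, mem_union, mem_union, mem_filter, mem_filter, mem_filter, mem_filter]
    by_cases hx : x ∈ S
    · exact Or.inl (Or.inl ⟨hS, hx⟩)
    by_cases hy : y ∈ S
    · exact Or.inl (Or.inr ⟨hS, hy⟩)
    right
    have hSF := (mem_lev.1 hS).1
    have hc := (mem_lev.1 hS).2
    have hyS : y ∉ insert x S := by rw [mem_insert, not_or]; exact ⟨fun h => hxy h.symm, hy⟩
    have hcard : 1 < (insert y (insert x S))ᶜ.card := by
      rw [card_compl, Fintype.card_fin, card_insert_of_notMem hyS, card_insert_of_notMem hx]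
      omega
    obtain ⟨z1, h1, z2, h2, h12⟩ := one_lt_card.1 hcard
    rw [mem_compl, mem_insert, mem_insert, not_or, not_or] at h1 h2
    by_cases hz1 : insert z1 (insert x S) ∈ F
    · right
      refine ⟨hS, hy, z2, h2.2.2, h2.1, ?_⟩
      intro hz2
      have hxn : x ∉ insert z2 (insert y S) := by
        rw [mem_insert, mem_insert, not_or, not_or]
        exact ⟨fun h => h2.2.1 h.symm, hxy, hx⟩
      have c1 : (insert z1 (insert x S)).card = S.card + 2 := by
        rw [card_insert_of_notMem (by rw [mem_insert, not_or]; exact ⟨h1.2.1, h1.2.2⟩),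
          card_insert_of_notMem hx]
      have c2 : (insert z2 (insert y S)).card = S.card + 2 := by
        rw [card_insert_of_notMem (by rw [mem_insert, not_or]; exact ⟨h2.1, h2.2.2⟩),
          card_insert_of_notMem hy]
      apply (hF _ hz1 _ hz2 S hSF ?_ ?_ ?_).2
      · ext w
        rw [mem_inter, mem_insert, mem_insert, mem_insert, mem_insert]
        constructor
        · rintro ⟨h3 | h3 | h3, h4 | h4 | h4⟩
          · exact absurd (h3.symm.trans h4) h12
          · exact absurd (h3.symm.trans h4) h1.1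
          · exact h4
          · exact absurd (h4.symm.trans h3) h2.2.1
          · exact absurd (h3.symm.trans h4) hxy
          · exact h4
          · exact h3
          · exact h3
          · exact h3
        · intro h; exact ⟨Or.inr (Or.inr h), Or.inr (Or.inr h)⟩
      · intro h
        apply hxn
        rw [← h]
        exact mem_insert_of_mem (mem_insert_self _ _)
      · intro h; rw [h] at c1; omega
      · intro h; rw [h] at c2; omega
    · left
      exact ⟨hS, hx, z1, h1.2.2, h1.2.1, hz1⟩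
  refine (card_le_card hsub).trans ((card_union_le _ _).trans ?_)
  exact Nat.add_le_add (card_union_le _ _) ((card_union_le _ _).trans
    (Nat.add_le_add (pair_count (by omega) x) (pair_count (by omega) y)))

/-- Two singletons: the near part is small. -/
lemma near_two {F : Finset (Finset (Fin (2 * k)))} (hF : Admissible F) (hk : 3 ≤ k)
    {x y : Fin (2 * k)} (hxy : x ≠ y) (hx : {x} ∈ F) (hy : {y} ∈ F) :
    ((∑ i ∈ NS (2 * k), (lev F i).card : ℕ) : ℚ) ≤
      ((2 * k).choose k : ℚ) * (k / ((k : ℚ) + 1) + 24 * (k : ℚ) ^ 3 * Q F) := by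
  have hk0 : (0 : ℚ) < k := by exact_mod_cast (by omega : 0 < k)
  have hk3 : (3 : ℚ) ≤ k := by exact_mod_cast hk
  have hN : (0 : ℚ) < ((2 * k).choose k : ℚ) := by exact_mod_cast Nat.choose_pos (by omega)
  have hQ := Q_nonneg F
  set N := ((2 * k).choose k : ℚ) with hNdef
  set q := Q F with hq
  have hRx := RR_card (F := F) (by omega : 2 ≤ k) x
  have hRy := RR_card (F := F) (by omega : 2 ≤ k) y
  have hMx := MM_card hF hk hx
  have hMy := MM_card hF hk hy
  have h1 : ((lev F k).card : ℚ) ≤ k * N * q + k * N * ((4 * k + 3) * q) := by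
    have h : ((lev F k).card : ℚ) ≤ (RR F x).card + (MM F x).card := by
      exact_mod_cast (levk_card hF (by omega) hx).trans (Nat.add_le_add_right (Fk_card hF (by omega) hx) _)
    linarith
  have h2 : ((lev F (k - 1)).card : ℚ) ≤
      2 * (k * N * q * (2 * k)) + 2 * (k * N * ((4 * k + 3) * q) * (2 * k)) := by
    have h : ((lev F (k - 1)).card : ℚ) ≤ (RR F x).card * (2 * k) + (RR F y).card * (2 * k) +
        ((MM F x).card * (2 * k) + (MM F y).card * (2 * k)) := by
      exact_mod_cast (levkm_card hF hk hxy).trans (Nat.add_le_add_right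
        (Nat.add_le_add (Fkm_card hF hk hx) (Fkm_card hF hk hy)) _)
    have a1 := mul_le_mul_of_nonneg_right hRx (by positivity : (0 : ℚ) ≤ 2 * k)
    have a2 := mul_le_mul_of_nonneg_right hRy (by positivity : (0 : ℚ) ≤ 2 * k)
    have a3 := mul_le_mul_of_nonneg_right hMx (by positivity : (0 : ℚ) ≤ 2 * k)
    have a4 := mul_le_mul_of_nonneg_right hMy (by positivity : (0 : ℚ) ≤ 2 * k)
    linarith
  have hmid : ∀ i, ((2 * k).choose i : ℚ) ≤ N := by
    intro i
    have := Nat.choose_le_middle i (2 * k)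
    rw [half_two_mul] at this
    rw [hNdef]
    exact_mod_cast this
  have h3 : ((lev F (k + 1)).card : ℚ) ≤ N * (k / ((k : ℚ) + 1)) := by
    have e : (lev F (k + 1)).card ≤ (2 * k).choose (k + 1) := by
      have : lev F (k + 1) ⊆ powersetCard (k + 1) univ := by
        intro A hA
        rw [mem_powersetCard_univ]
        exact (mem_lev.1 hA).2
      have h := card_le_card this
      rwa [card_powersetCard, card_univ, Fintype.card_fin] at h
    have e2 : (2 * k).choose (k + 1) = (2 * k).choose (k - 1) := by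
      rw [← Nat.choose_symm (by omega : k + 1 ≤ 2 * k)]
      congr 1
      omega
    rw [← v_km1 (by omega), ← e2]
    exact_mod_cast e
  have h4 : ∑ i ∈ NK k, (((lev F i).card : ℚ) + ((lev F (2 * k - i)).card : ℚ)) ≤ N * q := by
    have : ∑ i ∈ NK k, (((lev F i).card : ℚ) + ((lev F (2 * k - i)).card : ℚ)) ≤
        ∑ i ∈ NK k, N * (xl F i + xl (dual F) i) := by
      apply sum_le_sum
      intro i hi
      rw [mem_NK] at hi
      rw [card_lev F (by omega : i ≤ 2 * k), card_lev F (by omega : 2 * k - i ≤ 2 * k),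
        xl_dual F (by omega), mul_add]
      exact add_le_add (mul_le_mul_of_nonneg_right (hmid _) (xl_nonneg _ _))
        (mul_le_mul_of_nonneg_right (hmid _) (xl_nonneg _ _))
    refine this.trans ?_
    rw [← mul_sum]
    apply mul_le_mul_of_nonneg_left _ hN.le
    rw [hq]
    unfold Q
    have := P0_nonneg F
    linarith
  push_cast
  rw [sum_NS, if_pos (even_two_mul k), half_two_mul]
  have hsplit : NL (2 * k) = insert (k - 1) (NK k) := by
    ext i
    rw [mem_insert, mem_NL, mem_NK]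
    omega
  have hnot : k - 1 ∉ NK k := by rw [mem_NK]; omega
  rw [hsplit, sum_insert hnot]
  have e5 : 2 * k - (k - 1) = k + 1 := by omega
  rw [e5]
  have hNq : 0 ≤ N * q := by positivity
  have hpoly : (16 : ℚ) * k ^ 3 + 20 * k ^ 2 + 4 * k + 1 ≤ 24 * (k : ℚ) ^ 3 := by
    nlinarith [mul_pos hk0 hk0, mul_nonneg hk0.le (by linarith : (0 : ℚ) ≤ k - 3),
      mul_nonneg (mul_pos hk0 hk0).le (by linarith : (0 : ℚ) ≤ k - 3)]
  have h6 := mul_le_mul_of_nonneg_left hpoly hNq
  nlinarith

end Pool.Agent.Lib_MP_b87ef1_x77
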