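import Pool.Agent.Lib_MP_b87ef1_x77.Even3

/-!
The even case: assembly.
-/

namespace Pool.Agent.Lib_MP_b87ef1_x77

open Finset Equiv

/-- The far levels below the middle. -/
def FL (n : ℕ) : Finset ℕ := (range (n + 1)).filter (fun i => 3 * i < n)

lemma mem_FL {n i : ℕ} : i ∈ FL n ↔ 3 * i < n := by
  simp only [FL, mem_filter, mem_range]
  omega

lemma card_lev_dual {n : ℕ} (F : Finset (Finset (Fin n))) {i : ℕ} (hi : i ≤ n) :
    (lev (dual F) i).card = (lev F (n - i)).card := by
  have h1 := card_lev (dual F) hi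
  have h2 := card_lev F (by omega : n - i ≤ n)
  rw [xl_dual F hi] at h1
  rw [Nat.choose_symm hi, ← h1] at h2
  exact_mod_cast h2.symm

lemma total_split {n : ℕ} (F : Finset (Finset (Fin n))) :
    F.card = ∑ i ∈ NS n, (lev F i).card +
      ∑ i ∈ FL n, ((lev F i).card + (lev (dual F) i).card) := by
  have h1 : F.card = ∑ i ∈ range (n + 1), (lev F i).card := by
    rw [card_eq_sum_card_fiberwise (f := fun A => A.card) (t := range (n + 1))]
    · rfl
    · intro A _
      have := card_le_n A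
      have h : A.card < n + 1 := by omega
      exact mem_coe.2 (mem_range.2 h)
  have h2 : range (n + 1) = (NS n ∪ FL n) ∪ (FL n).image (fun i => n - i) := by
    ext i
    rw [mem_union, mem_union, mem_range, mem_NS, mem_FL, mem_image]
    constructor
    · intro h
      by_cases ha : 3 * i < n
      · exact Or.inl (Or.inr ha)
      by_cases hb : 3 * i ≤ 2 * n
      · exact Or.inl (Or.inl ⟨by omega, hb⟩)
      · exact Or.inr ⟨n - i, mem_FL.2 (by omega), by omega⟩
    · rintro ((h | h) | ⟨j, hj, rfl⟩)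
      · omega
      · omega
      · omega
  have d1 : Disjoint (NS n) (FL n) := by
    rw [disjoint_left]
    intro i hi hi'
    rw [mem_NS] at hi
    rw [mem_FL] at hi'
    omega
  have d2 : Disjoint (NS n ∪ FL n) ((FL n).image (fun i => n - i)) := by
    rw [disjoint_left]
    intro i hi hi'
    rw [mem_image] at hi'
    obtain ⟨j, hj, rfl⟩ := hi'
    rw [mem_union, mem_NS, mem_FL] at hi
    rw [mem_FL] at hj
    omega
  rw [h1, h2, sum_union d2, sum_union d1, sum_image, sum_add_distrib, add_assoc]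
  · congr 2
    apply sum_congr rfl
    intro i hi
    rw [mem_FL] at hi
    rw [card_lev_dual F (by omega)]
  · intro i hi j hj h
    rw [mem_coe, mem_FL] at hi hj
    simp only at h
    omega

lemma lev_zero_card {n : ℕ} (F : Finset (Finset (Fin n))) : (lev F 0).card ≤ 1 := by
  have : lev F 0 ⊆ {∅} := by
    intro A hA
    rw [mem_singleton]
    exact card_eq_zero.1 (mem_lev.1 hA).2
  exact (card_le_card this).trans (by simp)

lemma lev_one_card {n : ℕ} (F : Finset (Finset (Fin n))) : (lev F 1).card ≤ n := by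
  have : lev F 1 ⊆ powersetCard 1 univ := by
    intro A hA
    rw [mem_powersetCard_univ]
    exact (mem_lev.1 hA).2
  have h := card_le_card this
  rwa [card_powersetCard, card_univ, Fintype.card_fin, Nat.choose_one_right] at h

variable {k : ℕ}

lemma even_total {F : Finset (Finset (Fin (2 * k)))} (hF : Admissible F) (hk : 3 ≤ k)
    (hS : (∑ i ∈ FL (2 * k), ((2 * k).choose i : ℚ)) ≤ ((2 * k).choose k : ℚ) / (64 * k)) :
    (F.card : ℚ) ≤ ((∑ i ∈ NS (2 * k), (lev F i).card : ℕ) : ℚ) +
      ((2 * k).choose k : ℚ) * Q F / (16 * k) +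
      (((lev F 0).card + (lev (dual F) 0).card + ((lev F 1).card + (lev (dual F) 1).card) : ℕ) : ℚ) := by
  have hk0 : (0 : ℚ) < k := by exact_mod_cast (by omega : 0 < k)
  have hQ := Q_nonneg F
  have hsplit : FL (2 * k) = insert 0 (insert 1 ((FL (2 * k)).filter (fun i => 2 ≤ i))) := by
    ext i
    rw [mem_insert, mem_insert, mem_filter, mem_FL]
    omega
  have n1 : 1 ∉ (FL (2 * k)).filter (fun i => 2 ≤ i) := by rw [mem_filter]; omega
  have n0 : 0 ∉ insert 1 ((FL (2 * k)).filter (fun i => 2 ≤ i)) := by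
    rw [mem_insert, mem_filter]; omega
  have h1 := total_split F
  rw [hsplit, sum_insert n0, sum_insert n1] at h1
  have h2 : ((∑ i ∈ (FL (2 * k)).filter (fun i => 2 ≤ i),
      ((lev F i).card + (lev (dual F) i).card) : ℕ) : ℚ) ≤ ((2 * k).choose k : ℚ) * Q F / (16 * k) := by
    push_cast
    have h3 : ∑ i ∈ (FL (2 * k)).filter (fun i => 2 ≤ i),
        (((lev F i).card : ℚ) + ((lev (dual F) i).card : ℚ)) ≤
        ∑ i ∈ (FL (2 * k)).filter (fun i => 2 ≤ i), (4 * Q F) * ((2 * k).choose i : ℚ) := by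
      apply sum_le_sum
      intro i hi
      rw [mem_filter, mem_FL] at hi
      rw [card_lev F (by omega), card_lev (dual F) (by omega)]
      have a1 := far_even hF hi.2 hi.1
      have a2 := far_even hF.dual hi.2 hi.1
      rw [Q_dual] at a2
      have p : (0 : ℚ) ≤ ((2 * k).choose i : ℚ) := by positivity
      have b1 := mul_le_mul_of_nonneg_left a1 p
      have b2 := mul_le_mul_of_nonneg_left a2 p
      linarith
    have h4 : ∑ i ∈ (FL (2 * k)).filter (fun i => 2 ≤ i), (4 * Q F) * ((2 * k).choose i : ℚ) ≤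
        ∑ i ∈ FL (2 * k), (4 * Q F) * ((2 * k).choose i : ℚ) := by
      apply sum_le_sum_of_subset_of_nonneg (filter_subset _ _)
      intro i _ _
      positivity
    rw [← mul_sum] at h3
    rw [← mul_sum, ← mul_sum] at h4
    have h5 := mul_le_mul_of_nonneg_left hS (by positivity : (0 : ℚ) ≤ 4 * Q F)
    have e : 4 * Q F * (((2 * k).choose k : ℚ) / (64 * k)) = ((2 * k).choose k : ℚ) * Q F / (16 * k) := by
      field_simp
      ring
    rw [e] at h5
    linarith
  rw [h1]
  push_cast at *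
  linarith

theorem even_upper {F : Finset (Finset (Fin (2 * k)))} (hF : Admissible F) (hk : 3 ≤ k)
    (hS : (∑ i ∈ FL (2 * k), ((2 * k).choose i : ℚ)) ≤ ((2 * k).choose k : ℚ) / (64 * k))
    (hB : 3200 * (k : ℚ) ^ 5 * (k + 1) ≤ ((2 * k).choose k : ℚ)) :
    F.card ≤ (2 * k).choose k + 2 := by
  have hk0 : (0 : ℚ) < k := by exact_mod_cast (by omega : 0 < k)
  have hk3 : (3 : ℚ) ≤ k := by exact_mod_cast hk
  have hN : (0 : ℚ) < ((2 * k).choose k : ℚ) := by exact_mod_cast Nat.choose_pos (by omega)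
  have hQ := Q_nonneg F
  have htot := even_total hF hk hS
  have hnear := near_bound hF hk
  set N := ((2 * k).choose k : ℚ) with hNdef
  set E := (lev F 0).card + (lev (dual F) 0).card + ((lev F 1).card + (lev (dual F) 1).card) with hE
  have l0 := lev_zero_card F
  have l0' := lev_zero_card (dual F)
  have l1 := lev_one_card F
  have l1' := lev_one_card (dual F)
  have hE4 : (E : ℚ) ≤ 4 * k + 2 := by
    have : E ≤ 4 * k + 2 := by omega
    exact_mod_cast this
  have hE1 : (F.card : ℚ) ≤ N - N * Q F / (16 * k) + E := by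
    have e : N * (1 - Q F / (8 * k)) + N * Q F / (16 * k) = N - N * Q F / (16 * k) := by
      field_simp
      ring
    linarith
  have hNQ : 0 ≤ N * Q F / (16 * k) := by positivity
  suffices h : (F.card : ℚ) ≤ N + 2 by
    rw [hNdef] at h
    exact_mod_cast h
  -- the large case
  have hlarge : 4 * (k : ℚ) ≤ N * Q F / (16 * k) → (F.card : ℚ) ≤ N + 2 := by
    intro h
    linarith
  -- a common point
  have hpoint : ∀ G : Finset (Finset (Fin (2 * k))), P0 G = P0 F → ∅ ∈ G → Admissible G →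
      (∃ x, {x} ∈ G) → (F.card : ℚ) ≤ N + 2 := by
    intro G hG h0 hGa hx
    obtain ⟨x, hx⟩ := hx
    apply hlarge
    have hp : ∀ A ∈ G, A.Nonempty → x ∈ A := by
      intro A hA hne
      by_contra hxA
      apply (hGa A hA {x} hx ∅ h0 ?_ hne.ne_empty (singleton_ne_empty x)).2
      · ext z
        rw [mem_inter, mem_singleton]
        constructor
        · rintro ⟨h1, rfl⟩; exact absurd h1 hxA
        · intro h; simp at h
      · rintro rfl; exact hxA (mem_singleton_self x)
    have h1 := P0_point (by omega : 1 ≤ k) hp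
    rw [hG] at h1
    have h2 := h1.trans (P0_le_Q F)
    have h3 : N * (1 / (2 * k)) / (16 * k) ≤ N * Q F / (16 * k) := by
      apply div_le_div_of_nonneg_right _ (by positivity)
      exact mul_le_mul_of_nonneg_left h2 hN.le
    refine le_trans ?_ h3
    rw [le_div_iff₀ (by positivity), mul_one_div, le_div_iff₀ (by positivity)]
    have h4 : 4 * (k : ℚ) * (16 * k) * (2 * k) ≤ 3200 * (k : ℚ) ^ 5 * (k + 1) := by
      have a : (1 : ℚ) ≤ k ^ 2 := by nlinarith
      have b : 128 * (k : ℚ) ^ 3 ≤ 128 * (k : ℚ) ^ 3 * k ^ 2 := by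
        have := mul_le_mul_of_nonneg_left a (by positivity : (0 : ℚ) ≤ 128 * (k : ℚ) ^ 3)
        linarith
      have c : 128 * (k : ℚ) ^ 5 ≤ 3200 * (k : ℚ) ^ 5 * (k + 1) := by
        have := mul_le_mul_of_nonneg_left (by linarith : (128 : ℚ) ≤ 3200 * (k + 1))
          (by positivity : (0 : ℚ) ≤ (k : ℚ) ^ 5)
        linarith
      calc 4 * (k : ℚ) * (16 * k) * (2 * k) = 128 * (k : ℚ) ^ 3 := by ring
        _ ≤ 128 * (k : ℚ) ^ 3 * k ^ 2 := b
        _ = 128 * (k : ℚ) ^ 5 := by ring
        _ ≤ _ := c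
    linarith
  -- two singletons
  have htwo : ∀ G : Finset (Finset (Fin (2 * k))), Q G = Q F → Admissible G → 
      (∑ i ∈ NS (2 * k), (lev F i).card) = (∑ i ∈ NS (2 * k), (lev G i).card) →
      2 ≤ (lev G 1).card → (F.card : ℚ) ≤ N + 2 := by
    intro G hGQ hGa hcard h2
    obtain ⟨A, hA, B, hB', hAB⟩ := one_lt_card.1 h2
    rw [mem_lev] at hA hB'
    obtain ⟨x, rfl⟩ := card_eq_one.1 hA.2
    obtain ⟨y, rfl⟩ := card_eq_one.1 hB'.2
    have hxy : x ≠ y := fun h => hAB (by rw [h])
    have hn := near_two hGa hk hxy hA.1 hB'.1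
    rw [← hcard, hGQ, ← hNdef] at hn
    by_cases hq : 1 / (50 * (k : ℚ) ^ 3 * (k + 1)) ≤ Q F
    · apply hlarge
      have h3 : N * (1 / (50 * (k : ℚ) ^ 3 * (k + 1))) / (16 * k) ≤ N * Q F / (16 * k) := by
        apply div_le_div_of_nonneg_right _ (by positivity)
        exact mul_le_mul_of_nonneg_left hq hN.le
      refine le_trans ?_ h3
      rw [le_div_iff₀ (by positivity), mul_one_div, le_div_iff₀ (by positivity)]
      refine le_trans (le_of_eq ?_) hB
      ring
    · push Not at hq
      have h4 : Q F * (50 * (k : ℚ) ^ 3 * (k + 1)) ≤ 1 := by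
        rw [lt_div_iff₀ (by positivity)] at hq
        exact hq.le
      have h5 : N * Q F / (16 * k) ≤ N * ((k : ℚ) ^ 3 * Q F) := by
        rw [div_le_iff₀ (by positivity)]
        have a : (1 : ℚ) ≤ 16 * k ^ 4 := by
          have : (1 : ℚ) ≤ k ^ 4 := one_le_pow₀ (by linarith)
          linarith
        have b : 0 ≤ N * Q F := by positivity
        have := mul_le_mul_of_nonneg_left a b
        nlinarith
      have h6 : N * ((k : ℚ) ^ 3 * Q F) ≤ N * (1 / (50 * (k + 1))) := by
        apply mul_le_mul_of_nonneg_left _ hN.le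
        rw [le_div_iff₀ (by positivity)]
        linarith
      have h7 : N * (k / ((k : ℚ) + 1) + 24 * (k : ℚ) ^ 3 * Q F) ≤
          N * (k / ((k : ℚ) + 1)) + 24 * (N * (1 / (50 * (k + 1)))) := by
        rw [mul_add]
        have : N * (24 * (k : ℚ) ^ 3 * Q F) = 24 * (N * ((k : ℚ) ^ 3 * Q F)) := by ring
        rw [this]
        linarith
      have h8 : N * (k / ((k : ℚ) + 1)) + 25 * (N * (1 / (50 * (k + 1)))) = N - N / (2 * (k + 1)) := by
        field_simp
        ring
      have h9 : 4 * (k : ℚ) ≤ N / (2 * (k + 1)) := by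
        rw [le_div_iff₀ (by positivity)]
        refine le_trans ?_ hB
        have a : (1 : ℚ) ≤ k ^ 4 := one_le_pow₀ (by linarith)
        have b : 4 * (k : ℚ) * (2 * (k + 1)) ≤ 4 * (k : ℚ) * (2 * (k + 1)) * (400 * k ^ 4) := by
          have := mul_le_mul_of_nonneg_left (by linarith : (1 : ℚ) ≤ 400 * k ^ 4)
            (by positivity : (0 : ℚ) ≤ 4 * (k : ℚ) * (2 * (k + 1)))
          linarith
        refine b.trans (le_of_eq ?_)
        ring
      linarith
  have hdcard : (∑ i ∈ NS (2 * k), (lev F i).card) = (∑ i ∈ NS (2 * k), (lev (dual F) i).card) := by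
    apply sum_nbij' (fun i => 2 * k - i) (fun i => 2 * k - i)
    · intro i hi; rw [mem_NS] at *; omega
    · intro i hi; rw [mem_NS] at *; omega
    · intro i hi; rw [mem_NS] at hi; omega
    · intro i hi; rw [mem_NS] at hi; omega
    · intro i hi
      rw [mem_NS] at hi
      rw [card_lev_dual F (by omega), Nat.sub_sub_self (by omega)]
  by_cases c1 : 2 ≤ (lev F 1).card
  · exact htwo F rfl hF rfl c1
  by_cases c2 : 2 ≤ (lev (dual F) 1).card
  · exact htwo (dual F) (Q_dual F) hF.dual hdcard c2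
  have hex : ∀ G : Finset (Finset (Fin (2 * k))), 1 ≤ (lev G 1).card → ∃ x, {x} ∈ G := by
    intro G h
    obtain ⟨A, hA⟩ := card_pos.1 (by omega : 0 < (lev G 1).card)
    rw [mem_lev] at hA
    obtain ⟨x, rfl⟩ := card_eq_one.1 hA.2
    exact ⟨x, hA.1⟩
  have hem : ∀ G : Finset (Finset (Fin (2 * k))), 1 ≤ (lev G 0).card → ∅ ∈ G := by
    intro G h
    obtain ⟨A, hA⟩ := card_pos.1 (by omega : 0 < (lev G 0).card)
    rw [mem_lev] at hA
    rw [card_eq_zero] at hA
    rw [← hA.2]; exact hA.1
  by_cases c3 : 1 ≤ (lev F 0).card ∧ 1 ≤ (lev F 1).card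
  · exact hpoint F rfl (hem F c3.1) hF (hex F c3.2)
  by_cases c4 : 1 ≤ (lev (dual F) 0).card ∧ 1 ≤ (lev (dual F) 1).card
  · exact hpoint (dual F) (P0_dual F) (hem _ c4.1) hF.dual (hex _ c4.2)
  have hE2 : (E : ℚ) ≤ 2 := by
    have : E ≤ 2 := by omega
    exact_mod_cast this
  linarith

end Pool.Agent.Lib_MP_b87ef1_x77
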