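import Pool.Agent.Lib_MP_b87ef1_x77.Num

/-!
The constructions and the exact value.
-/

namespace Pool.Agent.Lib_MP_b87ef1_x77

open Finset

/-- Any admissible family bounds `f n` from below. -/
lemma card_le_f {n : ℕ} (F : Finset (Finset (Fin n))) (hF : Admissible F) : F.card ≤ f n := by
  apply le_csSup
  · refine ⟨Fintype.card (Finset (Fin n)), ?_⟩
    rintro k ⟨G, -, rfl⟩
    exact Finset.card_le_univ G
  · exact ⟨F, hF, rfl⟩

/-- An upper bound for all admissible families bounds `f n` from above. -/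
lemma f_le {n m : ℕ} (h : ∀ F : Finset (Finset (Fin n)), Admissible F → F.card ≤ m) : f n ≤ m := by
  apply csSup_le
  · refine ⟨0, ∅, ?_, rfl⟩
    intro A hA
    simp at hA
  · rintro k ⟨F, hF, rfl⟩
    exact h F hF

/-- The family for `n = 2 * m + 2`. -/
def fam (m : ℕ) : Finset (Finset (Fin (2 * m + 2))) :=
  univ.filter fun A => (0 ∉ A ∧ A.card = m) ∨ (0 ∈ A ∧ A.card = m + 2) ∨ A = {0} ∨ A = univ.erase 0

lemma fam_compl {m : ℕ} {A : Finset (Fin (2 * m + 2))} (hA : A ∈ fam m) : Aᶜ ∈ fam m := by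
  have hc : A.card + Aᶜ.card = 2 * m + 2 := by
    rw [Finset.card_add_card_compl]; simp
  simp only [fam, mem_filter, mem_univ, true_and] at hA ⊢
  rcases hA with ⟨h0, h⟩ | ⟨h0, h⟩ | h | h
  · right; left; exact ⟨by simpa using h0, by omega⟩
  · left; exact ⟨by simpa using h0, by omega⟩
  · right; right; right; subst h; ext i; simp
  · right; right; left; subst h; ext i; simp

/-- In the family, no two distinct members have a union equal to a third one. -/
lemma fam_union {m : ℕ} (hm : 1 ≤ m) {A B C : Finset (Fin (2 * m + 2))}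
    (hA : A ∈ fam m) (hB : B ∈ fam m) (hC : C ∈ fam m) (hAC : A ≠ C) (hBC : B ≠ C) :
    A ∪ B ≠ C := by
  intro hU
  have hAs : A ⊂ C := by
    refine ⟨?_, ?_⟩
    · rw [← hU]; exact subset_union_left
    · intro h; exact hAC (Finset.Subset.antisymm (by rw [← hU]; exact subset_union_left) h)
  have hBs : B ⊂ C := by
    refine ⟨?_, ?_⟩
    · rw [← hU]; exact subset_union_right
    · intro h; exact hBC (Finset.Subset.antisymm (by rw [← hU]; exact subset_union_right) h)
  have hcA := Finset.card_lt_card hAs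
  have hcB := Finset.card_lt_card hBs
  have hcU : C.card ≤ A.card + B.card := by rw [← hU]; exact card_union_le A B
  have hE : (univ.erase (0 : Fin (2 * m + 2))).card = 2 * m + 1 := by
    rw [card_erase_of_mem (mem_univ _)]; simp
  have h0A : (0 : Fin (2 * m + 2)) ∈ A → (0 : Fin (2 * m + 2)) ∈ C := fun h => hAs.1 h
  have h0B : (0 : Fin (2 * m + 2)) ∈ B → (0 : Fin (2 * m + 2)) ∈ C := fun h => hBs.1 h
  have h0C : (0 : Fin (2 * m + 2)) ∈ C → (0 : Fin (2 * m + 2)) ∈ A ∨ (0 : Fin (2 * m + 2)) ∈ B := by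
    intro h; rw [← hU] at h; exact mem_union.1 h
  simp only [fam, mem_filter, mem_univ, true_and] at hA hB hC
  have key : ∀ D : Finset (Fin (2 * m + 2)),
      (0 ∉ D ∧ D.card = m) ∨ (0 ∈ D ∧ D.card = m + 2) ∨ D = {0} ∨ D = univ.erase 0 →
      (0 ∉ D ∧ D.card = m) ∨ (0 ∈ D ∧ D.card = m + 2) ∨ (0 ∈ D ∧ D.card = 1 ∧ D = {0}) ∨
        (0 ∉ D ∧ D.card = 2 * m + 1) := by
    intro D hD
    rcases hD with h | h | h | h
    · exact Or.inl h
    · exact Or.inr (Or.inl h)
    · right; right; left; subst h; simp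
    · right; right; right; subst h; exact ⟨by simp, hE⟩
  have kA := key A hA
  have kB := key B hB
  have kC := key C hC
  clear key
  rcases kC with ⟨c0, c1⟩ | ⟨c0, c1⟩ | ⟨c0, c1, c2⟩ | ⟨c0, c1⟩ <;>
  rcases kA with ⟨a0, a1⟩ | ⟨a0, a1⟩ | ⟨a0, a1, a2⟩ | ⟨a0, a1⟩ <;>
  rcases kB with ⟨b0, b1⟩ | ⟨b0, b1⟩ | ⟨b0, b1, b2⟩ | ⟨b0, b1⟩ <;>
  first
  | omega
  | exact c0 (h0A a0)
  | exact c0 (h0B b0)
  | exact (h0C c0).elim a0 b0

lemma fam_admissible {m : ℕ} (hm : 1 ≤ m) : Admissible (fam m) := by
  intro A hA B hB C hC hAB hAC hBC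
  refine ⟨fam_union hm hA hB hC hAC hBC, ?_⟩
  intro h
  have := fam_union hm (fam_compl hA) (fam_compl hB) (fam_compl hC)
    (fun h => hAC (compl_injective h))
    (fun h => hBC (compl_injective h))
  apply this
  rw [← h, Finset.compl_inter]

lemma le_card_fam {m : ℕ} (hm : 1 ≤ m) : (2 * m + 2).choose (m + 1) + 2 ≤ (fam m).card := by
  classical
  have hE : (univ.erase (0 : Fin (2 * m + 2))).card = 2 * m + 1 := by
    rw [card_erase_of_mem (mem_univ _)]; simp
  set P : Finset (Finset (Fin (2 * m + 2))) := powersetCard m (univ.erase 0) with hP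
  set Q : Finset (Finset (Fin (2 * m + 2))) := P.image compl with hQ
  have memP : ∀ A, A ∈ P ↔ (0 ∉ A ∧ A.card = m) := by
    intro A
    rw [hP, mem_powersetCard]
    constructor
    · rintro ⟨h1, h2⟩
      exact ⟨fun h => by simpa using h1 h, h2⟩
    · rintro ⟨h1, h2⟩
      exact ⟨fun i hi => by
        rw [mem_erase]
        exact ⟨fun h => h1 (h ▸ hi), mem_univ _⟩, h2⟩
  have memQ : ∀ A, A ∈ Q → (0 ∈ A ∧ A.card = m + 2) := by
    intro A hA
    rw [hQ, mem_image] at hA
    obtain ⟨B, hB, rfl⟩ := hA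
    rw [memP] at hB
    have hc : B.card + Bᶜ.card = 2 * m + 2 := by
      rw [Finset.card_add_card_compl]; simp
    exact ⟨by simpa using hB.1, by omega⟩
  have cP : P.card = (2 * m + 1).choose m := by
    rw [hP, card_powersetCard, hE]
  have cQ : Q.card = (2 * m + 1).choose m := by
    rw [hQ, card_image_of_injective _ compl_injective, cP]
  have hch : (2 * m + 2).choose (m + 1) = (2 * m + 1).choose m + (2 * m + 1).choose m := by
    rw [Nat.choose_succ_succ' (2 * m + 1) m]
    congr 1
    exact (Nat.choose_symm_half m)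
  have d1 : Disjoint P Q := by
    rw [Finset.disjoint_left]
    intro A h1 h2
    exact ((memP A).1 h1).1 (memQ A h2).1
  set R : Finset (Finset (Fin (2 * m + 2))) := {{0}, univ.erase 0} with hR
  have cR : R.card = 2 := by
    rw [hR, card_pair]
    intro h
    have : (0 : Fin (2 * m + 2)) ∈ univ.erase (0 : Fin (2 * m + 2)) := by
      rw [← h]; simp
    simp at this
  have d2 : Disjoint (P ∪ Q) R := by
    rw [Finset.disjoint_left]
    intro A h1 h2
    rw [hR, mem_insert, mem_singleton] at h2
    rw [mem_union] at h1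
    rcases h2 with rfl | rfl
    · rcases h1 with h1 | h1
      · exact ((memP _).1 h1).1 (by simp)
      · have := (memQ _ h1).2
        rw [card_singleton] at this
        omega
    · rcases h1 with h1 | h1
      · have := ((memP _).1 h1).2
        omega
      · have := (memQ _ h1).1
        simp at this
  have hsub : (P ∪ Q) ∪ R ⊆ fam m := by
    intro A hA
    rw [mem_union, mem_union] at hA
    simp only [fam, mem_filter, mem_univ, true_and]
    rcases hA with (hA | hA) | hA
    · exact Or.inl ((memP A).1 hA)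
    · exact Or.inr (Or.inl (memQ A hA))
    · rw [hR, mem_insert, mem_singleton] at hA
      exact Or.inr (Or.inr hA)
  calc (2 * m + 2).choose (m + 1) + 2 = ((P ∪ Q) ∪ R).card := by
        rw [card_union_of_disjoint d2, card_union_of_disjoint d1, cP, cQ, cR, hch]
    _ ≤ (fam m).card := card_le_card hsub

/-- The lower bound for even `n`. -/
lemma even_lower {k : ℕ} (hk : 2 ≤ k) : (2 * k).choose k + 2 ≤ f (2 * k) := by
  obtain ⟨m, rfl⟩ : ∃ m, k = m + 1 := ⟨k - 1, by omega⟩
  exact (le_card_fam (by omega)).trans (card_le_f _ (fam_admissible (by omega)))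

/-- The family for odd `n`. -/
def ofam (k : ℕ) : Finset (Finset (Fin (2 * k + 1))) :=
  univ.filter fun A => (0 ∈ A ∧ A.card = k + 1) ∨ (0 ∉ A ∧ A.card = k)

lemma ofam_admissible (k : ℕ) : Admissible (ofam k) := by
  intro A hA B hB C hC hAB hAC hBC
  simp only [ofam, mem_filter, mem_univ, true_and] at hA hB hC
  constructor
  · intro h
    have h1 : A ⊂ C := (ssubset_iff_subset_ne).2 ⟨by rw [← h]; exact subset_union_left, hAC⟩
    have h2 : B ⊂ C := (ssubset_iff_subset_ne).2 ⟨by rw [← h]; exact subset_union_right, hBC⟩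
    have c1 := card_lt_card h1
    have c2 := card_lt_card h2
    rcases hC with ⟨h0, hc⟩ | ⟨h0, hc⟩
    · rw [← h, mem_union] at h0
      rcases hA with ⟨a0, ac⟩ | ⟨a0, ac⟩
      · omega
      · rcases hB with ⟨b0, bc⟩ | ⟨b0, bc⟩
        · omega
        · exact h0.elim a0 b0
    · rcases hA with ⟨a0, ac⟩ | ⟨a0, ac⟩ <;> omega
  · intro h
    have h1 : C ⊂ A := (ssubset_iff_subset_ne).2 ⟨by rw [← h]; exact inter_subset_left, fun e => hAC e.symm⟩
    have h2 : C ⊂ B := (ssubset_iff_subset_ne).2 ⟨by rw [← h]; exact inter_subset_right, fun e => hBC e.symm⟩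
    have c1 := card_lt_card h1
    have c2 := card_lt_card h2
    rcases hC with ⟨h0, hc⟩ | ⟨h0, hc⟩
    · rcases hA with ⟨a0, ac⟩ | ⟨a0, ac⟩ <;> omega
    · rw [← h, mem_inter] at h0
      rcases hA with ⟨a0, ac⟩ | ⟨a0, ac⟩
      · rcases hB with ⟨b0, bc⟩ | ⟨b0, bc⟩
        · exact h0 ⟨a0, b0⟩
        · omega
      · omega

lemma ofam_card (k : ℕ) : 2 * (2 * k).choose k ≤ (ofam k).card := by
  classical
  have hE : (univ.erase (0 : Fin (2 * k + 1))).card = 2 * k := by
    rw [card_erase_of_mem (mem_univ _)]; simp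
  set P : Finset (Finset (Fin (2 * k + 1))) := powersetCard k (univ.erase 0) with hP
  have memP : ∀ A, A ∈ P ↔ (0 ∉ A ∧ A.card = k) := by
    intro A
    rw [hP, mem_powersetCard]
    constructor
    · rintro ⟨h1, h2⟩
      exact ⟨fun h => by simpa using h1 h, h2⟩
    · rintro ⟨h1, h2⟩
      exact ⟨fun i hi => by
        rw [mem_erase]
        exact ⟨fun h => h1 (h ▸ hi), mem_univ _⟩, h2⟩
  have cP : P.card = (2 * k).choose k := by rw [hP, card_powersetCard, hE]
  have cQ : (P.image compl).card = (2 * k).choose k := by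
    rw [card_image_of_injective _ compl_injective, cP]
  have memQ : ∀ A, A ∈ P.image compl → (0 ∈ A ∧ A.card = k + 1) := by
    intro A hA
    rw [mem_image] at hA
    obtain ⟨B, hB, rfl⟩ := hA
    rw [memP] at hB
    have hc : B.card + Bᶜ.card = 2 * k + 1 := by
      rw [Finset.card_add_card_compl]; simp
    exact ⟨by simpa using hB.1, by omega⟩
  have d1 : Disjoint P (P.image compl) := by
    rw [Finset.disjoint_left]
    intro A h1 h2
    exact ((memP A).1 h1).1 (memQ A h2).1
  have hsub : P ∪ P.image compl ⊆ ofam k := by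
    intro A hA
    rw [mem_union] at hA
    simp only [ofam, mem_filter, mem_univ, true_and]
    rcases hA with hA | hA
    · exact Or.inr ((memP A).1 hA)
    · exact Or.inl (memQ A hA)
  calc 2 * (2 * k).choose k = (P ∪ P.image compl).card := by
        rw [card_union_of_disjoint d1, cP, cQ]; ring
    _ ≤ (ofam k).card := card_le_card hsub

theorem even_exact {k : ℕ} (hk : 81 ≤ k) : f (2 * k) = (2 * k).choose k + 2 := by
  apply le_antisymm
  · apply f_le
    intro F hF
    apply even_upper hF (by omega)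
    · have h := far_sum (n := 2 * k) (by omega)
      rw [half_two_mul] at h
      refine h.trans (le_of_eq ?_)
      push_cast
      congr 1
      ring
    · exact big_even (by omega)
  · exact even_lower (by omega)

theorem odd_exact {k : ℕ} (hk : 80 ≤ k) : f (2 * k + 1) = 2 * (2 * k).choose k := by
  apply le_antisymm
  · apply f_le
    intro F hF
    apply odd_upper hF (by omega)
    · have h := far_sum (n := 2 * k + 1) (by omega)
      rw [half_two_mul_add] at h
      refine h.trans (le_of_eq ?_)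
      push_cast
      ring
    · exact big_odd (by omega)
  · exact (ofam_card k).trans (card_le_f _ (ofam_admissible k))

end Pool.Agent.Lib_MP_b87ef1_x77
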