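import Pool.Agent.Lib_MP_b87ef1_x77.Ekr

/-!
The weighted chain inequality.
-/

namespace Pool.Agent.Lib_MP_b87ef1_x77

open Finset Equiv

variable {n : ℕ}

/-- The near levels. -/
def NS (n : ℕ) : Finset ℕ := (range (n + 1)).filter (fun i => n ≤ 3 * i ∧ 3 * i ≤ 2 * n)

lemma mem_NS {i : ℕ} : i ∈ NS n ↔ n ≤ 3 * i ∧ 3 * i ≤ 2 * n := by
  simp only [NS, mem_filter, mem_range]
  omega

/-- The near levels below the middle. -/
def NL (n : ℕ) : Finset ℕ := (range (n + 1)).filter (fun i => n ≤ 3 * i ∧ 2 * i < n)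

lemma mem_NL {i : ℕ} : i ∈ NL n ↔ n ≤ 3 * i ∧ 2 * i < n := by
  simp only [NL, mem_filter, mem_range]
  omega

/-- The distance to the middle. -/
def dd (n i : ℕ) : ℕ := ((n : ℤ) - 2 * i).natAbs

/-- The weight of a level. -/
noncomputable def wt (n : ℕ) (I : Finset ℕ) (i : ℕ) : ℚ :=
  1 / 2 * (ind (∃ c ∈ I, dd n c < dd n i) + ind (∃ c ∈ I, c ≠ i ∧ dd n c ≤ dd n i))

lemma wt_nonneg (n : ℕ) (I : Finset ℕ) (i : ℕ) : 0 ≤ wt n I i := by
  unfold wt
  have := ind_nonneg (∃ c ∈ I, dd n c < dd n i)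
  have := ind_nonneg (∃ c ∈ I, c ≠ i ∧ dd n c ≤ dd n i)
  positivity

lemma weight_sum (n : ℕ) (I : Finset ℕ) :
    (I.card : ℚ) ≤ ind I.Nonempty + ∑ i ∈ I, wt n I i := by
  classical
  rcases I.eq_empty_or_nonempty with rfl | hI
  · simp [ind_nonneg]
  rw [ind_of hI]
  obtain ⟨m, hm, hmin⟩ := exists_min_image I (dd n) hI
  set J := I.filter (fun i => dd n i = dd n m) with hJ
  have hJ2 : J.card ≤ 2 := by
    have : J ⊆ {m, n - m} := by
      intro i hi
      rw [hJ, mem_filter] at hi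
      rw [mem_insert, mem_singleton]
      have := hi.2
      unfold dd at this
      omega
    exact (card_le_card this).trans card_le_two
  have key : ∀ i ∈ I, (1 : ℚ) - wt n I i ≤ if i ∈ J then (1 - 1 / 2 * ind (1 < J.card)) else 0 := by
    intro i hi
    by_cases hiJ : i ∈ J
    · rw [if_pos hiJ]
      by_cases h1 : 1 < J.card
      · obtain ⟨c, hc, hci⟩ := exists_mem_ne h1 i
        have hc' := hc
        rw [hJ, mem_filter] at hc hiJ
        have : ind (∃ c ∈ I, c ≠ i ∧ dd n c ≤ dd n i) = 1 :=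
          ind_of ⟨c, hc.1, hci, by rw [hc.2, hiJ.2]⟩
        unfold wt
        rw [this, ind_of h1]
        have := ind_nonneg (∃ c ∈ I, dd n c < dd n i)
        linarith
      · rw [ind_not h1]
        have := wt_nonneg n I i
        linarith
    · rw [if_neg hiJ]
      have hlt : dd n m < dd n i := by
        have h1 := hmin i hi
        have h2 : dd n i ≠ dd n m := fun h => hiJ (by rw [hJ, mem_filter]; exact ⟨hi, h⟩)
        omega
      have h1 : ind (∃ c ∈ I, dd n c < dd n i) = 1 := ind_of ⟨m, hm, hlt⟩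
      have h2 : ind (∃ c ∈ I, c ≠ i ∧ dd n c ≤ dd n i) = 1 :=
        ind_of ⟨m, hm, fun h => by rw [h] at hlt; exact lt_irrefl _ hlt, hlt.le⟩
      unfold wt
      rw [h1, h2]
      norm_num
  have hsum := sum_le_sum key
  rw [sum_sub_distrib, sum_const, nsmul_eq_mul, mul_one] at hsum
  have hfin : (∑ i ∈ I, if i ∈ J then (1 - 1 / 2 * ind (1 < J.card)) else (0 : ℚ)) ≤ 1 := by
    rw [← sum_filter]
    have : I.filter (fun i => i ∈ J) = J := by
      ext i
      rw [mem_filter]
      exact ⟨fun h => h.2, fun h => ⟨(mem_filter.1 (hJ ▸ h)).1, h⟩⟩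
    rw [this, sum_const, nsmul_eq_mul]
    have hq : (J.card : ℚ) ≤ 2 := by exact_mod_cast hJ2
    by_cases h1 : 1 < J.card
    · rw [ind_of h1]
      linarith
    · rw [ind_not h1]
      have : (J.card : ℚ) ≤ 1 := by exact_mod_cast (by omega : J.card ≤ 1)
      linarith
  linarith

/-- The near levels at which the chain meets the family. -/
def lvs (F : Finset (Finset (Fin n))) (σ : Perm (Fin n)) : Finset ℕ :=
  (NS n).filter (fun i => pre σ i ∈ F)

lemma mem_lvs {F : Finset (Finset (Fin n))} {σ : Perm (Fin n)} {i : ℕ} :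
    i ∈ lvs F σ ↔ (n ≤ 3 * i ∧ 3 * i ≤ 2 * n) ∧ pre σ i ∈ F := by
  simp [lvs, mem_NS]

lemma main1 (F : Finset (Finset (Fin n))) :
    ∑ i ∈ NS n, xl F i ≤ Ex (fun σ => ind (lvs F σ).Nonempty) +
      ∑ i ∈ NS n, Ex (fun σ => ind (pre σ i ∈ F) * wt n (lvs F σ) i) := by
  unfold xl
  rw [← Ex_sum, ← Ex_sum, ← Ex_add]
  apply Ex_mono
  intro σ
  have h1 : ∑ i ∈ NS n, ind (pre σ i ∈ F) = ((lvs F σ).card : ℚ) := by
    rw [lvs, card_filter]
    push_cast
    refine sum_congr rfl fun i _ => ?_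
    by_cases h : pre σ i ∈ F
    · rw [ind_of h, if_pos h]
    · rw [ind_not h, if_neg h]
  have h2 : ∑ i ∈ NS n, ind (pre σ i ∈ F) * wt n (lvs F σ) i = ∑ i ∈ lvs F σ, wt n (lvs F σ) i := by
    conv_rhs => rw [lvs, sum_filter]
    refine sum_congr rfl fun i _ => ?_
    by_cases h : pre σ i ∈ F
    · rw [ind_of h, if_pos h, one_mul]; rfl
    · rw [ind_not h, if_neg h, zero_mul]
  rw [h1, h2]
  exact weight_sum n _

/-- The bound for the weight of a low level. -/
noncomputable def lowW (F : Finset (Finset (Fin n))) (i : ℕ) : ℚ :=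
  1 / 2 * ∑ A ∈ lev F i, (H F A (n - 2 * i - 1) + H F A (n - 2 * i))

lemma lowW_eq (F : Finset (Finset (Fin n))) {i : ℕ} (hi : i ≤ n) :
    lowW F i = Ex (fun σ => 1 / 2 *
      (ind (pre σ i ∈ F ∧ ∃ c, i < c ∧ c ≤ i + (n - 2 * i - 1) ∧ pre σ c ∈ F) +
       ind (pre σ i ∈ F ∧ ∃ c, i < c ∧ c ≤ i + (n - 2 * i) ∧ pre σ c ∈ F))) := by
  rw [Ex_mul, Ex_add, Ex_split F hi, Ex_split F hi, lowW, sum_add_distrib]
  congr 2
  · refine sum_congr rfl fun A hA => ?_
    unfold H
    rw [(mem_lev.1 hA).2]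
  · refine sum_congr rfl fun A hA => ?_
    unfold H
    rw [(mem_lev.1 hA).2]

lemma low_bound (F : Finset (Finset (Fin n))) {i : ℕ} (h2 : 2 * i < n) :
    Ex (fun σ => ind (pre σ i ∈ F) * wt n (lvs F σ) i) ≤ lowW F i := by
  rw [lowW_eq F (by omega)]
  apply Ex_mono
  intro σ
  by_cases hF : pre σ i ∈ F
  · rw [ind_of hF, one_mul, wt]
    have e1 : ind (∃ c ∈ lvs F σ, dd n c < dd n i) ≤
        ind (pre σ i ∈ F ∧ ∃ c, i < c ∧ c ≤ i + (n - 2 * i - 1) ∧ pre σ c ∈ F) := by
      apply ind_mono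
      rintro ⟨c, hc, hd⟩
      rw [mem_lvs] at hc
      unfold dd at hd
      exact ⟨hF, c, by omega, by omega, hc.2⟩
    have e2 : ind (∃ c ∈ lvs F σ, c ≠ i ∧ dd n c ≤ dd n i) ≤
        ind (pre σ i ∈ F ∧ ∃ c, i < c ∧ c ≤ i + (n - 2 * i) ∧ pre σ c ∈ F) := by
      apply ind_mono
      rintro ⟨c, hc, hne, hd⟩
      rw [mem_lvs] at hc
      unfold dd at hd
      exact ⟨hF, c, by omega, by omega, hc.2⟩
    linarith
  · rw [ind_not hF, zero_mul]
    have e1 := ind_nonneg (pre σ i ∈ F ∧ ∃ c, i < c ∧ c ≤ i + (n - 2 * i - 1) ∧ pre σ c ∈ F)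
    have e2 := ind_nonneg (pre σ i ∈ F ∧ ∃ c, i < c ∧ c ≤ i + (n - 2 * i) ∧ pre σ c ∈ F)
    linarith

lemma pre_rev_mem' {F : Finset (Finset (Fin n))} {σ : Perm (Fin n)} {i : ℕ} (hi : i ≤ n) :
    pre (rev σ) i ∈ F ↔ pre σ (n - i) ∈ dual F := by
  rw [pre_rev σ hi, mem_dual]

lemma mem_lvs_rev {F : Finset (Finset (Fin n))} {σ : Perm (Fin n)} {c : ℕ} :
    c ∈ lvs F (rev σ) ↔ c ≤ n ∧ n - c ∈ lvs (dual F) σ := by
  rw [mem_lvs, mem_lvs]
  constructor
  · rintro ⟨⟨h1, h2⟩, h3⟩
    exact ⟨by omega, ⟨by omega, by omega⟩, (pre_rev_mem' (by omega)).1 h3⟩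
  · rintro ⟨h0, ⟨h1, h2⟩, h3⟩
    exact ⟨⟨by omega, by omega⟩, (pre_rev_mem' (by omega)).2 h3⟩

lemma wt_rev (F : Finset (Finset (Fin n))) (σ : Perm (Fin n)) {i : ℕ} (hi : i ≤ n) :
    wt n (lvs F (rev σ)) i = wt n (lvs (dual F) σ) (n - i) := by
  unfold wt
  congr 2
  · apply ind_congr
    constructor
    · rintro ⟨c, hc, hd⟩
      rw [mem_lvs_rev] at hc
      refine ⟨n - c, hc.2, ?_⟩
      unfold dd at *
      omega
    · rintro ⟨c, hc, hd⟩
      have hcn : c ≤ n := by
        rw [mem_lvs] at hc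
        omega
      refine ⟨n - c, mem_lvs_rev.2 ⟨by omega, by rwa [Nat.sub_sub_self hcn]⟩, ?_⟩
      unfold dd at *
      omega
  · apply ind_congr
    constructor
    · rintro ⟨c, hc, hne, hd⟩
      rw [mem_lvs_rev] at hc
      refine ⟨n - c, hc.2, by omega, ?_⟩
      unfold dd at *
      omega
    · rintro ⟨c, hc, hne, hd⟩
      have hcn : c ≤ n := by
        rw [mem_lvs] at hc
        omega
      refine ⟨n - c, mem_lvs_rev.2 ⟨by omega, by rwa [Nat.sub_sub_self hcn]⟩, by omega, ?_⟩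
      unfold dd at *
      omega

lemma high_bound (F : Finset (Finset (Fin n))) {i : ℕ} (hi : i ≤ n) (h2 : n < 2 * i) :
    Ex (fun σ => ind (pre σ i ∈ F) * wt n (lvs F σ) i) ≤ lowW (dual F) (n - i) := by
  rw [← Ex_rev]
  refine le_trans (le_of_eq ?_) (low_bound (dual F) (i := n - i) (by omega))
  apply Ex_congr
  intro σ
  rw [wt_rev F σ hi, ind_congr (pre_rev_mem' hi)]

lemma mid_bound (F : Finset (Finset (Fin n))) {i : ℕ} (h2 : n = 2 * i) :
    Ex (fun σ => ind (pre σ i ∈ F) * wt n (lvs F σ) i) = 0 := by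
  rw [← Ex_const (n := n) 0]
  apply Ex_congr
  intro σ
  have : wt n (lvs F σ) i = 0 := by
    unfold wt
    rw [ind_not, ind_not]
    · norm_num
    · rintro ⟨c, hc, hne, hd⟩
      unfold dd at hd
      omega
    · rintro ⟨c, hc, hd⟩
      unfold dd at hd
      omega
  rw [this, mul_zero]

/-- Splitting a sum over the near levels. -/
lemma sum_NS (g : ℕ → ℚ) : ∑ i ∈ NS n, g i =
    (∑ i ∈ NL n, (g i + g (n - i))) + if Even n then g (n / 2) else 0 := by
  have h1 : NS n = (NL n ∪ (NL n).image (fun i => n - i)) ∪ (if Even n then {n / 2} else ∅) := by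
    ext i
    rw [mem_union, mem_union, mem_image, mem_NS]
    by_cases he : Even n
    · rw [if_pos he, mem_singleton, mem_NL]
      obtain ⟨m, hm⟩ := he
      constructor
      · rintro ⟨h1, h2⟩
        rcases lt_trichotomy (2 * i) n with h | h | h
        · left; left; omega
        · right; omega
        · left; right; exact ⟨n - i, mem_NL.2 (by omega), by omega⟩
      · rintro ((h | ⟨j, hj, rfl⟩) | h)
        · omega
        · rw [mem_NL] at hj; omega
        · omega
    · rw [if_neg he, mem_NL]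
      simp only [notMem_empty, or_false]
      rw [Nat.not_even_iff_odd] at he
      obtain ⟨m, hm⟩ := he
      constructor
      · rintro ⟨h1, h2⟩
        rcases lt_trichotomy (2 * i) n with h | h | h
        · left; omega
        · omega
        · right; exact ⟨n - i, mem_NL.2 (by omega), by omega⟩
      · rintro (h | ⟨j, hj, rfl⟩)
        · omega
        · rw [mem_NL] at hj; omega
  have d1 : Disjoint (NL n) ((NL n).image (fun i => n - i)) := by
    rw [disjoint_left]
    intro i hi hi'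
    rw [mem_image] at hi'
    obtain ⟨j, hj, rfl⟩ := hi'
    rw [mem_NL] at hi hj
    omega
  have d2 : Disjoint (NL n ∪ (NL n).image (fun i => n - i)) (if Even n then {n / 2} else ∅) := by
    rw [disjoint_left]
    intro i hi hi'
    by_cases he : Even n
    · rw [if_pos he, mem_singleton] at hi'
      obtain ⟨m, hm⟩ := he
      rw [mem_union, mem_image] at hi
      rcases hi with hi | ⟨j, hj, rfl⟩
      · rw [mem_NL] at hi; omega
      · rw [mem_NL] at hj; omega
    · rw [if_neg he] at hi'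
      simp at hi'
  rw [h1, sum_union d2, sum_union d1, sum_image, sum_add_distrib]
  · congr 1
    split_ifs <;> simp
  · intro i hi j hj h
    rw [mem_coe, mem_NL] at hi hj
    simp only at h
    omega

/-- The relative cost of a level. -/
noncomputable def cost (n i : ℕ) : ℚ := 1 - (n.choose i : ℚ) / (n.choose (n / 2) : ℚ)

/-- The balance of a low level. -/
noncomputable def Phi (F : Finset (Finset (Fin n))) (i : ℕ) : ℚ := lowW F i - cost n i * xl F i

lemma N_pos : (0 : ℚ) < (n.choose (n / 2) : ℚ) := by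
  exact_mod_cast Nat.choose_pos (Nat.div_le_self n 2)

theorem main2 (F : Finset (Finset (Fin n))) :
    ((∑ i ∈ NS n, (lev F i).card : ℕ) : ℚ) ≤ (n.choose (n / 2) : ℚ) *
      (Ex (fun σ => ind (lvs F σ).Nonempty) + ∑ i ∈ NL n, (Phi F i + Phi (dual F) i)) := by
  have h1 := main1 F
  have h2 : ∑ i ∈ NS n, Ex (fun σ => ind (pre σ i ∈ F) * wt n (lvs F σ) i) ≤
      ∑ i ∈ NL n, (lowW F i + lowW (dual F) i) := by
    rw [sum_NS]
    have hz : (if Even n then Ex (fun σ => ind (pre σ (n / 2) ∈ F) * wt n (lvs F σ) (n / 2)) else 0) = 0 := by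
      split_ifs with he
      · obtain ⟨m, hm⟩ := he
        exact mid_bound F (by omega)
      · rfl
    rw [hz, add_zero]
    apply sum_le_sum
    intro i hi
    rw [mem_NL] at hi
    have e1 := low_bound F (i := i) (by omega)
    have e2 := high_bound F (i := n - i) (by omega) (by omega)
    rw [Nat.sub_sub_self (by omega)] at e2
    linarith
  have h3 : ((∑ i ∈ NS n, (lev F i).card : ℕ) : ℚ) =
      (n.choose (n / 2) : ℚ) * (∑ i ∈ NS n, xl F i - ∑ i ∈ NS n, cost n i * xl F i) := by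
    push_cast
    rw [← sum_sub_distrib, mul_sum]
    apply sum_congr rfl
    intro i hi
    rw [mem_NS] at hi
    rw [card_lev F (by omega), cost]
    have := (N_pos (n := n)).ne'
    field_simp
    ring
  have h4 : ∑ i ∈ NS n, cost n i * xl F i =
      ∑ i ∈ NL n, (cost n i * xl F i + cost n i * xl (dual F) i) := by
    rw [sum_NS]
    have hz : (if Even n then cost n (n / 2) * xl F (n / 2) else 0) = 0 := by
      split_ifs with he
      · have : cost n (n / 2) = 0 := by
          unfold cost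
          rw [div_self (N_pos (n := n)).ne', sub_self]
        rw [this, zero_mul]
      · rfl
    rw [hz, add_zero]
    apply sum_congr rfl
    intro i hi
    rw [mem_NL] at hi
    rw [xl_dual F (by omega)]
    have : cost n (n - i) = cost n i := by
      unfold cost
      rw [Nat.choose_symm (by omega)]
    rw [this]
  rw [h3, h4]
  apply mul_le_mul_of_nonneg_left _ N_pos.le
  have h5 : ∑ i ∈ NL n, (Phi F i + Phi (dual F) i) = ∑ i ∈ NL n, (lowW F i + lowW (dual F) i) -
      ∑ i ∈ NL n, (cost n i * xl F i + cost n i * xl (dual F) i) := by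
    rw [← sum_sub_distrib]
    apply sum_congr rfl
    intro i _
    unfold Phi
    ring
  rw [h5]
  linarith

end Pool.Agent.Lib_MP_b87ef1_x77
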