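import Pool.Agent.Lib_MP_b87ef1_x77.OddFin

/-!
Numerical estimates for binomial coefficients.
-/

namespace Pool.Agent.Lib_MP_b87ef1_x77

open Finset

lemma sum_choose_le {n : ℕ} : ∀ a, 3 * a ≤ n + 1 → ∑ i ∈ range (a + 1), n.choose i ≤ 2 * n.choose a := by
  intro a
  induction a with
  | zero => intro _; simp
  | succ a ih =>
    intro h
    rw [sum_range_succ]
    have h1 := ih (by omega)
    have h2 : 2 * n.choose a ≤ n.choose (a + 1) := by
      have h3 := Nat.choose_succ_right_eq n a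
      have h4 : 2 * n.choose a * (a + 1) ≤ n.choose (a + 1) * (a + 1) := by
        rw [h3]
        have h5 : 2 * (a + 1) ≤ n - a := by omega
        calc 2 * n.choose a * (a + 1) = n.choose a * (2 * (a + 1)) := by ring
          _ ≤ n.choose a * (n - a) := Nat.mul_le_mul_left _ h5
      exact Nat.le_of_mul_le_mul_right h4 (by omega)
    omega

lemma sum_FL {n : ℕ} (hn : 1 ≤ n) : ∑ i ∈ FL n, n.choose i ≤ 2 * n.choose ((n - 1) / 3) := by
  have h : FL n = range ((n - 1) / 3 + 1) := by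
    ext i
    rw [mem_FL, mem_range]
    omega
  rw [h]
  exact sum_choose_le _ (by omega)

/-- Six-step recursion for central-type coefficients. -/
lemma step_h (n h : ℕ) (hh : h ≤ n) :
    (n + 6).choose (h + 3) * (((h + 1) * (h + 2) * (h + 3)) *
      ((n - h + 1) * (n - h + 2) * (n - h + 3))) =
    n.choose h * ((n + 1) * (n + 2) * (n + 3) * (n + 4) * (n + 5) * (n + 6)) := by
  have a1 := Nat.add_one_mul_choose_eq n h
  have a2 := Nat.add_one_mul_choose_eq (n + 1) (h + 1)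
  have a3 := Nat.add_one_mul_choose_eq (n + 2) (h + 2)
  have b1 := Nat.choose_mul_succ_eq (n + 3) (h + 3)
  have b2 := Nat.choose_mul_succ_eq (n + 4) (h + 3)
  have b3 := Nat.choose_mul_succ_eq (n + 5) (h + 3)
  have e1 : n + 3 + 1 - (h + 3) = n - h + 1 := by omega
  have e2 : n + 4 + 1 - (h + 3) = n - h + 2 := by omega
  have e3 : n + 5 + 1 - (h + 3) = n - h + 3 := by omega
  rw [e1] at b1
  rw [e2] at b2
  rw [e3] at b3
  simp only [Nat.add_assoc] at *
  norm_num at *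
  calc (n + 6).choose (h + 3) * (((h + 1) * (h + 2) * (h + 3)) *
      ((n - h + 1) * (n - h + 2) * (n - h + 3)))
      = ((n + 6).choose (h + 3) * (n - h + 3)) * (n - h + 2) * (n - h + 1) *
        ((h + 1) * (h + 2) * (h + 3)) := by ring
    _ = ((n + 5).choose (h + 3) * (n - h + 2)) * (n - h + 1) * (n + 6) *
        ((h + 1) * (h + 2) * (h + 3)) := by rw [← b3]; ring
    _ = ((n + 4).choose (h + 3) * (n - h + 1)) * (n + 5) * (n + 6) *
        ((h + 1) * (h + 2) * (h + 3)) := by rw [← b2]; ring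
    _ = ((n + 3).choose (h + 3) * (h + 3)) * (h + 2) * (h + 1) * ((n + 4) * (n + 5) * (n + 6)) := by
        rw [← b1]; ring
    _ = ((n + 2).choose (h + 2) * (h + 2)) * (h + 1) * ((n + 3) * (n + 4) * (n + 5) * (n + 6)) := by
        rw [← a3]; ring
    _ = ((n + 1).choose (h + 1) * (h + 1)) * ((n + 2) * (n + 3) * (n + 4) * (n + 5) * (n + 6)) := by
        rw [← a2]; ring
    _ = _ := by rw [← a1]; ring

lemma step_a (n a : ℕ) (ha : a ≤ n) :
    (n + 6).choose (a + 2) * (((a + 1) * (a + 2)) *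
      ((n - a + 1) * (n - a + 2) * (n - a + 3) * (n - a + 4))) =
    n.choose a * ((n + 1) * (n + 2) * (n + 3) * (n + 4) * (n + 5) * (n + 6)) := by
  have a1 := Nat.add_one_mul_choose_eq n a
  have a2 := Nat.add_one_mul_choose_eq (n + 1) (a + 1)
  have b0 := Nat.choose_mul_succ_eq (n + 2) (a + 2)
  have b1 := Nat.choose_mul_succ_eq (n + 3) (a + 2)
  have b2 := Nat.choose_mul_succ_eq (n + 4) (a + 2)
  have b3 := Nat.choose_mul_succ_eq (n + 5) (a + 2)
  have e0 : n + 2 + 1 - (a + 2) = n - a + 1 := by omega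
  have e1 : n + 3 + 1 - (a + 2) = n - a + 2 := by omega
  have e2 : n + 4 + 1 - (a + 2) = n - a + 3 := by omega
  have e3 : n + 5 + 1 - (a + 2) = n - a + 4 := by omega
  rw [e0] at b0
  rw [e1] at b1
  rw [e2] at b2
  rw [e3] at b3
  simp only [Nat.add_assoc] at *
  norm_num at *
  calc (n + 6).choose (a + 2) * (((a + 1) * (a + 2)) *
      ((n - a + 1) * (n - a + 2) * (n - a + 3) * (n - a + 4)))
      = ((n + 6).choose (a + 2) * (n - a + 4)) * ((n - a + 3) * (n - a + 2) * (n - a + 1)) *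
        ((a + 1) * (a + 2)) := by ring
    _ = ((n + 5).choose (a + 2) * (n - a + 3)) * ((n - a + 2) * (n - a + 1)) * (n + 6) *
        ((a + 1) * (a + 2)) := by rw [← b3]; ring
    _ = ((n + 4).choose (a + 2) * (n - a + 2)) * (n - a + 1) * ((n + 5) * (n + 6)) *
        ((a + 1) * (a + 2)) := by rw [← b2]; ring
    _ = ((n + 3).choose (a + 2) * (n - a + 1)) * ((n + 4) * (n + 5) * (n + 6)) *
        ((a + 1) * (a + 2)) := by rw [← b1]; ring
    _ = ((n + 2).choose (a + 2) * (a + 2)) * (a + 1) * ((n + 3) * (n + 4) * (n + 5) * (n + 6)) := by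
        rw [← b0]; ring
    _ = ((n + 1).choose (a + 1) * (a + 1)) * ((n + 2) * (n + 3) * (n + 4) * (n + 5) * (n + 6)) := by
        rw [← a2]; ring
    _ = _ := by rw [← a1]; ring

/-- The polynomial inequality behind the recursion. -/
lemma poly_ineq {n h a : ℕ} (hn : 161 ≤ n) (hh : h = n / 2) (ha : a = (n - 1) / 3) :
    ((n + 6 : ℕ) : ℚ) * ((((h + 1) * (h + 2) * (h + 3)) *
      ((n - h + 1) * (n - h + 2) * (n - h + 3)) : ℕ) : ℚ) ≤
    (n : ℚ) * ((((a + 1) * (a + 2)) *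
      ((n - a + 1) * (n - a + 2) * (n - a + 3) * (n - a + 4)) : ℕ) : ℚ) := by
  obtain ⟨b, hb⟩ : ∃ b, b = n - h := ⟨_, rfl⟩
  obtain ⟨c, hc⟩ : ∃ c, c = n - a := ⟨_, rfl⟩
  rw [← hb, ← hc]
  have h1 : h + b = n := by omega
  have h3 : n ≤ 3 * a + 3 := by omega
  have h4 : 2 * n + 1 ≤ 3 * c := by omega
  have q1 : (h : ℚ) + b = n := by exact_mod_cast h1
  have q3 : (n : ℚ) ≤ 3 * a + 3 := by exact_mod_cast h3
  have q4 : 2 * (n : ℚ) + 1 ≤ 3 * c := by exact_mod_cast h4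
  have qn : (161 : ℚ) ≤ n := by exact_mod_cast hn
  have qh : (0 : ℚ) ≤ h := by positivity
  have qb : (0 : ℚ) ≤ b := by positivity
  push_cast
  set N : ℚ := (n : ℚ) with hN
  have am : ∀ j : ℚ, 0 ≤ j → ((h : ℚ) + j) * ((b : ℚ) + j) ≤ ((N + 2 * j) / 2) ^ 2 := by
    intro j _
    rw [← q1]
    nlinarith [sq_nonneg ((h : ℚ) - b)]
  have m1 := am 1 (by norm_num)
  have m2 := am 2 (by norm_num)
  have m3 := am 3 (by norm_num)
  have L : ((h : ℚ) + 1) * (h + 2) * (h + 3) * (((b : ℚ) + 1) * (b + 2) * (b + 3)) ≤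
      ((N + 2 * 1) / 2) ^ 2 * ((N + 2 * 2) / 2) ^ 2 * ((N + 2 * 3) / 2) ^ 2 := by
    calc ((h : ℚ) + 1) * (h + 2) * (h + 3) * (((b : ℚ) + 1) * (b + 2) * (b + 3))
        = (((h : ℚ) + 1) * (b + 1)) * (((h : ℚ) + 2) * (b + 2)) * (((h : ℚ) + 3) * (b + 3)) := by ring
      _ ≤ _ := by
        apply mul_le_mul (mul_le_mul m1 m2 (by positivity) (by positivity)) m3 (by positivity)
          (by positivity)
  have R : (N / 3) * ((N + 3) / 3) * (((2 * N + 4) / 3) * ((2 * N + 7) / 3) * ((2 * N + 10) / 3) *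
      ((2 * N + 13) / 3)) ≤ ((a : ℚ) + 1) * (a + 2) * (((c : ℚ) + 1) * (c + 2) * (c + 3) * (c + 4)) := by
    apply mul_le_mul
    · exact mul_le_mul (by linarith) (by linarith) (by positivity) (by positivity)
    · exact mul_le_mul (mul_le_mul (mul_le_mul (by linarith) (by linarith) (by positivity)
        (by linarith)) (by linarith) (by positivity) (by
          apply mul_nonneg <;> linarith)) (by linarith) (by positivity) (by
          apply mul_nonneg
          · apply mul_nonneg <;> linarith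
          · linarith)
    · positivity
    · positivity
  have K : (N + 6) * (((N + 2 * 1) / 2) ^ 2 * ((N + 2 * 2) / 2) ^ 2 * ((N + 2 * 3) / 2) ^ 2) ≤
      N * ((N / 3) * ((N + 3) / 3) * (((2 * N + 4) / 3) * ((2 * N + 7) / 3) * ((2 * N + 10) / 3) *
      ((2 * N + 13) / 3))) := by
    obtain ⟨t, ht⟩ : ∃ t : ℚ, N = t + 161 := ⟨N - 161, by ring⟩
    have ht0 : 0 ≤ t := by linarith
    rw [ht, ← sub_nonneg]
    ring_nf
    positivity
  calc (N + 6) * (((h : ℚ) + 1) * (h + 2) * (h + 3) * (((b : ℚ) + 1) * (b + 2) * (b + 3)))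
      ≤ (N + 6) * (((N + 2 * 1) / 2) ^ 2 * ((N + 2 * 2) / 2) ^ 2 * ((N + 2 * 3) / 2) ^ 2) :=
        mul_le_mul_of_nonneg_left L (by positivity)
    _ ≤ _ := K
    _ ≤ _ := mul_le_mul_of_nonneg_left R (by positivity)

lemma num_step {n : ℕ} (hn : 161 ≤ n) (ih : 64 * n * n.choose ((n - 1) / 3) ≤ n.choose (n / 2)) :
    64 * (n + 6) * (n + 6).choose ((n + 6 - 1) / 3) ≤ (n + 6).choose ((n + 6) / 2) := by
  have e1 : (n + 6) / 2 = n / 2 + 3 := by omega
  have e2 : (n + 6 - 1) / 3 = (n - 1) / 3 + 2 := by omega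
  rw [e1, e2]
  have s1 := step_h n (n / 2) (by omega)
  have s2 := step_a n ((n - 1) / 3) (by omega)
  have p := poly_ineq hn rfl rfl
  set h := n / 2 with hh
  set a := (n - 1) / 3 with ha
  set Dh := ((h + 1) * (h + 2) * (h + 3)) * ((n - h + 1) * (n - h + 2) * (n - h + 3)) with hDh
  set Da := ((a + 1) * (a + 2)) * ((n - a + 1) * (n - a + 2) * (n - a + 3) * (n - a + 4)) with hDa
  set M := (n + 1) * (n + 2) * (n + 3) * (n + 4) * (n + 5) * (n + 6) with hM
  have pos1 : 0 < Dh := by positivity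
  have pos2 : 0 < Da := by positivity
  have q1 : ((n + 6).choose (h + 3) : ℚ) * Dh = (n.choose h : ℚ) * M := by exact_mod_cast s1
  have q2 : ((n + 6).choose (a + 2) : ℚ) * Da = (n.choose a : ℚ) * M := by exact_mod_cast s2
  have qi : 64 * (n : ℚ) * (n.choose a : ℚ) ≤ (n.choose h : ℚ) := by exact_mod_cast ih
  have hDh0 : (0 : ℚ) < Dh := by exact_mod_cast pos1
  have hDa0 : (0 : ℚ) < Da := by exact_mod_cast pos2
  have hM0 : (0 : ℚ) ≤ M := by positivity
  have goal : 64 * ((n : ℚ) + 6) * ((n + 6).choose (a + 2) : ℚ) ≤ ((n + 6).choose (h + 3) : ℚ) := by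
    have f1 : ((n + 6).choose (h + 3) : ℚ) = (n.choose h : ℚ) * M / Dh := by
      rw [eq_div_iff hDh0.ne']; exact q1
    have f2 : ((n + 6).choose (a + 2) : ℚ) = (n.choose a : ℚ) * M / Da := by
      rw [eq_div_iff hDa0.ne']; exact q2
    rw [f1, f2, mul_div_assoc', div_le_div_iff₀ hDa0 hDh0]
    have g1 : 64 * (n.choose a : ℚ) * M * (((n : ℚ) + 6) * Dh) ≤
        64 * (n.choose a : ℚ) * M * ((n : ℚ) * Da) := by
      apply mul_le_mul_of_nonneg_left _ (by positivity)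
      push_cast at p
      exact p
    have g2 : (64 * (n : ℚ) * (n.choose a : ℚ)) * (M * Da) ≤ (n.choose h : ℚ) * (M * Da) :=
      mul_le_mul_of_nonneg_right qi (by positivity)
    linarith
  exact_mod_cast goal

lemma num_base {n : ℕ} (h1 : 161 ≤ n) (h2 : n ≤ 166) :
    64 * n * n.choose ((n - 1) / 3) ≤ n.choose (n / 2) := by
  rw [Nat.choose_eq_factorial_div_factorial (by omega : (n - 1) / 3 ≤ n),
    Nat.choose_eq_factorial_div_factorial (by omega : n / 2 ≤ n)]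
  interval_cases n <;> decide +kernel

lemma num_main : ∀ n : ℕ, 161 ≤ n → 64 * n * n.choose ((n - 1) / 3) ≤ n.choose (n / 2) := by
  intro n
  induction n using Nat.strong_induction_on with
  | _ n ih =>
    intro hn
    by_cases h : n ≤ 166
    · exact num_base hn h
    · obtain ⟨m, rfl⟩ : ∃ m, n = m + 6 := ⟨n - 6, by omega⟩
      exact num_step (by omega) (ih m (by omega) (by omega))

/-- The far levels are negligible. -/
lemma far_sum {n : ℕ} (hn : 161 ≤ n) :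
    (∑ i ∈ FL n, (n.choose i : ℚ)) ≤ (n.choose (n / 2) : ℚ) / (32 * n) := by
  have h1 := sum_FL (n := n) (by omega)
  have h2 := num_main n hn
  have hn0 : (0 : ℚ) < n := by exact_mod_cast (by omega : 0 < n)
  have h1' : (∑ i ∈ FL n, (n.choose i : ℚ)) ≤ 2 * (n.choose ((n - 1) / 3) : ℚ) := by
    exact_mod_cast h1
  have h2' : 64 * (n : ℚ) * (n.choose ((n - 1) / 3) : ℚ) ≤ (n.choose (n / 2) : ℚ) := by
    exact_mod_cast h2
  rw [le_div_iff₀ (by positivity)]
  calc (∑ i ∈ FL n, (n.choose i : ℚ)) * (32 * n) ≤ 2 * (n.choose ((n - 1) / 3) : ℚ) * (32 * n) :=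
        mul_le_mul_of_nonneg_right h1' (by positivity)
    _ ≤ _ := by linarith

lemma pow_bound : ∀ k : ℕ, 80 ≤ k → 6400 * (k + 1) ^ 7 ≤ 4 ^ k := by
  intro k hk
  induction k, hk using Nat.le_induction with
  | base => norm_num
  | succ k hk ih =>
    have h1 : (k + 1 + 1) ^ 7 ≤ 4 * (k + 1) ^ 7 := by
      have h2 : 81 * (k + 1 + 1) ≤ 82 * (k + 1) := by omega
      have h3 := Nat.pow_le_pow_left h2 7
      rw [mul_pow, mul_pow] at h3
      have h4 : 82 ^ 7 ≤ 4 * 81 ^ 7 := by norm_num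
      have h5 : 81 ^ 7 * (k + 1 + 1) ^ 7 ≤ 81 ^ 7 * (4 * (k + 1) ^ 7) := by
        calc 81 ^ 7 * (k + 1 + 1) ^ 7 ≤ 82 ^ 7 * (k + 1) ^ 7 := h3
          _ ≤ (4 * 81 ^ 7) * (k + 1) ^ 7 := Nat.mul_le_mul_right _ h4
          _ = _ := by ring
      exact Nat.le_of_mul_le_mul_left h5 (by norm_num)
    calc 6400 * (k + 1 + 1) ^ 7 ≤ 6400 * (4 * (k + 1) ^ 7) := Nat.mul_le_mul_left _ h1
      _ = 4 * (6400 * (k + 1) ^ 7) := by ring
      _ ≤ 4 * 4 ^ k := Nat.mul_le_mul_left _ ih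
      _ = 4 ^ (k + 1) := by ring

lemma big_even {k : ℕ} (hk : 80 ≤ k) : 3200 * (k : ℚ) ^ 5 * (k + 1) ≤ ((2 * k).choose k : ℚ) := by
  have h1 := pow_bound k hk
  have h2 := Nat.four_pow_le_two_mul_self_mul_centralBinom k (by omega)
  have h3 : 6400 * (k + 1) ^ 7 ≤ 2 * k * (2 * k).choose k := h1.trans h2
  have h4 : 6400 * ((k : ℚ) + 1) ^ 7 ≤ 2 * k * ((2 * k).choose k : ℚ) := by exact_mod_cast h3
  have hk0 : (0 : ℚ) < k := by exact_mod_cast (by omega : 0 < k)
  have h5 : 2 * (k : ℚ) * (3200 * (k : ℚ) ^ 5 * (k + 1)) ≤ 6400 * ((k : ℚ) + 1) ^ 7 := by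
    have a : (k : ℚ) ^ 6 ≤ ((k : ℚ) + 1) ^ 6 := pow_le_pow_left₀ hk0.le (by linarith) 6
    have b := mul_le_mul_of_nonneg_right a (by positivity : (0 : ℚ) ≤ 6400 * ((k : ℚ) + 1))
    calc 2 * (k : ℚ) * (3200 * (k : ℚ) ^ 5 * (k + 1)) = (k : ℚ) ^ 6 * (6400 * ((k : ℚ) + 1)) := by ring
      _ ≤ ((k : ℚ) + 1) ^ 6 * (6400 * ((k : ℚ) + 1)) := b
      _ = _ := by ring
  exact le_of_mul_le_mul_left (h5.trans h4) (by positivity)

lemma big_odd {k : ℕ} (hk : 80 ≤ k) :
    60 * (2 * (k : ℚ) + 1) * (k + 1) ≤ ((2 * k + 1).choose k : ℚ) := by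
  have h1 := big_even hk
  have h2 : ((2 * k).choose k : ℚ) ≤ ((2 * k + 1).choose k : ℚ) := by
    exact_mod_cast Nat.choose_le_choose k (by omega : 2 * k ≤ 2 * k + 1)
  refine le_trans ?_ (h1.trans h2)
  have hk0 : (80 : ℚ) ≤ k := by exact_mod_cast hk
  have a : (1 : ℚ) ≤ (k : ℚ) ^ 4 := one_le_pow₀ (by linarith)
  have b : 180 * (k : ℚ) * (k + 1) ≤ 3200 * (k : ℚ) ^ 5 * (k + 1) := by
    have := mul_le_mul_of_nonneg_left a (by positivity : (0 : ℚ) ≤ 3200 * (k : ℚ) * (k + 1))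
    nlinarith
  have c : 60 * (2 * (k : ℚ) + 1) * (k + 1) ≤ 180 * (k : ℚ) * (k + 1) := by nlinarith
  exact c.trans b

end Pool.Agent.Lib_MP_b87ef1_x77
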