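import Pool.Agent.Lib_MP_b87ef1_x77.EvenFin

/-!
The odd case: the local structure above a member.
-/

namespace Pool.Agent.Lib_MP_b87ef1_x77

open Finset Equiv

/-- The members `j` above `A`. -/
def GG {n : ℕ} (F : Finset (Finset (Fin n))) (A : Finset (Fin n)) (j : ℕ) :
    Finset (Finset (Fin n)) := F.filter (fun C => A ⊆ C ∧ C.card = A.card + j)

lemma mem_GG {n : ℕ} {F : Finset (Finset (Fin n))} {A C : Finset (Fin n)} {j : ℕ} :
    C ∈ GG F A j ↔ C ∈ F ∧ A ⊆ C ∧ C.card = A.card + j := by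
  simp [GG]

lemma H_succ {n : ℕ} (F : Finset (Finset (Fin n))) (A : Finset (Fin n)) (t : ℕ)
    (hn : A.card + (t + 1) ≤ n) :
    H F A (t + 1) ≤ H F A t + ((GG F A (t + 1)).card : ℚ) /
        ((n.choose A.card : ℚ) * ((n - A.card).choose (t + 1) : ℚ)) := by
  rw [← prob_family A (GG F A (t + 1)) (t + 1) (fun C hC => (mem_GG.1 hC).2)]
  unfold H
  rw [← Ex_add]
  apply Ex_mono
  intro σ
  by_cases h : pre σ A.card = A ∧ ∃ c, A.card < c ∧ c ≤ A.card + (t + 1) ∧ pre σ c ∈ F
  · rw [ind_of h]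
    obtain ⟨h1, c, h2, h3, h4⟩ := h
    have n1 := ind_nonneg (pre σ A.card = A ∧ ∃ c, A.card < c ∧ c ≤ A.card + t ∧ pre σ c ∈ F)
    have n2 := ind_nonneg (pre σ A.card = A ∧ pre σ (A.card + (t + 1)) ∈ GG F A (t + 1))
    rcases (by omega : c ≤ A.card + t ∨ c = A.card + (t + 1)) with h5 | h5
    · have : ind (pre σ A.card = A ∧ ∃ c, A.card < c ∧ c ≤ A.card + t ∧ pre σ c ∈ F) = 1 :=
        ind_of ⟨h1, c, h2, h5, h4⟩
      linarith
    · have : ind (pre σ A.card = A ∧ pre σ (A.card + (t + 1)) ∈ GG F A (t + 1)) = 1 := by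
        apply ind_of
        refine ⟨h1, ?_⟩
        rw [mem_GG]
        subst h5
        refine ⟨h4, ?_, card_pre σ hn⟩
        conv_lhs => rw [← h1]
        exact pre_mono σ (by omega)
      linarith
  · rw [ind_not h]
    exact add_nonneg (ind_nonneg _) (ind_nonneg _)

/-- Two members strictly above `A` meet outside `A`. -/
lemma meet_outside {n : ℕ} {F : Finset (Finset (Fin n))} (hF : Admissible F) {A C C' : Finset (Fin n)}
    (hA : A ∈ F) (hC : C ∈ F) (hC' : C' ∈ F) (h : A ⊂ C) (h' : A ⊂ C') :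
    ∃ z, z ∈ C ∧ z ∈ C' ∧ z ∉ A := by
  by_contra hcon
  push Not at hcon
  have hint : C ∩ C' = A := by
    apply Finset.Subset.antisymm
    · intro x hx
      rw [mem_inter] at hx
      exact hcon x hx.1 hx.2
    · exact subset_inter h.1 h'.1
  by_cases hCC : C = C'
  · subst hCC
    rw [inter_self] at hint
    exact h.2 (by rw [hint])
  · exact (hF C hC C' hC' A hA hCC h.ne' h'.ne').2 hint

lemma GG_ssubset {n : ℕ} {F : Finset (Finset (Fin n))} {A C : Finset (Fin n)} {j : ℕ}
    (hj : 1 ≤ j) (hC : C ∈ GG F A j) : A ⊂ C := by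
  rw [mem_GG] at hC
  rw [Finset.ssubset_iff_subset_ne]
  refine ⟨hC.2.1, fun h => ?_⟩
  have := hC.2.2
  rw [← h] at this
  omega

/-- Members above `A` contain the unique member one above. -/
lemma above_one {n : ℕ} {F : Finset (Finset (Fin n))} (hF : Admissible F) {A : Finset (Fin n)}
    (hA : A ∈ F) {x : Fin n} (hx : x ∉ A) (hB : insert x A ∈ F) {C : Finset (Fin n)} {j : ℕ}
    (hj : 1 ≤ j) (hC : C ∈ GG F A j) : insert x A ⊆ C := by
  obtain ⟨z, hz1, hz2, hz3⟩ := meet_outside hF hA hB (mem_GG.1 hC).1 (ssubset_insert hx)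
    (GG_ssubset hj hC)
  rw [mem_insert] at hz1
  rcases hz1 with h | h
  · rw [h] at hz2
    exact insert_subset hz2 (mem_GG.1 hC).2.1
  · exact absurd h hz3

lemma GG_two_of_one {n : ℕ} {F : Finset (Finset (Fin n))} (hF : Admissible F) {A : Finset (Fin n)}
    (hA : A ∈ F) {x : Fin n} (hx : x ∉ A) (hB : insert x A ∈ F) : (GG F A 2).card ≤ 1 := by
  have hcB := card_insert_of_notMem hx
  rw [card_le_one]
  intro C hC C' hC'
  by_contra hne
  have m1 := above_one hF hA hx hB (by norm_num) hC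
  have m2 := above_one hF hA hx hB (by norm_num) hC'
  rw [mem_GG] at hC hC'
  apply (hF C hC.1 C' hC'.1 (insert x A) hB hne
    (fun h => by rw [h] at hC; omega) (fun h => by rw [h] at hC'; omega)).2
  symm
  apply eq_of_subset_of_card_le (subset_inter m1 m2)
  have h1 : (C ∩ C').card < C.card := by
    apply card_lt_card
    refine ⟨inter_subset_left, fun h => hne ?_⟩
    apply eq_of_subset_of_card_le (h.trans inter_subset_right)
    omega
  omega

lemma GG_three_of_one {n : ℕ} {F : Finset (Finset (Fin n))} (hF : Admissible F) {A : Finset (Fin n)}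
    (hA : A ∈ F) {x : Fin n} (hx : x ∉ A) (hB : insert x A ∈ F) (hn : A.card + 5 ≤ n) :
    (GG F A 3).card ≤ n - A.card - 2 := by
  have hcB := card_insert_of_notMem hx
  have h := ekr_mod (insert x A) (GG F A 3) 2 (by omega)
    (fun C hC => ⟨above_one hF hA hx hB (by norm_num) hC, by rw [(mem_GG.1 hC).2.2]; omega⟩)
    (fun C hC C' hC' => by
      have s1 : insert x A ⊂ C := by
        rw [Finset.ssubset_iff_subset_ne]
        refine ⟨above_one hF hA hx hB (by norm_num) hC, fun h => ?_⟩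
        have := (mem_GG.1 hC).2.2
        rw [← h] at this
        omega
      have s2 : insert x A ⊂ C' := by
        rw [Finset.ssubset_iff_subset_ne]
        refine ⟨above_one hF hA hx hB (by norm_num) hC', fun h => ?_⟩
        have := (mem_GG.1 hC').2.2
        rw [← h] at this
        omega
      exact meet_outside hF hB (mem_GG.1 hC).1 (mem_GG.1 hC').1 s1 s2)
  rw [Nat.choose_one_right] at h
  omega

lemma sdiff_two {n : ℕ} {A C : Finset (Fin n)} (h : A ⊆ C) (hc : C.card = A.card + 2) :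
    ∃ x y, x ≠ y ∧ x ∉ A ∧ y ∉ A ∧ C = insert y (insert x A) := by
  have h1 : (C \ A).card = 2 := by rw [card_sdiff_of_subset h, hc]; omega
  obtain ⟨x, y, hxy, he⟩ := card_eq_two.1 h1
  have hx : x ∈ C \ A := by rw [he]; simp
  have hy : y ∈ C \ A := by rw [he]; simp
  rw [mem_sdiff] at hx hy
  refine ⟨x, y, hxy, hx.2, hy.2, ?_⟩
  have := sdiff_union_of_subset h
  rw [he] at this
  rw [← this]
  ext z
  simp only [mem_union, mem_insert, mem_singleton]
  tauto

/-- Four pairs form a star. -/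
lemma star {n : ℕ} {F : Finset (Finset (Fin n))} (hF : Admissible F) {A : Finset (Fin n)}
    (hA : A ∈ F) (h4 : 4 ≤ (GG F A 2).card) : ∃ x, x ∉ A ∧ ∀ C ∈ GG F A 2, x ∈ C := by
  obtain ⟨C1, h1, C2, h2, h12⟩ := one_lt_card.1 (by omega : 1 < (GG F A 2).card)
  have m : ∀ C ∈ GG F A 2, ∀ C' ∈ GG F A 2, ∃ z, z ∈ C ∧ z ∈ C' ∧ z ∉ A := fun C hC C' hC' =>
    meet_outside hF hA (mem_GG.1 hC).1 (mem_GG.1 hC').1 (GG_ssubset (by norm_num) hC)
      (GG_ssubset (by norm_num) hC')
  obtain ⟨x, hx1, hx2, hxA⟩ := m C1 h1 C2 h2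
  by_contra hcon
  push Not at hcon
  obtain ⟨C3, h3, hx3⟩ := hcon x hxA
  -- representation of sets through two given points
  have rep : ∀ C ∈ GG F A 2, ∀ u v, u ∈ C → v ∈ C → u ≠ v → u ∉ A → v ∉ A →
      C = insert u (insert v A) := by
    intro C hC u v hu hv huv huA hvA
    symm
    apply eq_of_subset_of_card_le
    · exact insert_subset hu (insert_subset hv (mem_GG.1 hC).2.1)
    · rw [(mem_GG.1 hC).2.2, card_insert_of_notMem, card_insert_of_notMem hvA]
      rw [mem_insert, not_or]; exact ⟨huv, huA⟩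
  have other : ∀ C ∈ GG F A 2, x ∈ C → ∃ y, y ≠ x ∧ y ∉ A ∧ y ∈ C ∧ C = insert y (insert x A) := by
    intro C hC hxC
    have hs : insert x A ⊆ C := insert_subset hxC (mem_GG.1 hC).2.1
    obtain ⟨y, hy, hy'⟩ := card_insert_eq hs (by
      rw [(mem_GG.1 hC).2.2, card_insert_of_notMem hxA])
    rw [mem_insert, not_or] at hy
    exact ⟨y, hy.1, hy.2, by rw [hy']; exact mem_insert_self _ _, hy'⟩
  obtain ⟨y1, hy1x, hy1A, hy1C, e1⟩ := other C1 h1 hx1
  obtain ⟨y2, hy2x, hy2A, hy2C, e2⟩ := other C2 h2 hx2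
  have hy12 : y1 ≠ y2 := fun h => h12 (by rw [e1, e2, h])
  have through : ∀ C ∈ GG F A 2, x ∉ C → C = insert y1 (insert y2 A) := by
    intro C hC hxC
    apply rep C hC y1 y2 _ _ hy12 hy1A hy2A
    · obtain ⟨z, z1, z2, z3⟩ := m C hC C1 h1
      rw [e1, mem_insert, mem_insert] at z2
      rcases z2 with h | h | h
      · rwa [h] at z1
      · rw [h] at z1; exact absurd z1 hxC
      · exact absurd h z3
    · obtain ⟨z, z1, z2, z3⟩ := m C hC C2 h2
      rw [e2, mem_insert, mem_insert] at z2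
      rcases z2 with h | h | h
      · rwa [h] at z1
      · rw [h] at z1; exact absurd z1 hxC
      · exact absurd h z3
  have e3 := through C3 h3 hx3
  have hsub : GG F A 2 ⊆ {C1, C2, C3} := by
    intro C hC
    rw [mem_insert, mem_insert, mem_singleton]
    by_cases hxC : x ∈ C
    · obtain ⟨y, hyx, hyA, hyC, e⟩ := other C hC hxC
      obtain ⟨z, z1, z2, z3⟩ := m C hC C3 h3
      rw [e, mem_insert, mem_insert] at z1
      rw [e3, mem_insert, mem_insert] at z2
      rcases z1 with h | h | h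
      · rcases z2 with h' | h' | h'
        · left; rw [e, e1, ← h, h']
        · right; left; rw [e, e2, ← h, h']
        · exact absurd h' z3
      · rcases z2 with h' | h' | h'
        · exact absurd (h'.symm.trans h) hy1x
        · exact absurd (h'.symm.trans h) hy2x
        · exact absurd h' z3
      · exact absurd h z3
    · right; right; rw [e3]; exact through C hC hxC
  have := card_le_card hsub
  have h5 : ({C1, C2, C3} : Finset (Finset (Fin n))).card ≤ 3 := card_le_three
  omega

/-- The triples above a star of pairs. -/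
lemma star_count {n : ℕ} {F : Finset (Finset (Fin n))} (hF : Admissible F) {A : Finset (Fin n)}
    (hA : A ∈ F) (h4 : 4 ≤ (GG F A 2).card) :
    (GG F A 3).card + (GG F A 2).card.choose 2 ≤ (n - A.card - 1).choose 2 := by
  classical
  obtain ⟨x, hxA, hx⟩ := star hF hA h4
  have hcB := card_insert_of_notMem hxA
  set B := insert x A with hB
  set Y : Finset (Fin n) := Bᶜ.filter (fun y => insert y B ∈ F) with hY
  have hGY : (GG F A 2).card ≤ Y.card := by
    have : GG F A 2 ⊆ Y.image (fun y => insert y B) := by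
      intro C hC
      have hs : B ⊆ C := insert_subset (hx C hC) (mem_GG.1 hC).2.1
      obtain ⟨y, hy, hy'⟩ := card_insert_eq hs (by rw [(mem_GG.1 hC).2.2, hcB])
      rw [mem_image]
      refine ⟨y, ?_, hy'.symm⟩
      rw [hY, mem_filter, mem_compl]
      exact ⟨hy, hy' ▸ (mem_GG.1 hC).1⟩
    exact (card_le_card this).trans card_image_le
  have hY2 : ∀ y ∈ Y, y ∉ B ∧ insert y B ∈ F := by
    intro y hy
    rw [hY, mem_filter, mem_compl] at hy
    exact hy
  have hthree : ∀ C ∈ GG F A 3, B ⊆ C := by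
    intro C hC
    have hxC : x ∈ C := by
      by_contra hxC
      have hsub : Y ⊆ C \ A := by
        intro y hy
        obtain ⟨hy1, hy2⟩ := hY2 y hy
        have hyA : y ∉ A := fun h => hy1 (mem_insert_of_mem h)
        have hs : A ⊂ insert y B := by
          rw [Finset.ssubset_iff_subset_ne]
          refine ⟨(subset_insert x A).trans (subset_insert y B), fun h => hyA ?_⟩
          rw [h]; exact mem_insert_self _ _
        obtain ⟨z, z1, z2, z3⟩ := meet_outside hF hA (mem_GG.1 hC).1 hy2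
          (GG_ssubset (by norm_num) hC) hs
        rw [mem_insert, hB, mem_insert] at z2
        rcases z2 with h | h | h
        · rw [mem_sdiff]; rw [h] at z1; exact ⟨z1, hyA⟩
        · rw [h] at z1; exact absurd z1 hxC
        · exact absurd h z3
      have h1 := card_le_card hsub
      rw [card_sdiff_of_subset (mem_GG.1 hC).2.1, (mem_GG.1 hC).2.2] at h1
      omega
    exact insert_subset hxC (mem_GG.1 hC).2.1
  have hinj : Set.InjOn (fun C => C \ B) (GG F A 3 : Set (Finset (Fin n))) := by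
    intro C hC C' hC' h
    simp only at h
    rw [← sdiff_union_of_subset (hthree C hC), ← sdiff_union_of_subset (hthree C' hC'), h]
  have hdisj : Disjoint ((GG F A 3).image (fun C => C \ B)) (powersetCard 2 Y) := by
    rw [disjoint_left]
    intro D hD hD'
    rw [mem_image] at hD
    obtain ⟨C, hC, rfl⟩ := hD
    rw [mem_powersetCard] at hD'
    obtain ⟨hDY, hD2⟩ := hD'
    obtain ⟨y, z, hyz, he⟩ := card_eq_two.1 hD2
    have hy : y ∈ Y := hDY (by rw [he]; simp)
    have hz : z ∈ Y := hDY (by rw [he]; simp)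
    obtain ⟨hy1, hy2⟩ := hY2 y hy
    obtain ⟨hz1, hz2⟩ := hY2 z hz
    have hCe : C = {y, z} ∪ B := by rw [← he, sdiff_union_of_subset (hthree C hC)]
    have cy := card_insert_of_notMem hy1
    have cz := card_insert_of_notMem hz1
    have cC := (mem_GG.1 hC).2.2
    apply (hF _ hy2 _ hz2 C (mem_GG.1 hC).1 ?_ ?_ ?_).1
    · rw [hCe]
      ext w
      simp only [mem_union, mem_insert, mem_singleton]
      tauto
    · intro h
      have : y ∈ insert z B := by rw [← h]; exact mem_insert_self _ _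
      rw [mem_insert] at this
      exact this.elim hyz hy1
    · intro h; rw [h] at cy; omega
    · intro h; rw [h] at cz; omega
  have hsub : (GG F A 3).image (fun C => C \ B) ∪ powersetCard 2 Y ⊆ powersetCard 2 Bᶜ := by
    intro D hD
    rw [mem_union, mem_image] at hD
    rw [mem_powersetCard]
    rcases hD with ⟨C, hC, rfl⟩ | hD
    · refine ⟨fun w hw => ?_, ?_⟩
      · rw [mem_compl]; exact (mem_sdiff.1 hw).2
      · rw [card_sdiff_of_subset (hthree C hC), (mem_GG.1 hC).2.2, hcB]
        omega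
    · rw [mem_powersetCard] at hD
      exact ⟨hD.1.trans (filter_subset _ _), hD.2⟩
  have h1 := card_le_card hsub
  rw [card_union_of_disjoint hdisj, card_image_of_injOn hinj, card_powersetCard, card_powersetCard,
    card_compl, Fintype.card_fin, hcB] at h1
  have h2 : (GG F A 2).card.choose 2 ≤ Y.card.choose 2 := Nat.choose_le_choose 2 hGY
  have h3 : n - (A.card + 1) = n - A.card - 1 := by omega
  rw [h3] at h1
  omega

variable {k : ℕ}

/-- The weight of a member at level `k - 1`. -/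
lemma level_one_odd {F : Finset (Finset (Fin (2 * k + 1)))} (hF : Admissible F) (hk : 12 ≤ k)
    {A : Finset (Fin (2 * k + 1))} (hA : A ∈ lev F (k - 1)) :
    1 / 2 * (H F A 2 + H F A 3) ≤ 1 / ((2 * k + 1).choose (k - 1) : ℚ) *
      (11 / 5 / ((k : ℚ) + 2)) := by
  obtain ⟨hAF, hc⟩ := mem_lev.1 hA
  have hk0 : (0 : ℚ) < k := by exact_mod_cast (by omega : 0 < k)
  have hk12 : (12 : ℚ) ≤ k := by exact_mod_cast hk
  have p1 : (0 : ℚ) < ((2 * k + 1).choose (k - 1) : ℚ) := by
    exact_mod_cast Nat.choose_pos (by omega : k - 1 ≤ 2 * k + 1)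
  have hsub : 2 * k + 1 - A.card = k + 2 := by omega
  have hsub1 : 2 * k + 1 - A.card - 1 = k + 1 := by omega
  set X := 1 / ((2 * k + 1).choose (k - 1) : ℚ) with hX
  have hXpos : 0 < X := by positivity
  have e1 := H_le hF hAF (D := 1) (by omega)
  have e3 := H_le hF hAF (D := 3) (by omega)
  have s1 := H_succ F A 1 (by omega)
  have s2 := H_succ F A 2 (by omega)
  norm_num only [] at s1 s2
  rw [hsub, hc] at e1 e3 s1 s2
  rw [← hX] at e1 e3
  push_cast at e1 e3
  have c2 : ((k + 2).choose 2 : ℚ) = ((k : ℚ) + 2) * (k + 1) / 2 := by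
    rw [Nat.cast_choose_two]
    push_cast
    ring
  have c3 : ((k + 2).choose 3 : ℚ) = ((k : ℚ) + 2) * (k + 1) * k / 6 := by
    have h := Nat.add_one_mul_choose_eq (k + 1) 2
    have h' : ((k : ℚ) + 1 + 1) * ((k + 1).choose 2 : ℚ) = ((k + 2).choose 3 : ℚ) * (2 + 1) := by
      exact_mod_cast h
    rw [Nat.cast_choose_two] at h'
    push_cast at h'
    linarith
  have d2 : ((GG F A 2).card : ℚ) / (((2 * k + 1).choose (k - 1) : ℚ) * ((k + 2).choose 2 : ℚ)) =
      X * ((GG F A 2).card * (2 / (((k : ℚ) + 2) * (k + 1)))) := by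
    rw [c2, hX]; field_simp
  have d3 : ((GG F A 3).card : ℚ) / (((2 * k + 1).choose (k - 1) : ℚ) * ((k + 2).choose 3 : ℚ)) =
      X * ((GG F A 3).card * (6 / (((k : ℚ) + 2) * (k + 1) * k))) := by
    rw [c3, hX]; field_simp
  rw [d2] at s1
  rw [d3] at s2
  by_cases h : ∃ x, x ∉ A ∧ insert x A ∈ F
  · obtain ⟨x, hx, hxF⟩ := h
    have g2 : ((GG F A 2).card : ℚ) ≤ 1 := by exact_mod_cast GG_two_of_one hF hAF hx hxF
    have g3 : ((GG F A 3).card : ℚ) ≤ k := by
      have := GG_three_of_one hF hAF hx hxF (by omega)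
      rw [hsub] at this
      have h : (GG F A 3).card ≤ k := by omega
      exact_mod_cast h
    have b2 : X * ((GG F A 2).card * (2 / (((k : ℚ) + 2) * (k + 1)))) ≤
        X * (1 * (2 / (((k : ℚ) + 2) * (k + 1)))) :=
      mul_le_mul_of_nonneg_left (mul_le_mul_of_nonneg_right g2 (by positivity)) hXpos.le
    have b3 : X * ((GG F A 3).card * (6 / (((k : ℚ) + 2) * (k + 1) * k))) ≤
        X * (k * (6 / (((k : ℚ) + 2) * (k + 1) * k))) :=
      mul_le_mul_of_nonneg_left (mul_le_mul_of_nonneg_right g3 (by positivity)) hXpos.le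
    have hfin : X * (1 / ((k : ℚ) + 2)) + X * (1 * (2 / (((k : ℚ) + 2) * (k + 1)))) +
        1 / 2 * (X * (k * (6 / (((k : ℚ) + 2) * (k + 1) * k)))) ≤ X * (11 / 5 / ((k : ℚ) + 2)) := by
      have e : X * (1 / ((k : ℚ) + 2)) + X * (1 * (2 / (((k : ℚ) + 2) * (k + 1)))) +
        1 / 2 * (X * (k * (6 / (((k : ℚ) + 2) * (k + 1) * k)))) =
        X * ((1 + 5 / ((k : ℚ) + 1)) / ((k : ℚ) + 2)) := by
        field_simp
        ring
      rw [e]
      apply mul_le_mul_of_nonneg_left _ hXpos.le
      apply div_le_div_of_nonneg_right _ (by positivity)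
      have : 5 / ((k : ℚ) + 1) ≤ 6 / 5 := by
        rw [div_le_div_iff₀ (by positivity) (by norm_num)]
        linarith
      linarith
    linarith
  · push Not at h
    have e0 := H_one_zero F A (by omega) h
    rw [e0] at s1
    by_cases h4 : 4 ≤ (GG F A 2).card
    · have hst := star_count hF hAF h4
      rw [hsub1] at hst
      have hst' : ((GG F A 3).card : ℚ) + ((GG F A 2).card : ℚ) * ((GG F A 2).card - 1) / 2 ≤
          ((k : ℚ) + 1) * k / 2 := by
        have h' : ((GG F A 3).card : ℚ) + ((GG F A 2).card.choose 2 : ℚ) ≤ ((k + 1).choose 2 : ℚ) := by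
          exact_mod_cast hst
        rw [Nat.cast_choose_two, Nat.cast_choose_two] at h'
        push_cast at h'
        have e : ((k : ℚ) + 1) * (k + 1 - 1) / 2 = ((k : ℚ) + 1) * k / 2 := by ring
        rw [e] at h'
        exact h'
      set s := ((GG F A 2).card : ℚ) with hs
      have g3 : ((GG F A 3).card : ℚ) ≤ ((k : ℚ) + 1) * k / 2 - s * (s - 1) / 2 := by linarith
      have b3 : X * ((GG F A 3).card * (6 / (((k : ℚ) + 2) * (k + 1) * k))) ≤
          X * ((((k : ℚ) + 1) * k / 2 - s * (s - 1) / 2) * (6 / (((k : ℚ) + 2) * (k + 1) * k))) :=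
        mul_le_mul_of_nonneg_left (mul_le_mul_of_nonneg_right g3 (by positivity)) hXpos.le
      have hfin : X * (s * (2 / (((k : ℚ) + 2) * (k + 1)))) +
          1 / 2 * (X * ((((k : ℚ) + 1) * k / 2 - s * (s - 1) / 2) * (6 / (((k : ℚ) + 2) * (k + 1) * k)))) ≤
          X * (11 / 5 / ((k : ℚ) + 2)) := by
        have e : X * (s * (2 / (((k : ℚ) + 2) * (k + 1)))) +
          1 / 2 * (X * ((((k : ℚ) + 1) * k / 2 - s * (s - 1) / 2) * (6 / (((k : ℚ) + 2) * (k + 1) * k)))) =
          X * (((2 * s * k + 3 / 2 * (k * (k + 1)) - 3 / 2 * (s * (s - 1))) / (k * (k + 1))) / ((k : ℚ) + 2)) := by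
          field_simp
          ring
        rw [e]
        apply mul_le_mul_of_nonneg_left _ hXpos.le
        apply div_le_div_of_nonneg_right _ (by positivity)
        rw [div_le_iff₀ (by positivity)]
        nlinarith [sq_nonneg (3 * s - 2 * k - 3 / 2)]
      linarith
    · have g2 : ((GG F A 2).card : ℚ) ≤ 3 := by exact_mod_cast (by omega : (GG F A 2).card ≤ 3)
      have b2 : X * ((GG F A 2).card * (2 / (((k : ℚ) + 2) * (k + 1)))) ≤
          X * (3 * (2 / (((k : ℚ) + 2) * (k + 1)))) :=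
        mul_le_mul_of_nonneg_left (mul_le_mul_of_nonneg_right g2 (by positivity)) hXpos.le
      have hfin : 1 / 2 * (X * (3 * (2 / (((k : ℚ) + 2) * (k + 1)))) + X * (3 / ((k : ℚ) + 2))) ≤
          X * (11 / 5 / ((k : ℚ) + 2)) := by
        have e : 1 / 2 * (X * (3 * (2 / (((k : ℚ) + 2) * (k + 1)))) + X * (3 / ((k : ℚ) + 2))) =
          X * ((3 / ((k : ℚ) + 1) + 3 / 2) / ((k : ℚ) + 2)) := by
          field_simp
        rw [e]
        apply mul_le_mul_of_nonneg_left _ hXpos.le
        apply div_le_div_of_nonneg_right _ (by positivity)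
        have : 3 / ((k : ℚ) + 1) ≤ 1 / 2 := by
          rw [div_le_div_iff₀ (by positivity) (by norm_num)]
          linarith
        linarith
      linarith

end Pool.Agent.Lib_MP_b87ef1_x77
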