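import Pool.Agent.Lib_MP_b87ef1_x77.Odd

/-!
The odd case: assembly.
-/

namespace Pool.Agent.Lib_MP_b87ef1_x77

open Finset Equiv

variable {k : ℕ}

lemma half_two_mul_add : (2 * k + 1) / 2 = k := by omega

lemma v_km1_odd (hk : 1 ≤ k) : ((2 * k + 1).choose (k - 1) : ℚ) =
    ((2 * k + 1).choose k : ℚ) * (k / ((k : ℚ) + 2)) := by
  obtain ⟨j, rfl⟩ : ∃ j, k = j + 1 := ⟨k - 1, by omega⟩
  have h := choose_step (n := 2 * (j + 1) + 1) (i := j) (by omega)
  rw [Nat.add_sub_cancel]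
  push_cast at *
  have p : (0 : ℚ) < (j : ℚ) + 1 + 2 := by positivity
  rw [← mul_div_assoc, eq_div_iff p.ne']
  rw [← h]
  ring

/-- Both middle levels are hit. -/
noncomputable def zz (F : Finset (Finset (Fin (2 * k + 1)))) : ℚ :=
  Ex (fun σ => ind (pre σ k ∈ F ∧ pre σ (k + 1) ∈ F))

/-- Both middle levels are missed. -/
noncomputable def P1 (F : Finset (Finset (Fin (2 * k + 1)))) : ℚ :=
  Ex (fun σ => ind (pre σ k ∉ F ∧ pre σ (k + 1) ∉ F))

lemma P1_nonneg (F : Finset (Finset (Fin (2 * k + 1)))) : 0 ≤ P1 F := Ex_nonneg fun _ => ind_nonneg _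

lemma zz_dual (F : Finset (Finset (Fin (2 * k + 1)))) : zz (dual F) = zz F := by
  unfold zz
  rw [← Ex_rev]
  apply Ex_congr
  intro σ
  apply ind_congr
  rw [pre_rev_mem (by omega), pre_rev_mem (by omega)]
  have e1 : 2 * k + 1 - k = k + 1 := by omega
  have e2 : 2 * k + 1 - (k + 1) = k := by omega
  rw [e1, e2]
  exact and_comm

lemma P1_dual (F : Finset (Finset (Fin (2 * k + 1)))) : P1 (dual F) = P1 F := by
  unfold P1
  rw [← Ex_rev]
  apply Ex_congr
  intro σ
  apply ind_congr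
  rw [pre_rev_mem (by omega), pre_rev_mem (by omega)]
  have e1 : 2 * k + 1 - k = k + 1 := by omega
  have e2 : 2 * k + 1 - (k + 1) = k := by omega
  rw [e1, e2]
  exact and_comm

lemma zz_eq (F : Finset (Finset (Fin (2 * k + 1)))) : zz F = ∑ A ∈ lev F k, H F A 1 := by
  unfold zz
  rw [Ex_split F (by omega : k ≤ 2 * k + 1)]
  apply sum_congr rfl
  intro A hA
  have hc := (mem_lev.1 hA).2
  unfold H
  rw [hc]
  apply Ex_congr
  intro σ
  apply ind_congr
  constructor
  · rintro ⟨h1, h2⟩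
    exact ⟨h1, k + 1, by omega, by omega, h2⟩
  · rintro ⟨h1, c, h2, h3, h4⟩
    have : c = k + 1 := by omega
    exact ⟨h1, this ▸ h4⟩

lemma Phi_mid (F : Finset (Finset (Fin (2 * k + 1)))) : Phi F k = 1 / 2 * zz F := by
  unfold Phi lowW
  have hc : cost (2 * k + 1) k = 0 := by
    unfold cost
    rw [half_two_mul_add, div_self, sub_self]
    have : (0 : ℚ) < ((2 * k + 1).choose k : ℚ) := by exact_mod_cast Nat.choose_pos (by omega)
    exact this.ne'
  have e1 : 2 * k + 1 - 2 * k - 1 = 0 := by omega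
  have e2 : 2 * k + 1 - 2 * k = 1 := by omega
  rw [hc, e1, e2, zz_eq]
  have : ∀ A ∈ lev F k, H F A 0 + H F A 1 = H F A 1 := by
    intro A _
    rw [H_zero, zero_add]
  rw [sum_congr rfl this]
  ring

lemma zz_le {F : Finset (Finset (Fin (2 * k + 1)))} (hF : Admissible F) (hk : 1 ≤ k) :
    zz F ≤ xl F k / ((k : ℚ) + 1) := by
  rw [zz_eq, xl_eq F (by omega)]
  have : ∀ A ∈ lev F k, H F A 1 ≤ 1 / ((2 * k + 1).choose k : ℚ) * (1 / ((k : ℚ) + 1)) := by
    intro A hA
    obtain ⟨hA, hc⟩ := mem_lev.1 hA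
    have e := H_le hF hA (D := 1) (by omega)
    have h1 : 2 * k + 1 - k = k + 1 := by omega
    rw [hc, h1] at e
    push_cast at e
    exact e
  refine (sum_le_sum this).trans (le_of_eq ?_)
  rw [sum_const, nsmul_eq_mul]
  have p : (0 : ℚ) < ((2 * k + 1).choose k : ℚ) := by exact_mod_cast Nat.choose_pos (by omega)
  field_simp

lemma mid_identity (F : Finset (Finset (Fin (2 * k + 1)))) :
    xl F k + xl F (k + 1) - zz F = 1 - P1 F := by
  have : xl F k + xl F (k + 1) = zz F + (1 - P1 F) := by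
    unfold xl zz P1
    rw [← Ex_const (n := 2 * k + 1) 1, ← Ex_sub, ← Ex_add, ← Ex_add]
    apply Ex_congr
    intro σ
    by_cases h1 : pre σ k ∈ F
    · by_cases h2 : pre σ (k + 1) ∈ F
      · rw [ind_of h1, ind_of h2, ind_of ⟨h1, h2⟩, ind_not (fun h => h.1 h1)]
        norm_num
      · rw [ind_of h1, ind_not h2, ind_not (fun h => h2 h.2), ind_not (fun h => h.1 h1)]
        norm_num
    · by_cases h2 : pre σ (k + 1) ∈ F
      · rw [ind_not h1, ind_of h2, ind_not (fun h => h1 h.1), ind_not (fun h => h.2 h2)]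
        norm_num
      · rw [ind_not h1, ind_not h2, ind_not (fun h => h1 h.1), ind_of ⟨h1, h2⟩]
        norm_num
  linarith

lemma zz_main {F : Finset (Finset (Fin (2 * k + 1)))} (hF : Admissible F) (hk : 1 ≤ k) :
    (2 * (k : ℚ) + 1) * zz F ≤ 1 - P1 F := by
  have h1 := zz_le hF hk
  have h2 := zz_le hF.dual hk
  have e1 : 2 * k + 1 - k = k + 1 := by omega
  rw [zz_dual, xl_dual F (by omega), e1] at h2
  have h3 := mid_identity F
  have p : (0 : ℚ) < (k : ℚ) + 1 := by positivity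
  rw [le_div_iff₀ p] at h1 h2
  linarith

lemma Phi_low_odd {F : Finset (Finset (Fin (2 * k + 1)))} (hF : Admissible F) {i : ℕ}
    (h3 : 2 * k + 1 ≤ 3 * i) (hi : i + 2 ≤ k) : Phi F i ≤ 0 := by
  unfold Phi
  have e1 := lowW_le hF h3 (by omega)
  have hk : (0 : ℚ) < k := by exact_mod_cast (by omega : 0 < k)
  have hik : (i : ℚ) + 2 ≤ k := by exact_mod_cast hi
  have hi3 : (2 : ℚ) * k + 1 ≤ 3 * i := by exact_mod_cast h3
  have hst := choose_step (n := 2 * k + 1) (i := i) (by omega)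
  have hmono : (2 * k + 1).choose (i + 1) ≤ (2 * k + 1).choose (k - 1) :=
    choose_mono_half (by omega) (by omega)
  have hN := N_pos (n := 2 * k + 1)
  rw [half_two_mul_add] at hN
  have hv : ((2 * k + 1).choose (i + 1) : ℚ) / ((2 * k + 1).choose k : ℚ) ≤ k / ((k : ℚ) + 2) := by
    rw [div_le_iff₀ hN, mul_comm (_ / _), ← v_km1_odd (by omega)]
    exact_mod_cast hmono
  set v := ((2 * k + 1).choose (i + 1) : ℚ) / ((2 * k + 1).choose k : ℚ) with hvdef
  have hpos : (0 : ℚ) < 2 * (k : ℚ) + 1 - i := by linarith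
  have hcost : cost (2 * k + 1) i = 1 - v * ((i : ℚ) + 1) / (2 * (k : ℚ) + 1 - i) := by
    unfold cost
    rw [half_two_mul_add, hvdef]
    congr 1
    push_cast at hst
    rw [div_mul_eq_mul_div, ← hst]
    field_simp
  have hx := xl_nonneg F i
  push_cast at e1
  have hmain : (2 * (2 * (k : ℚ) + 1 - 2 * i) - 1) / (2 * (2 * (k : ℚ) + 1 - i)) -
      cost (2 * k + 1) i ≤ 0 := by
    rw [hcost]
    have hv2 : v * ((i : ℚ) + 1) ≤ (i : ℚ) + 1 / 2 := by
      have h1 : v * ((i : ℚ) + 1) ≤ k / ((k : ℚ) + 2) * ((i : ℚ) + 1) :=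
        mul_le_mul_of_nonneg_right hv (by positivity)
      have h2 : k / ((k : ℚ) + 2) * ((i : ℚ) + 1) ≤ (i : ℚ) + 1 / 2 := by
        rw [div_mul_eq_mul_div, div_le_iff₀ (by positivity)]
        nlinarith
      exact h1.trans h2
    have e : (2 * (2 * (k : ℚ) + 1 - 2 * i) - 1) / (2 * (2 * (k : ℚ) + 1 - i)) -
        (1 - v * ((i : ℚ) + 1) / (2 * (k : ℚ) + 1 - i)) =
        (v * ((i : ℚ) + 1) - i - 1 / 2) / (2 * (k : ℚ) + 1 - i) := by
      field_simp
      ring
    rw [e]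
    apply div_nonpos_of_nonpos_of_nonneg _ hpos.le
    linarith
  have h6 := mul_le_mul_of_nonneg_left hmain hx
  linarith

lemma Phi_one_odd {F : Finset (Finset (Fin (2 * k + 1)))} (hF : Admissible F) (hk : 12 ≤ k) :
    Phi F (k - 1) ≤ 1 / 5 / ((k : ℚ) + 2) * xl F (k - 1) := by
  have hk0 : (0 : ℚ) < k := by exact_mod_cast (by omega : 0 < k)
  have hN : (0 : ℚ) < ((2 * k + 1).choose k : ℚ) := by exact_mod_cast Nat.choose_pos (by omega)
  have p1 : (0 : ℚ) < ((2 * k + 1).choose (k - 1) : ℚ) := by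
    exact_mod_cast Nat.choose_pos (by omega : k - 1 ≤ 2 * k + 1)
  have hcost : cost (2 * k + 1) (k - 1) = 2 / ((k : ℚ) + 2) := by
    unfold cost
    rw [half_two_mul_add, v_km1_odd (by omega)]
    field_simp
    ring
  have hW : lowW F (k - 1) ≤ 11 / 5 / ((k : ℚ) + 2) * xl F (k - 1) := by
    unfold lowW
    have a1 : 2 * k + 1 - 2 * (k - 1) - 1 = 2 := by omega
    have a2 : 2 * k + 1 - 2 * (k - 1) = 3 := by omega
    rw [a1, a2, mul_sum]
    refine (sum_le_sum fun A hA => level_one_odd hF hk hA).trans (le_of_eq ?_)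
    rw [sum_const, nsmul_eq_mul, xl_eq F (by omega)]
    field_simp
  unfold Phi
  rw [hcost]
  have : 1 / 5 / ((k : ℚ) + 2) * xl F (k - 1) =
      11 / 5 / ((k : ℚ) + 2) * xl F (k - 1) - 2 / ((k : ℚ) + 2) * xl F (k - 1) := by ring
  linarith

lemma xl_km1 {F : Finset (Finset (Fin (2 * k + 1)))} (hF : Admissible F) (hk : 2 ≤ k) :
    xl F (k - 1) * (k / ((k : ℚ) + 2)) ≤ P1 F := by
  have hk0 : (0 : ℚ) < k := by exact_mod_cast (by omega : 0 < k)
  have h1 : xl F (k - 1) = ∑ A ∈ lev F (k - 1), 1 / ((2 * k + 1).choose (k - 1) : ℚ) := by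
    rw [xl_eq F (by omega), sum_const, nsmul_eq_mul]; ring
  have h3 : ∑ A ∈ lev F (k - 1), Ex (fun σ => ind (pre σ (k - 1) = A ∧ (pre σ k ∉ F ∧ pre σ (k + 1) ∉ F))) ≤
      P1 F := by
    rw [← Ex_split F (by omega : k - 1 ≤ 2 * k + 1)]
    exact Ex_mono fun σ => ind_mono fun h => h.2
  refine le_trans ?_ h3
  rw [h1, sum_mul]
  apply sum_le_sum
  intro A hAl
  obtain ⟨hA, hc⟩ := mem_lev.1 hAl
  have e1 := H_le hF hA (D := 2) (by omega)
  have hsub : 2 * k + 1 - (k - 1) = k + 2 := by omega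
  have e2 : Ex (fun σ => ind (pre σ (k - 1) = A ∧ (pre σ k ∉ F ∧ pre σ (k + 1) ∉ F))) =
      1 / ((2 * k + 1).choose (k - 1) : ℚ) - H F A 2 := by
    rw [← hc, ← one_level A, H, ← Ex_sub]
    apply Ex_congr
    intro σ
    have i1 : A.card + 1 = k := by omega
    have i2 : A.card + 2 = k + 1 := by omega
    by_cases h1 : pre σ A.card = A
    · by_cases h2 : ∃ c, A.card < c ∧ c ≤ A.card + 2 ∧ pre σ c ∈ F
      · have j1 : ind (pre σ A.card = A ∧ ∃ c, A.card < c ∧ c ≤ A.card + 2 ∧ pre σ c ∈ F) = 1 :=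
          ind_of ⟨h1, h2⟩
        have j2 : ind (pre σ A.card = A ∧ (pre σ k ∉ F ∧ pre σ (k + 1) ∉ F)) = 0 := by
          apply ind_not
          rintro ⟨-, h3, h4⟩
          obtain ⟨c, c1, c2, c3⟩ := h2
          rcases (by omega : c = k ∨ c = k + 1) with h | h
          · exact h3 (h ▸ c3)
          · exact h4 (h ▸ c3)
        rw [j1, j2, ind_of h1, sub_self]
      · have j1 : ind (pre σ A.card = A ∧ ∃ c, A.card < c ∧ c ≤ A.card + 2 ∧ pre σ c ∈ F) = 0 :=
          ind_not fun h => h2 h.2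
        have j2 : ind (pre σ A.card = A ∧ (pre σ k ∉ F ∧ pre σ (k + 1) ∉ F)) = 1 := by
          apply ind_of
          exact ⟨h1, fun h => h2 ⟨k, by omega, by omega, h⟩, fun h => h2 ⟨k + 1, by omega, by omega, h⟩⟩
        rw [j1, j2, ind_of h1, sub_zero]
    · have j1 : ind (pre σ A.card = A ∧ ∃ c, A.card < c ∧ c ≤ A.card + 2 ∧ pre σ c ∈ F) = 0 :=
        ind_not fun h => h1 h.1
      have j2 : ind (pre σ A.card = A ∧ (pre σ k ∉ F ∧ pre σ (k + 1) ∉ F)) = 0 :=
        ind_not fun h => h1 h.1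
      rw [j1, j2, ind_not h1, sub_zero]
  rw [e2]
  rw [hc, hsub] at e1
  push_cast at e1
  have : 1 / ((2 * k + 1).choose (k - 1) : ℚ) * (k / ((k : ℚ) + 2)) =
      1 / ((2 * k + 1).choose (k - 1) : ℚ) - 1 / ((2 * k + 1).choose (k - 1) : ℚ) * (2 / ((k : ℚ) + 2)) := by
    field_simp
    ring
  rw [this]
  linarith

lemma near_odd {F : Finset (Finset (Fin (2 * k + 1)))} (hF : Admissible F) (hk : 12 ≤ k) :
    ((∑ i ∈ NS (2 * k + 1), (lev F i).card : ℕ) : ℚ) ≤
      ((2 * k + 1).choose k : ℚ) * (1 + zz F + 2 / 5 * P1 F / k) := by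
  have hk0 : (0 : ℚ) < k := by exact_mod_cast (by omega : 0 < k)
  have hN : (0 : ℚ) < ((2 * k + 1).choose k : ℚ) := by exact_mod_cast Nat.choose_pos (by omega)
  have h := main2 F
  rw [half_two_mul_add, Ex_nonempty] at h
  refine h.trans (mul_le_mul_of_nonneg_left ?_ hN.le)
  have hsplit : NL (2 * k + 1) = insert k (insert (k - 1) ((NL (2 * k + 1)).filter (fun i => i + 2 ≤ k))) := by
    ext i
    rw [mem_insert, mem_insert, mem_filter, mem_NL]
    omega
  have n1 : k - 1 ∉ (NL (2 * k + 1)).filter (fun i => i + 2 ≤ k) := by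
    rw [mem_filter]; omega
  have n2 : k ∉ insert (k - 1) ((NL (2 * k + 1)).filter (fun i => i + 2 ≤ k)) := by
    rw [mem_insert, mem_filter]; omega
  rw [hsplit, sum_insert n2, sum_insert n1]
  have h1 : ∑ i ∈ (NL (2 * k + 1)).filter (fun i => i + 2 ≤ k), (Phi F i + Phi (dual F) i) ≤ 0 := by
    apply sum_nonpos
    intro i hi
    rw [mem_filter, mem_NL] at hi
    have a1 := Phi_low_odd hF (by omega) hi.2
    have a2 := Phi_low_odd hF.dual (by omega) hi.2
    linarith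
  have h2 : ∀ G : Finset (Finset (Fin (2 * k + 1))), Admissible G → P1 G = P1 F →
      Phi G (k - 1) ≤ 1 / 5 * P1 F / k := by
    intro G hG hGP
    refine (Phi_one_odd hG hk).trans ?_
    have := xl_km1 hG (by omega)
    rw [hGP] at this
    rw [le_div_iff₀ hk0]
    have e : 1 / 5 / ((k : ℚ) + 2) * xl G (k - 1) * k = 1 / 5 * (xl G (k - 1) * (k / ((k : ℚ) + 2))) := by
      field_simp
    rw [e]
    linarith
  have h3 := h2 F hF rfl
  have h4 := h2 (dual F) hF.dual (P1_dual F)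
  have h5 := Phi_mid F
  have h6 := Phi_mid (dual F)
  rw [zz_dual] at h6
  have h7 := P0_nonneg F
  have h8 : 2 / 5 * P1 F / k = 1 / 5 * P1 F / k + 1 / 5 * P1 F / k := by ring
  linarith

lemma far_odd {F : Finset (Finset (Fin (2 * k + 1)))} (hF : Admissible F) {a : ℕ} (ha : 1 ≤ a)
    (h3 : 3 * a < 2 * k + 1) : xl F a ≤ 2 * P1 F := by
  refine (far_bound hF (a := a) (m := k + 1) (by omega) (by omega) (by omega)).trans ?_
  apply mul_le_mul_of_nonneg_left _ (by norm_num)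
  apply Ex_mono
  intro σ
  apply ind_mono
  intro h
  exact ⟨fun h' => h ⟨k, by omega, by omega, h'⟩, fun h' => h ⟨k + 1, by omega, by omega, h'⟩⟩

lemma odd_total {F : Finset (Finset (Fin (2 * k + 1)))} (hF : Admissible F) (hk : 12 ≤ k)
    (hS : (∑ i ∈ FL (2 * k + 1), ((2 * k + 1).choose i : ℚ)) ≤
      ((2 * k + 1).choose k : ℚ) / (32 * (2 * k + 1))) :
    (F.card : ℚ) ≤ ((2 * k + 1).choose k : ℚ) *
      (1 + zz F + 2 / 5 * P1 F / k + P1 F / (8 * (2 * k + 1))) +
      (((lev F 0).card + (lev (dual F) 0).card : ℕ) : ℚ) := by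
  have hk0 : (0 : ℚ) < k := by exact_mod_cast (by omega : 0 < k)
  have hP := P1_nonneg F
  have hnear := near_odd hF hk
  have hsplit : FL (2 * k + 1) = insert 0 ((FL (2 * k + 1)).filter (fun i => 1 ≤ i)) := by
    ext i
    rw [mem_insert, mem_filter, mem_FL]
    omega
  have n0 : 0 ∉ (FL (2 * k + 1)).filter (fun i => 1 ≤ i) := by rw [mem_filter]; omega
  have h1 := total_split F
  rw [hsplit, sum_insert n0] at h1
  have h2 : ((∑ i ∈ (FL (2 * k + 1)).filter (fun i => 1 ≤ i),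
      ((lev F i).card + (lev (dual F) i).card) : ℕ) : ℚ) ≤
      ((2 * k + 1).choose k : ℚ) * (P1 F / (8 * (2 * k + 1))) := by
    push_cast
    have h3 : ∑ i ∈ (FL (2 * k + 1)).filter (fun i => 1 ≤ i),
        (((lev F i).card : ℚ) + ((lev (dual F) i).card : ℚ)) ≤
        ∑ i ∈ (FL (2 * k + 1)).filter (fun i => 1 ≤ i), (4 * P1 F) * ((2 * k + 1).choose i : ℚ) := by
      apply sum_le_sum
      intro i hi
      rw [mem_filter, mem_FL] at hi
      rw [card_lev F (by omega), card_lev (dual F) (by omega)]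
      have a1 := far_odd hF hi.2 hi.1
      have a2 := far_odd hF.dual hi.2 hi.1
      rw [P1_dual] at a2
      have p : (0 : ℚ) ≤ ((2 * k + 1).choose i : ℚ) := by positivity
      have b1 := mul_le_mul_of_nonneg_left a1 p
      have b2 := mul_le_mul_of_nonneg_left a2 p
      linarith
    have h4 : ∑ i ∈ (FL (2 * k + 1)).filter (fun i => 1 ≤ i), (4 * P1 F) * ((2 * k + 1).choose i : ℚ) ≤
        ∑ i ∈ FL (2 * k + 1), (4 * P1 F) * ((2 * k + 1).choose i : ℚ) := by
      apply sum_le_sum_of_subset_of_nonneg (filter_subset _ _)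
      intro i _ _
      positivity
    rw [← mul_sum] at h3
    rw [← mul_sum, ← mul_sum] at h4
    have h5 := mul_le_mul_of_nonneg_left hS (by positivity : (0 : ℚ) ≤ 4 * P1 F)
    have e : 4 * P1 F * (((2 * k + 1).choose k : ℚ) / (32 * (2 * k + 1))) =
        ((2 * k + 1).choose k : ℚ) * (P1 F / (8 * (2 * k + 1))) := by
      field_simp
      ring
    rw [e] at h5
    linarith
  rw [h1]
  push_cast at *
  linarith

lemma empty_mid {F : Finset (Finset (Fin (2 * k + 1)))} (hF : Admissible F) (hk : 1 ≤ k)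
    (h0 : 1 ≤ (lev F 0).card) : zz F ≤ k / ((2 * (k : ℚ) + 1) * (k + 1)) := by
  obtain ⟨A, hA⟩ := card_pos.1 (by omega : 0 < (lev F 0).card)
  rw [mem_lev, card_eq_zero] at hA
  have he : ∅ ∈ F := by rw [← hA.2]; exact hA.1
  have h1 : (lev F k).card ≤ (2 * k + 1 - 1).choose (k - 1) := by
    have h := ekr_mod (∅ : Finset (Fin (2 * k + 1))) (lev F k) k
      (by rw [card_empty]; omega)
      (fun C hC => ⟨empty_subset _, by rw [card_empty, (mem_lev.1 hC).2]; omega⟩)
      (fun C hC C' hC' => by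
        have s1 : (∅ : Finset (Fin (2 * k + 1))) ⊂ C := by
          rw [Finset.empty_ssubset, ← card_pos, (mem_lev.1 hC).2]; omega
        have s2 : (∅ : Finset (Fin (2 * k + 1))) ⊂ C' := by
          rw [Finset.empty_ssubset, ← card_pos, (mem_lev.1 hC').2]; omega
        exact meet_outside hF he (mem_lev.1 hC).1 (mem_lev.1 hC').1 s1 s2)
    rw [card_empty] at h
    exact h
  have h2 : xl F k ≤ (k : ℚ) / ((2 * k + 1 : ℕ) : ℚ) := by
    rw [xl_eq F (by omega), ← choose_ratio hk (by omega : k ≤ 2 * k + 1)]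
    apply div_le_div_of_nonneg_right _ (by positivity)
    exact_mod_cast h1
  refine (zz_le hF hk).trans ?_
  push_cast at h2
  rw [div_le_iff₀ (by positivity)]
  refine h2.trans (le_of_eq ?_)
  field_simp

theorem odd_upper {F : Finset (Finset (Fin (2 * k + 1)))} (hF : Admissible F) (hk : 12 ≤ k)
    (hS : (∑ i ∈ FL (2 * k + 1), ((2 * k + 1).choose i : ℚ)) ≤
      ((2 * k + 1).choose k : ℚ) / (32 * (2 * k + 1)))
    (hB : 60 * (2 * (k : ℚ) + 1) * (k + 1) ≤ ((2 * k + 1).choose k : ℚ)) :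
    F.card ≤ 2 * (2 * k).choose k := by
  have hk0 : (0 : ℚ) < k := by exact_mod_cast (by omega : 0 < k)
  have hk12 : (12 : ℚ) ≤ k := by exact_mod_cast hk
  have hN : (0 : ℚ) < ((2 * k + 1).choose k : ℚ) := by exact_mod_cast Nat.choose_pos (by omega)
  have hP := P1_nonneg F
  have htot := odd_total hF hk hS
  have hz := zz_main hF (by omega : 1 ≤ k)
  have hval : ((2 * k + 1).choose k : ℚ) * (1 + 1 / (2 * (k : ℚ) + 1)) = 2 * ((2 * k).choose k : ℚ) := by
    have h := Nat.choose_mul_succ_eq (2 * k) k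
    have e : 2 * k + 1 - k = k + 1 := by omega
    rw [e] at h
    have h' : ((2 * k).choose k : ℚ) * (2 * k + 1) = ((2 * k + 1).choose k : ℚ) * (k + 1) := by
      exact_mod_cast h
    have : ((2 * k + 1).choose k : ℚ) * (1 + 1 / (2 * (k : ℚ) + 1)) =
        2 * (((2 * k + 1).choose k : ℚ) * (k + 1)) / (2 * (k : ℚ) + 1) := by
      field_simp
      ring
    rw [this, ← h']
    field_simp
  suffices h : (F.card : ℚ) ≤ 2 * ((2 * k).choose k : ℚ) by exact_mod_cast h
  rw [← hval]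
  set N := ((2 * k + 1).choose k : ℚ) with hNdef
  have hn : (0 : ℚ) < 2 * (k : ℚ) + 1 := by positivity
  have hcoef : 2 / 5 * P1 F / k + P1 F / (8 * (2 * k + 1)) ≤ 29 / 30 * (P1 F / (2 * k + 1)) := by
    have e1 : 2 / 5 * P1 F / k ≤ (5 / 6) * (P1 F / (2 * k + 1)) := by
      rw [mul_div_assoc', div_le_div_iff₀ hk0 hn]
      nlinarith
    have e2 : P1 F / (8 * (2 * k + 1)) = 1 / 8 * (P1 F / (2 * k + 1)) := by
      field_simp
    rw [e2]
    have : 0 ≤ P1 F / (2 * k + 1) := by positivity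
    linarith
  have hz1 : zz F ≤ 1 / (2 * (k : ℚ) + 1) - P1 F / (2 * k + 1) := by
    rw [← sub_div, le_div_iff₀ hn]
    linarith
  have hfac : 0 ≤ P1 F / (2 * k + 1) := by positivity
  by_cases hE : (lev F 0).card + (lev (dual F) 0).card = 0
  · rw [hE] at htot
    have : N * (1 + zz F + 2 / 5 * P1 F / k + P1 F / (8 * (2 * k + 1))) ≤
        N * (1 + 1 / (2 * (k : ℚ) + 1)) := by
      apply mul_le_mul_of_nonneg_left _ hN.le
      linarith
    push_cast at htot
    linarith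
  · have hE2 : (((lev F 0).card + (lev (dual F) 0).card : ℕ) : ℚ) ≤ 2 := by
      have l0 := lev_zero_card F
      have l0' := lev_zero_card (dual F)
      exact_mod_cast (by omega : (lev F 0).card + (lev (dual F) 0).card ≤ 2)
    have hz2 : zz F ≤ k / ((2 * (k : ℚ) + 1) * (k + 1)) := by
      by_cases h : 1 ≤ (lev F 0).card
      · exact empty_mid hF (by omega) h
      · have := empty_mid hF.dual (by omega) (by omega : 1 ≤ (lev (dual F) 0).card)
        rwa [zz_dual] at this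
    have hz3 : zz F ≤ 29 / 30 * (1 / (2 * (k : ℚ) + 1) - P1 F / (2 * k + 1)) +
        1 / 30 * (k / ((2 * (k : ℚ) + 1) * (k + 1))) := by linarith
    have e3 : (k : ℚ) / ((2 * (k : ℚ) + 1) * (k + 1)) = 1 / (2 * (k : ℚ) + 1) -
        1 / ((2 * (k : ℚ) + 1) * (k + 1)) := by
      field_simp
      ring
    rw [e3] at hz3
    have h5 : N * (1 + zz F + 2 / 5 * P1 F / k + P1 F / (8 * (2 * k + 1))) ≤
        N * (1 + 1 / (2 * (k : ℚ) + 1) - 1 / 30 * (1 / ((2 * (k : ℚ) + 1) * (k + 1)))) := by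
      apply mul_le_mul_of_nonneg_left _ hN.le
      linarith
    have h6 : 2 ≤ N * (1 / 30 * (1 / ((2 * (k : ℚ) + 1) * (k + 1)))) := by
      have : N * (1 / 30 * (1 / ((2 * (k : ℚ) + 1) * (k + 1)))) =
          N / (30 * ((2 * (k : ℚ) + 1) * (k + 1))) := by field_simp
      rw [this, le_div_iff₀ (by positivity)]
      linarith
    have h7 : N * (1 + 1 / (2 * (k : ℚ) + 1) - 1 / 30 * (1 / ((2 * (k : ℚ) + 1) * (k + 1)))) =
        N * (1 + 1 / (2 * (k : ℚ) + 1)) - N * (1 / 30 * (1 / ((2 * (k : ℚ) + 1) * (k + 1)))) := by ring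
    linarith

end Pool.Agent.Lib_MP_b87ef1_x77
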